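import Mathlib

/-!
Finite cooperative games without communication.  If every single player, informed of the inputs and
answers of all the others, can avoid losing, then finitely many parallel rounds of the game suffice
for the players to be sure of not losing at least one round.
-/

namespace Pool.Agent.H84.LFGame

/-- Every player `c`, knowing the inputs and answers of all the others and its own input, has an
answer which avoids losing. -/
def Informed {ι V A : Type} (Lose : (ι → V × A) → Prop) : Prop :=
  ∀ (c : ι) (f : ι → V × A), ∃ a : A, ∀ g : ι → V × A, (∀ d, d ≠ c → g d = f d) →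
    g c = ((f c).1, a) → ¬ Lose g

/-- Finitely many rounds in parallel can be played such that at least one round is not lost. -/
def Winnable {ι V A : Type} (Lose : (ι → V × A) → Prop) : Prop :=
  ∃ (X : Type) (_ : Finite X) (t : ι → (X → V) → X → A),
    ∀ u : ι → X → V, ∃ x, ¬ Lose (fun c => (u c x, t c (u c) x))

/-- If a set of tuples is such that for every `x` some value `g` is missed, the set is covered by
few slices. -/
theorem exists_lists {D : Type} (P : D → Type) (G : Type) [Finite G] [Nonempty G]
    [∀ i, Nonempty (P i)]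
    (S : Set (∀ i, P i)) (hS : ∀ x : (∀ i, P i → G), ∃ g, ∀ p ∈ S, ¬ ∀ i, x i (p i) = g) :
    ∃ B : ∀ i, Fin (Nat.card G) → P i, ∀ p ∈ S, ∃ i τ, p i = B i τ := by
  classical
  by_contra hB
  push Not at hB
  have key : ∀ m, m ≤ Nat.card G → ∃ q : Fin m → ∀ i, P i, (∀ l, q l ∈ S) ∧
      ∀ i, Function.Injective (fun l => q l i) := by
    intro m
    induction m with
    | zero =>
      intro _
      exact ⟨fun l => l.elim0, fun l => l.elim0, fun i l => l.elim0⟩
    | succ m ih =>
      intro hm
      obtain ⟨q, hq, hinj⟩ := ih (by omega)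
      obtain ⟨p, hp, hne⟩ := hB (fun i τ => if h : (τ : ℕ) < m then q ⟨τ, h⟩ i
        else Classical.arbitrary _)
      have hne' : ∀ i (l : Fin m), p i ≠ q l i := by
        intro i l
        have := hne i ⟨l, by omega⟩
        simpa using this
      refine ⟨Fin.snoc q p, ?_, ?_⟩
      · intro l
        refine Fin.lastCases ?_ (fun l => ?_) l
        · simpa using hp
        · simpa using hq l
      · intro i l l'
        refine Fin.lastCases ?_ (fun l => ?_) l <;> refine Fin.lastCases ?_ (fun l' => ?_) l'
        · intro _; rfl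
        · intro h
          simp only [Fin.snoc_last, Fin.snoc_castSucc] at h
          exact absurd h (hne' i l')
        · intro h
          simp only [Fin.snoc_last, Fin.snoc_castSucc] at h
          exact absurd h.symm (hne' i l)
        · intro h
          simp only [Fin.snoc_castSucc] at h
          rw [hinj i h]
  obtain ⟨q, hq, hinj⟩ := key _ le_rfl
  let e : Fin (Nat.card G) ≃ G := (Finite.equivFin G).symm
  obtain ⟨g, hg⟩ := hS (fun i => Function.extend (fun l => q l i) e
    (fun _ => Classical.arbitrary G))
  apply hg (q (e.symm g)) (hq _)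
  intro i
  have h1 := (hinj i).extend_apply (g := fun l => e l) (e' := fun _ => Classical.arbitrary G)
    (e.symm g)
  rw [Equiv.apply_symm_apply] at h1
  exact h1

/-- The inductive step. -/
theorem step {D : Type} (hD : Nonempty D)
    (ih : ∀ (V A : Type) [Finite V] [Finite A] [Nonempty A] (Lose : (D → V × A) → Prop),
      Informed Lose → Winnable Lose)
    (V A : Type) [Finite V] [Finite A] [Nonempty V] [Finite D] [Nonempty A]
    (Lose : (Option D → V × A) → Prop) (hL : Informed Lose) : Winnable Lose := by
  classical
  let v₀ : V := Classical.arbitrary V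
  let a₀ : A := Classical.arbitrary A
  -- the game of the players in `D`, who know the input and answer of `none`
  let Lose₁ : (D → ((V × A) × V) × A) → Prop := fun f =>
    ∃ g : V × A, (∀ d, (f d).1.1 = g) ∧
      Lose (fun o => o.elim g (fun d => ((f d).1.2, (f d).2)))
  have hL₁ : Informed Lose₁ := by
    intro c f
    obtain ⟨a, ha⟩ := hL (some c) (fun o => o.elim (f c).1.1 (fun d => ((f d).1.2, (f d).2)))
    refine ⟨a, ?_⟩
    rintro g hg hgc ⟨r, hr, hlose⟩
    refine ha _ ?_ ?_ hlose
    · intro o ho
      cases o with
      | none =>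
        change r = (f c).1.1
        rw [← hr c, hgc]
      | some d =>
        change ((g d).1.2, (g d).2) = ((f d).1.2, (f d).2)
        rw [hg d (fun h => ho (by rw [h]))]
    · change ((g c).1.2, (g c).2) = ((f c).1.2, a)
      rw [hgc]
  obtain ⟨Y₀, hY₀, σ, hσ⟩ := ih _ _ Lose₁ hL₁
  have hσ' : ∀ (f : Y₀ → V × A) (v : D → Y₀ → V), ∃ y, ¬ Lose (fun o => o.elim (f y)
      (fun d => (v d y, σ d (fun y' => (f y', v d y')) y))) := by
    intro f v
    obtain ⟨y, hy⟩ := hσ (fun d y' => (f y', v d y'))
    exact ⟨y, fun h => hy ⟨f y, fun _ => rfl, h⟩⟩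
  -- the games in which player `none` knows the input of player `i`
  let Lose₂ : D → (D → (V × V) × A) → Prop := fun i f =>
    Lose (fun o => o.elim ((f i).1.2, (f i).2)
      (fun d => if d = i then ((f i).1.1, a₀) else ((f d).1.1, (f d).2)))
  have hL₂ : ∀ i, Informed (Lose₂ i) := by
    intro i c f
    by_cases hc : c = i
    · subst hc
      obtain ⟨a, ha⟩ := hL none (fun o => o.elim ((f c).1.2, (f c).2)
        (fun d => if d = c then ((f c).1.1, a₀) else ((f d).1.1, (f d).2)))
      refine ⟨a, ?_⟩
      intro g hg hgc hlose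
      refine ha _ ?_ ?_ hlose
      · intro o ho
        cases o with
        | none => exact absurd rfl ho
        | some d =>
          change (if d = c then ((g c).1.1, a₀) else ((g d).1.1, (g d).2)) =
            (if d = c then ((f c).1.1, a₀) else ((f d).1.1, (f d).2))
          split_ifs with hd
          · rw [hgc]
          · rw [hg d hd]
      · change ((g c).1.2, (g c).2) = ((f c).1.2, a)
        rw [hgc]
    · obtain ⟨a, ha⟩ := hL (some c) (fun o => o.elim ((f i).1.2, (f i).2)
        (fun d => if d = i then ((f i).1.1, a₀) else ((f d).1.1, (f d).2)))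
      refine ⟨a, ?_⟩
      intro g hg hgc hlose
      have hgi : g i = f i := hg i (fun h => hc h.symm)
      refine ha _ ?_ ?_ hlose
      · intro o ho
        cases o with
        | none =>
          change ((g i).1.2, (g i).2) = ((f i).1.2, (f i).2)
          rw [hgi]
        | some d =>
          change (if d = i then ((g i).1.1, a₀) else ((g d).1.1, (g d).2)) =
            (if d = i then ((f i).1.1, a₀) else ((f d).1.1, (f d).2))
          have hdc : d ≠ c := fun h => ho (by rw [h])
          rw [hgi, hg d hdc]
      · change (if c = i then ((g i).1.1, a₀) else ((g c).1.1, (g c).2)) =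
            ((if c = i then ((f i).1.1, a₀) else ((f c).1.1, (f c).2)).1, a)
        rw [if_neg hc, if_neg hc, hgc]
  choose Y hY t₂ ht₂ using fun i => ih _ _ (Lose₂ i) (hL₂ i)
  have ht₂' : ∀ (i : D) (v : Option D → Y i → V), ∃ y, ¬ Lose (fun o => o.elim
      (v none y, t₂ i i (fun y' => (v (some i) y', v none y')) y)
      (fun d => if d = i then (v (some i) y, a₀)
        else (v (some d) y, t₂ i d (fun y' => (v (some d) y', v₀)) y))) := by
    intro i v
    obtain ⟨y, hy⟩ := ht₂ i (fun d y' => if d = i then (v (some i) y', v none y')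
      else (v (some d) y', v₀))
    refine ⟨y, fun h => hy ?_⟩
    change Lose _
    convert h using 1
    funext o
    cases o with
    | none => simp
    | some d =>
      by_cases hd : d = i
      · simp [hd]
      · simp [hd]
  let G : Type := Y₀ → V × A
  have : Finite G := inferInstanceAs (Finite (Y₀ → V × A))
  have : Nonempty G := inferInstanceAs (Nonempty (Y₀ → V × A))
  let P : D → Type := fun i => Fin (Nat.card G) × Y i → V
  have hP : ∀ i, Nonempty (P i) := fun i =>
    inferInstanceAs (Nonempty (Fin (Nat.card G) × Y i → V))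
  have hPf : ∀ i, Finite (P i) := fun i =>
    inferInstanceAs (Finite (Fin (Nat.card G) × Y i → V))
  have hlist : ∀ φ : (∀ i, P i → G) → G, ∃ B : ∀ i, Fin (Nat.card G) → P i,
      ∀ p : ∀ i, P i, (∀ x : ∀ i, P i → G, ¬ ∀ i, x i (p i) = φ x) → ∃ i τ, p i = B i τ := by
    intro φ
    exact exists_lists P G {p | ∀ x : ∀ i, P i → G, ¬ ∀ i, x i (p i) = φ x}
      (fun x => ⟨φ x, fun p hp => hp x⟩)
  choose B hB using hlist
  -- the rounds
  let X : Type := ((∀ i, P i → G) × Y₀) ⊕ (Σ i : D, Fin (Nat.card G) × Y i)
  have hX : Finite X := inferInstanceAs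
    (Finite (((∀ i, P i → G) × Y₀) ⊕ (Σ i : D, Fin (Nat.card G) × Y i)))
  let Φ : (X → V) → (∀ i, P i → G) → G := fun w x y => (w (Sum.inl (x, y)), a₀)
  let pr : (X → V) → (i : D) → P i := fun w i q => w (Sum.inr ⟨i, q⟩)
  let t : Option D → (X → V) → X → A := fun c w r =>
    Option.rec (motive := fun _ => A)
      (Sum.elim (fun _ => a₀)
        (fun s => t₂ s.1 s.1 (fun y' => (B (Φ w) s.1 s.2.1 (s.2.1, y'),
          w (Sum.inr ⟨s.1, (s.2.1, y')⟩))) s.2.2) r)
      (fun d => Sum.elim (fun s => σ d (fun y' => (s.1 d (pr w d) y', w (Sum.inl (s.1, y')))) s.2)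
        (fun s => if d = s.1 then a₀ else
          t₂ s.1 d (fun y' => (w (Sum.inr ⟨s.1, (s.2.1, y')⟩), v₀)) s.2.2) r) c
  refine ⟨X, hX, t, fun u => ?_⟩
  by_contra hall
  push Not at hall
  -- the messages
  obtain ⟨i, τ, hiτ⟩ := hB (Φ (u none)) (fun i => pr (u (some i)) i) (by
    intro x hx
    obtain ⟨y, hy⟩ := hσ' (Φ (u none) x) (fun d y' => u (some d) (Sum.inl (x, y')))
    apply hy
    convert hall (Sum.inl (x, y)) using 1
    funext o
    cases o with
    | none => rfl
    | some d =>
      change (u (some d) (Sum.inl (x, y)), σ d (fun y' => (Φ (u none) x y', _)) y) =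
        (u (some d) (Sum.inl (x, y)), σ d (fun y' => (x d (pr (u (some d)) d) y', _)) y)
      rw [hx d])
  obtain ⟨y, hy⟩ := ht₂' i (fun o y' => u o (Sum.inr ⟨i, (τ, y')⟩))
  apply hy
  convert hall (Sum.inr ⟨i, (τ, y)⟩) using 1
  funext o
  cases o with
  | none =>
    change (u none (Sum.inr ⟨i, (τ, y)⟩), t₂ i i (fun y' => (u (some i) (Sum.inr ⟨i, (τ, y')⟩),
        u none (Sum.inr ⟨i, (τ, y')⟩))) y) =
      (u none (Sum.inr ⟨i, (τ, y)⟩), t₂ i i (fun y' => (B (Φ (u none)) i τ (τ, y'),
        u none (Sum.inr ⟨i, (τ, y')⟩))) y)
    rw [← hiτ]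
  | some d =>
    change (if d = i then (u (some i) (Sum.inr ⟨i, (τ, y)⟩), a₀) else _) = (_, if d = i then a₀
      else _)
    by_cases hd : d = i
    · subst hd
      simp
    · simp only [if_neg hd]

theorem winnable_of_informed_aux {ι : Type} [Finite ι] : Nonempty ι →
    ∀ (V A : Type) [Finite V] [Finite A] [Nonempty A] (Lose : (ι → V × A) → Prop),
      Informed Lose → Winnable Lose := by
  classical
  refine Finite.induction_empty_option (P := fun (ι : Type) => Nonempty ι →
    ∀ (V A : Type) [Finite V] [Finite A] [Nonempty A] (Lose : (ι → V × A) → Prop),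
      Informed Lose → Winnable Lose) ?_ ?_ ?_ ι
  · intro α β e h hβ V A _ _ _ Lose hL
    have hα : Nonempty α := hβ.map e.symm
    obtain ⟨X, hX, t, ht⟩ := h hα V A (fun f => Lose (fun b => f (e.symm b))) (by
      intro c f
      obtain ⟨a, ha⟩ := hL (e c) (fun b => f (e.symm b))
      refine ⟨a, fun g hg hgc => ha _ ?_ ?_⟩
      · intro b hb
        exact hg _ (fun h => hb (by rw [← h, Equiv.apply_symm_apply]))
      · simp only [Equiv.symm_apply_apply]
        exact hgc)
    refine ⟨X, hX, fun b => t (e.symm b), fun u => ?_⟩
    obtain ⟨x, hx⟩ := ht (fun a => u (e a))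
    refine ⟨x, ?_⟩
    simpa using hx
  · intro h
    exact h.elim (fun x => x.elim)
  · intro D _ h _ V A _ _ _ Lose hL
    rcases isEmpty_or_nonempty V with hV | hV
    · refine ⟨Unit, inferInstance, fun _ w _ => (hV.false (w ())).elim, fun u => ?_⟩
      exact (hV.false (u none ())).elim
    · rcases isEmpty_or_nonempty D with hD | hD
      · choose a ha using fun v : V => hL none (fun _ => (v, Classical.arbitrary A))
        refine ⟨Unit, inferInstance, fun _ w x => a (w x), fun u => ⟨(), ?_⟩⟩
        refine ha (u none ()) _ ?_ rfl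
        intro d hd
        cases d with
        | none => exact absurd rfl hd
        | some d => exact (hD.false d).elim
      · exact step hD (fun V A _ _ _ => h hD V A) V A Lose hL

/-- **Game lemma.**  Finitely many players, finitely many inputs and answers; if every single
fully informed player can avoid losing, then finitely many parallel rounds can be played, without
communication, such that at least one round is not lost. -/
theorem winnable_of_informed {ι V A : Type} [Finite ι] [Nonempty ι] [Finite V] [Finite A]
    [Nonempty A] (Lose : (ι → V × A) → Prop) (hL : Informed Lose) : Winnable Lose :=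
  winnable_of_informed_aux ‹_› V A Lose hL

end Pool.Agent.H84.LFGame
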