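import Pool.Agent.H88.LFMain
import Pool.Agent.H84.LFGame

/-!
A right ideal which separates `F` from the forms `G_c` makes the pattern avoidable.
-/

namespace Pool.Agent.H84.LFFull

open scoped BigOperators
open Pool.Agent.H88.LF
open Pool.Agent.H88.LF.DualMod

universe u

variable {R : Type u} [Ring R] {h k : ℕ}

/-- Two extensions of a character along `x ↦ x F`, with different values at `V` if possible. -/
theorem exists_two (I : Submodule Rᵐᵒᵖ R) [Finite (R ⧸ I)] (F : Fin h → R)
    (hi : Function.Injective (formHom I F)) (V : Fin h → R ⧸ I) (u : (R ⧸ I) →+ QZ) :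
    ∃ Y : Bool → ((Fin h → R ⧸ I) →+ QZ), (∀ b x, Y b (formHom I F x) = u x) ∧
      (V ∉ (formHom I F).range → Y false V ≠ Y true V) := by
  classical
  obtain ⟨Y₀, hY₀⟩ := extend_char (formHom I F) hi u
  by_cases hV : V ∈ (formHom I F).range
  · exact ⟨fun _ => Y₀, fun _ => hY₀, fun h => absurd hV h⟩
  · have hne : (QuotientAddGroup.mk V : (Fin h → R ⧸ I) ⧸ (formHom I F).range) ≠ 0 := by
      rw [Ne, QuotientAddGroup.eq_zero_iff]
      exact hV
    obtain ⟨Z, hZ⟩ := CharacterModule.exists_character_apply_ne_zero_of_ne_zero hne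
    let Z' : (Fin h → R ⧸ I) →+ QZ := Z.comp (QuotientAddGroup.mk' _)
    have hZ'F : ∀ x, Z' (formHom I F x) = 0 := by
      intro x
      change Z (QuotientAddGroup.mk (formHom I F x)) = 0
      have : (QuotientAddGroup.mk (formHom I F x) : (Fin h → R ⧸ I) ⧸ (formHom I F).range)
          = 0 := by
        rw [QuotientAddGroup.eq_zero_iff]
        exact ⟨x, rfl⟩
      rw [this, map_zero]
    refine ⟨fun b => if b then Y₀ + Z' else Y₀, ?_, ?_⟩
    · intro b x
      cases b
      · exact hY₀ x
      · change Y₀ (formHom I F x) + Z' (formHom I F x) = u x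
        rw [hZ'F, add_zero, hY₀]
    · intro _ heq
      change Y₀ V = Y₀ V + Z' V at heq
      apply hZ
      change Z' V = 0
      have := left_eq_add.1 heq
      exact this

theorem avoidable_of_separates (I : Submodule Rᵐᵒᵖ R) (hI : I ≠ ⊤) [Finite (R ⧸ I)]
    (F : Fin h → R) (G : Fin k → R) (τ : Fin k → Fin h) (κ : Fin k → Fin k)
    (hS : Separates I F (specialise G τ κ)) : Avoidable F G τ κ := by
  classical
  have hi := formHom_injective I F hS.1
  set V : Fin k → Fin h → R ⧸ I :=
    fun c i => Submodule.Quotient.mk (specialise G τ κ c i) with hV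
  have hV0 : ∀ c, V c ∈ (formHom I F).range → V c = 0 := by
    rintro c ⟨q, hq⟩
    obtain ⟨x, rfl⟩ := Submodule.Quotient.mk_surjective I q
    have h1 : ∀ i, specialise G τ κ c i - x * F i ∈ I := fun i =>
      (Submodule.Quotient.eq I).1 (congrFun hq i).symm
    have hx := hS.2 c x h1
    rw [← hq]
    have : (Submodule.Quotient.mk x : R ⧸ I) = 0 := (Submodule.Quotient.mk_eq_zero I).2 hx
    rw [this, map_zero]
  choose Y hYF hYV using fun (c : Fin k) (u : (R ⧸ I) →+ QZ) => exists_two I F hi (V c) u
  -- the target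
  have h1 : (Submodule.Quotient.mk (1 : R) : R ⧸ I) ≠ 0 := by
    rw [Ne, Submodule.Quotient.mk_eq_zero]
    intro h1
    apply hI
    rw [eq_top_iff]
    intro x _
    have := I.smul_mem (MulOpposite.op x) h1
    simpa using this
  obtain ⟨w₁, hw₁⟩ := CharacterModule.exists_character_apply_ne_zero_of_ne_zero h1
  let w₂ : DualMod I := w₁
  have hw₂ : ev I w₂ (Submodule.Quotient.mk (1 : R)) ≠ 0 := hw₁
  -- the combinatorial core
  have core : ∃ (X : Type) (_ : Finite X) (t : Fin k → (X → DualMod I) → X → Bool),
      ∀ u : Fin k → X → DualMod I, ∃ x, ∑ c, Y c (hom I (u c x)) (t c (u c) x) (V c) ≠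
        ev I w₂ (Submodule.Quotient.mk (1 : R)) := by
    by_cases hC : Nonempty {c : Fin k // V c ∉ (formHom I F).range}
    · obtain ⟨n, ⟨e⟩⟩ := Finite.exists_equiv_fin (DualMod I)
      let T : {c : Fin k // V c ∉ (formHom I F).range} → Fin n × Bool → QZ := fun c f =>
        Y c (hom I (e.symm f.1)) f.2 (V c)
      let Lose : ({c : Fin k // V c ∉ (formHom I F).range} → Fin n × Bool) → Prop := fun f =>
        ∑ c, T c (f c) = ev I w₂ (Submodule.Quotient.mk (1 : R))
      have hinf : LFGame.Informed Lose := by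
        intro c f
        have hne : T c ((f c).1, false) ≠ T c ((f c).1, true) :=
          hYV c (hom I (e.symm (f c).1)) c.2
        have hsum : ∀ a (g : {c : Fin k // V c ∉ (formHom I F).range} → Fin n × Bool),
            (∀ d, d ≠ c → g d = f d) → g c = ((f c).1, a) →
            ∑ c, T c (g c) = ∑ d ∈ Finset.univ.erase c, T d (f d) + T c ((f c).1, a) := by
          intro a g hg hgc
          rw [← Finset.sum_erase_add _ _ (Finset.mem_univ c), hgc]
          congr 1
          apply Finset.sum_congr rfl
          intro d hd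
          rw [hg d (Finset.ne_of_mem_erase hd)]
        by_cases h0 : ∑ d ∈ Finset.univ.erase c, T d (f d) + T c ((f c).1, false) =
            ev I w₂ (Submodule.Quotient.mk (1 : R))
        · refine ⟨true, fun g hg hgc hlose => hne ?_⟩
          have h2 : ∑ c, T c (g c) = ev I w₂ (Submodule.Quotient.mk (1 : R)) := hlose
          rw [hsum true g hg hgc, ← h0] at h2
          exact (add_left_cancel h2).symm
        · refine ⟨false, fun g hg hgc hlose => h0 ?_⟩
          have h2 : ∑ c, T c (g c) = ev I w₂ (Submodule.Quotient.mk (1 : R)) := hlose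
          rw [hsum false g hg hgc] at h2
          exact h2
      obtain ⟨X, hX, t, ht⟩ := LFGame.winnable_of_informed Lose hinf
      refine ⟨X, hX, fun c w x => if hc : V c ∉ (formHom I F).range then
        t ⟨c, hc⟩ (fun x' => e (w x')) x else false, fun u => ?_⟩
      obtain ⟨x, hx⟩ := ht (fun c x' => e (u c x'))
      refine ⟨x, fun heq => hx ?_⟩
      change ∑ c : {c : Fin k // V c ∉ (formHom I F).range}, Y c (hom I (e.symm (e (u c x))))
        (t c (fun x' => e (u c x')) x) (V c) = ev I w₂ (Submodule.Quotient.mk (1 : R))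
      rw [← heq]
      have h2 : ∑ c, Y c (hom I (u c x)) (if hc : V c ∉ (formHom I F).range then
          t ⟨c, hc⟩ (fun x' => e (u c x')) x else false) (V c) =
          ∑ c ∈ Finset.univ.filter (fun c => V c ∉ (formHom I F).range),
            Y c (hom I (u c x)) (if hc : V c ∉ (formHom I F).range then
          t ⟨c, hc⟩ (fun x' => e (u c x')) x else false) (V c) := by
        rw [Finset.sum_filter]
        apply Finset.sum_congr rfl
        intro c _
        by_cases hc : V c ∉ (formHom I F).range
        · rw [if_pos hc]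
        · rw [if_neg hc, dif_neg hc, hV0 c (not_not.1 hc), map_zero]
      rw [h2, Finset.sum_subtype (Finset.univ.filter (fun c => V c ∉ (formHom I F).range))
        (p := fun c => V c ∉ (formHom I F).range) (fun c => by simp)]
      apply Finset.sum_congr rfl
      intro c _
      rw [dif_pos c.2, Equiv.symm_apply_apply]
    · refine ⟨Unit, inferInstance, fun _ _ _ => false, fun u => ⟨(), ?_⟩⟩
      rw [Finset.sum_eq_zero]
      · exact hw₂.symm
      · intro c _
        have hc : V c ∈ (formHom I F).range := by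
          by_contra hc
          exact hC ⟨⟨c, hc⟩⟩
        rw [hV0 c hc, map_zero]
  obtain ⟨X, hX, t, ht⟩ := core
  let φ : Fin k → (X → DualMod I) → Fin h → (X → DualMod I) := fun c w i x =>
    (Y c (hom I (w x)) (t c w x)).comp (AddMonoidHom.single (fun _ : Fin h => R ⧸ I) i)
  have hev : ∀ c w i x y, ev I (φ c w i x) y = Y c (hom I (w x)) (t c w x) (Pi.single i y) :=
    fun _ _ _ _ _ => rfl
  have hevsum : ∀ {ι : Type} (s : Finset ι) (f : ι → DualMod I) (x : R ⧸ I),
      ev I (∑ i ∈ s, f i) x = ∑ i ∈ s, ev I (f i) x := by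
    intro ι s f x
    let e : DualMod I →+ QZ := ⟨⟨fun g => ev I g x, rfl⟩, fun a b => rfl⟩
    exact map_sum e f s
  refine ⟨X → DualMod I, inferInstance, inferInstance, inferInstance, φ, fun _ => w₂, ?_, ?_⟩
  · intro c w
    funext x
    rw [Finset.sum_apply]
    apply ext' I
    intro y
    rw [hevsum]
    have h1 : ∀ i, ev I ((F i • φ c w i) x) y =
        Y c (hom I (w x)) (t c w x) (Pi.single i (rmul I (F i) y)) := by
      intro i
      rw [Pi.smul_apply, ev_smul, hev]
    rw [Finset.sum_congr rfl fun i _ => h1 i, ← map_sum, Finset.univ_sum_single]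
    exact hYF c (hom I (w x)) (t c w x) y
  · intro u heq
    obtain ⟨x, hx⟩ := ht u
    apply hx
    have h0 := congrArg (fun g => ev I (g x) (Submodule.Quotient.mk (1 : R))) heq
    rw [sum_specialise G τ κ (fun c i => φ c (u c) i)] at h0
    simp only [Finset.sum_apply] at h0
    rw [hevsum] at h0
    rw [← h0]
    apply Finset.sum_congr rfl
    intro c _
    rw [hevsum]
    have h2 : ∀ i, ev I ((specialise G τ κ c i • φ c (u c) i) x) (Submodule.Quotient.mk (1 : R)) =
        Y c (hom I (u c x)) (t c (u c) x) (Pi.single i (V c i)) := by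
      intro i
      rw [Pi.smul_apply, ev_smul, hev, rmul_mk, one_mul]
    rw [Finset.sum_congr rfl fun i _ => h2 i, ← map_sum, Finset.univ_sum_single]

/-- Avoidability of a pattern is separation by a proper right ideal of finite index. -/
theorem avoidable_iff (hk : 0 < k) (F : Fin h → R) (G : Fin k → R) (τ : Fin k → Fin h)
    (κ : Fin k → Fin k) :
    Avoidable F G τ κ ↔ ∃ I : Submodule Rᵐᵒᵖ R, I ≠ ⊤ ∧ Finite (R ⧸ I) ∧
      Separates I F (specialise G τ κ) := by
  constructor
  · exact exists_separates_of_avoidable F G hk τ κ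
  · rintro ⟨I, hI, hfin, hS⟩
    exact avoidable_of_separates I hI F G τ κ hS

theorem propertyS_iff (hh : 0 < h) (hk : 0 < k) (F : Fin h → R) (G : Fin k → R) :
    PropertyS F G ↔ ∀ (τ : Fin k → Fin h) (κ : Fin k → Fin k), ∃ I : Submodule Rᵐᵒᵖ R,
      I ≠ ⊤ ∧ Finite (R ⧸ I) ∧ Separates I F (specialise G τ κ) := by
  constructor
  · intro H τ κ
    exact separates_of_propertyS hk F G H τ κ
  · intro H
    apply propertyS_of_avoidable hh hk
    intro τ κ
    obtain ⟨I, hI, hfin, hS⟩ := H τ κ
    exact avoidable_of_separates I hI F G τ κ hS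

end Pool.Agent.H84.LFFull
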