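import Pool.Agent.H84.LFFull

/-!
The criterion over the integers.
-/

namespace Pool.Agent.H84.LFFull

open scoped BigOperators
open Pool.Agent.H88.LF

/-- The ideal `N ℤ` as a right ideal. -/
def intIdeal (N : ℕ) : Submodule ℤᵐᵒᵖ ℤ where
  carrier := {x | (N : ℤ) ∣ x}
  zero_mem' := dvd_zero _
  add_mem' := fun ha hb => dvd_add ha hb
  smul_mem' := fun r x hx => by
    change (N : ℤ) ∣ x * r.unop
    exact Dvd.dvd.mul_right hx _

theorem mem_intIdeal {N : ℕ} {x : ℤ} : x ∈ intIdeal N ↔ (N : ℤ) ∣ x := Iff.rfl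

theorem finite_intIdeal {N : ℕ} (hN : 2 ≤ N) : Finite (ℤ ⧸ intIdeal N) := by
  refine Finite.of_surjective (fun i : Fin N => (Submodule.Quotient.mk ((i : ℕ) : ℤ) :
    ℤ ⧸ intIdeal N)) ?_
  intro q
  obtain ⟨x, rfl⟩ := Submodule.Quotient.mk_surjective _ q
  have hN0 : (N : ℤ) ≠ 0 := by positivity
  have h1 := Int.emod_nonneg x hN0
  have h2 := Int.emod_lt_of_pos x (by positivity : (0 : ℤ) < N)
  refine ⟨⟨(x % N).toNat, by omega⟩, ?_⟩
  rw [Submodule.Quotient.eq, mem_intIdeal]
  have h3 : (((x % N).toNat : ℕ) : ℤ) = x % N := Int.toNat_of_nonneg h1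
  change (N : ℤ) ∣ (((x % N).toNat : ℕ) : ℤ) - x
  rw [h3]
  exact ⟨-(x / N), by have := Int.emod_add_mul_ediv x N; linarith⟩

theorem intIdeal_ne_top {N : ℕ} (hN : 2 ≤ N) : intIdeal N ≠ ⊤ := by
  intro htop
  have h1 : (1 : ℤ) ∈ intIdeal N := by rw [htop]; trivial
  rw [mem_intIdeal] at h1
  have := Int.le_of_dvd one_pos h1
  omega

theorem exists_intIdeal (I : Submodule ℤᵐᵒᵖ ℤ) (hI : I ≠ ⊤) (hfin : Finite (ℤ ⧸ I)) :
    ∃ N : ℕ, 2 ≤ N ∧ I = intIdeal N := by
  obtain ⟨g, hg⟩ := Int.subgroup_cyclic I.toAddSubgroup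
  have hmem : ∀ x, x ∈ I ↔ g ∣ x := by
    intro x
    have : x ∈ I ↔ x ∈ I.toAddSubgroup := Iff.rfl
    rw [this, hg, ← AddSubgroup.zmultiples_eq_closure, Int.mem_zmultiples_iff]
  have hIe : I = intIdeal g.natAbs := by
    ext x
    rw [hmem, mem_intIdeal, Int.natCast_natAbs, abs_dvd]
  refine ⟨g.natAbs, ?_, hIe⟩
  by_contra hlt
  have : g.natAbs = 0 ∨ g.natAbs = 1 := by omega
  rcases this with h0 | h1
  · -- infinite quotient
    have hinj : Function.Injective (fun x : ℤ => (Submodule.Quotient.mk x : ℤ ⧸ I)) := by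
      intro x y hxy
      have h2 := (Submodule.Quotient.eq I).1 hxy
      rw [hmem] at h2
      have hg0 : g = 0 := Int.natAbs_eq_zero.1 h0
      rw [hg0, zero_dvd_iff] at h2
      linarith
    exact Infinite.not_finite (α := ℤ) (Finite.of_injective _ hinj)
  · apply hI
    rw [hIe, h1]
    ext x
    simp [mem_intIdeal]

/-- `N` divides `x` as soon as it divides all `x F_i`, iff the content of `F` is coprime to `N`. -/
theorem coprime_content_iff {h : ℕ} {N : ℕ} (hN : 0 < N) (F : Fin h → ℤ) :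
    (∀ x : ℤ, (∀ i, (N : ℤ) ∣ x * F i) → (N : ℤ) ∣ x) ↔
      IsCoprime (Finset.univ.gcd F) (N : ℤ) := by
  constructor
  · intro H
    rw [Int.isCoprime_iff_gcd_eq_one]
    obtain ⟨m, hm⟩ : (Int.gcd (Finset.univ.gcd F) (N : ℤ) : ℤ) ∣ N := Int.gcd_dvd_right ..
    have hmI := H m (fun i => by
      have h1 : (N : ℤ) ∣ m * (Int.gcd (Finset.univ.gcd F) (N : ℤ) : ℤ) := by
        rw [mul_comm m, ← hm]
      exact h1.trans (mul_dvd_mul_left _
        ((Int.gcd_dvd_left ..).trans (Finset.gcd_dvd (Finset.mem_univ i)))))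
    obtain ⟨q, hq⟩ := hmI
    have hN0 : (N : ℤ) ≠ 0 := by positivity
    have h2 : (N : ℤ) * ((Int.gcd (Finset.univ.gcd F) (N : ℤ) : ℤ) * q) = N * 1 := by
      calc (N : ℤ) * ((Int.gcd (Finset.univ.gcd F) (N : ℤ) : ℤ) * q)
          = (Int.gcd (Finset.univ.gcd F) (N : ℤ) : ℤ) * (N * q) := by ring
        _ = (Int.gcd (Finset.univ.gcd F) (N : ℤ) : ℤ) * m := by rw [← hq]
        _ = N * 1 := by rw [mul_one]; exact hm.symm
    have h3 := mul_left_cancel₀ hN0 h2
    have h4 : (Int.gcd (Finset.univ.gcd F) (N : ℤ) : ℤ) ∣ 1 := ⟨q, h3.symm⟩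
    have h5 : Int.gcd (Finset.univ.gcd F) (N : ℤ) ∣ 1 := by exact_mod_cast h4
    exact Nat.dvd_one.1 h5
  · intro hc x hx
    obtain ⟨g, hg⟩ := Finset.gcd_eq_sum_mul Finset.univ F
    have h1 : (N : ℤ) ∣ x * Finset.univ.gcd F := by
      rw [hg, Finset.mul_sum]
      apply Finset.dvd_sum
      intro i _
      rw [← mul_assoc]
      exact Dvd.dvd.mul_right (hx i) _
    exact hc.symm.dvd_of_dvd_mul_right h1

theorem separates_int {h k : ℕ} {N : ℕ} (hN : 0 < N) (F : Fin h → ℤ) (V : Fin k → Fin h → ℤ) :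
    Separates (intIdeal N) F V ↔ IsCoprime (Finset.univ.gcd F) (N : ℤ) ∧
      ∀ c, (∀ i, (N : ℤ) ∣ V c i) ∨ ∃ i j, ¬ (N : ℤ) ∣ F i * V c j - F j * V c i := by
  have hcop := coprime_content_iff hN F
  constructor
  · rintro ⟨h1, h2⟩
    have hc := hcop.1 h1
    refine ⟨hc, fun c => ?_⟩
    by_contra hcon
    push Not at hcon
    obtain ⟨⟨i₀, hi₀⟩, hmin⟩ := hcon
    apply hi₀
    obtain ⟨g, hg⟩ := Finset.gcd_eq_sum_mul Finset.univ F
    obtain ⟨b, e, hbe⟩ := hc
    have key : ∀ j, (N : ℤ) ∣ V c j - (b * ∑ i, V c i * g i) * F j := by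
      intro j
      have h3 : V c j - (b * ∑ i, V c i * g i) * F j =
          (N : ℤ) * (e * V c j) + b * ∑ i, (F i * V c j - F j * V c i) * g i := by
        have h4 : ∑ i, (F i * V c j - F j * V c i) * g i =
            Finset.univ.gcd F * V c j - (∑ i, V c i * g i) * F j := by
          rw [hg, Finset.sum_mul, Finset.sum_mul, ← Finset.sum_sub_distrib]
          apply Finset.sum_congr rfl
          intro i _
          ring
        rw [h4]
        have h5 : V c j = (b * Finset.univ.gcd F + e * N) * V c j := by rw [hbe, one_mul]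
        linear_combination h5
      rw [h3]
      apply dvd_add (dvd_mul_right _ _)
      apply Dvd.dvd.mul_left
      exact Finset.dvd_sum fun i _ => Dvd.dvd.mul_right (hmin i j) _
    have hx : (N : ℤ) ∣ b * ∑ i, V c i * g i := h2 c _ key
    have h6 := dvd_add (key i₀) (Dvd.dvd.mul_right hx (F i₀))
    rwa [sub_add_cancel] at h6
  · rintro ⟨hc, hV⟩
    have h1 := hcop.2 hc
    refine ⟨h1, fun c x hx => ?_⟩
    have hx' : ∀ i, (N : ℤ) ∣ V c i - x * F i := hx
    rcases hV c with h0 | ⟨i, j, hij⟩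
    · apply h1
      intro i
      have h2 := dvd_sub (h0 i) (hx' i)
      rwa [sub_sub_cancel] at h2
    · exfalso
      apply hij
      have h3 : F i * V c j - F j * V c i =
          F i * (V c j - x * F j) - F j * (V c i - x * F i) := by ring
      rw [h3]
      exact dvd_sub (Dvd.dvd.mul_left (hx' j) _) (Dvd.dvd.mul_left (hx' i) _)

/-- The classification over the integers. -/
theorem propertyS_int_iff {h k : ℕ} (hh : 0 < h) (hk : 0 < k) (F : Fin h → ℤ) (G : Fin k → ℤ) :
    PropertyS F G ↔ ∀ (τ : Fin k → Fin h) (κ : Fin k → Fin k), ∃ N : ℕ, 2 ≤ N ∧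
      IsCoprime (Finset.univ.gcd F) (N : ℤ) ∧
      ∀ c, (∀ i, (N : ℤ) ∣ specialise G τ κ c i) ∨
        ∃ i j, ¬ (N : ℤ) ∣ F i * specialise G τ κ c j - F j * specialise G τ κ c i := by
  rw [propertyS_iff hh hk F G]
  constructor
  · intro H τ κ
    obtain ⟨I, hI, hfin, hS⟩ := H τ κ
    obtain ⟨N, hN, rfl⟩ := exists_intIdeal I hI hfin
    exact ⟨N, hN, (separates_int (by omega) F _).1 hS⟩
  · intro H τ κ
    obtain ⟨N, hN, hS⟩ := H τ κ
    exact ⟨intIdeal N, intIdeal_ne_top hN, finite_intIdeal hN,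
      (separates_int (by omega) F _).2 hS⟩

/-- Over the integers only the patterns in which some `G_c` is a nonzero rational multiple of `F`
matter. -/
theorem propertyS_int_iff' {h k : ℕ} (hh : 0 < h) (hk : 0 < k) (F : Fin h → ℤ) (hF : F ≠ 0)
    (G : Fin k → ℤ) :
    PropertyS F G ↔ ∀ (τ : Fin k → Fin h) (κ : Fin k → Fin k),
      (∃ c, specialise G τ κ c ≠ 0 ∧
        ∀ i j, F i * specialise G τ κ c j = F j * specialise G τ κ c i) →
      ∃ N : ℕ, 2 ≤ N ∧ IsCoprime (Finset.univ.gcd F) (N : ℤ) ∧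
        ∀ c, (∀ i, (N : ℤ) ∣ specialise G τ κ c i) ∨
          ∃ i j, ¬ (N : ℤ) ∣ F i * specialise G τ κ c j - F j * specialise G τ κ c i := by
  rw [propertyS_int_iff hh hk F G]
  constructor
  · intro H τ κ _
    exact H τ κ
  · intro H τ κ
    by_cases hc : ∃ c, specialise G τ κ c ≠ 0 ∧
        ∀ i j, F i * specialise G τ κ c j = F j * specialise G τ κ c i
    · exact H τ κ hc
    · push Not at hc
      -- a large prime
      obtain ⟨p, hpge, hp⟩ := Nat.exists_infinite_primes ((Finset.univ.gcd F).natAbs +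
        (∑ c, ∑ i, ∑ j, (F i * specialise G τ κ c j - F j * specialise G τ κ c i).natAbs) + 1)
      have hpp : Prime (p : ℤ) := Nat.prime_iff_prime_int.1 hp
      have hd0 : Finset.univ.gcd F ≠ 0 := by
        intro h0
        apply hF
        funext i
        exact Finset.gcd_eq_zero_iff.1 h0 i (Finset.mem_univ i)
      have hsmall : ∀ x : ℤ, x ≠ 0 → x.natAbs < p → ¬ (p : ℤ) ∣ x := by
        intro x hx hlt hdvd
        have h1 : p ∣ x.natAbs := Int.natCast_dvd.1 hdvd
        exact absurd (Nat.le_of_dvd (Int.natAbs_pos.2 hx) h1) (by omega)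
      refine ⟨p, hp.two_le, ?_, ?_⟩
      · apply IsCoprime.symm
        rw [hpp.coprime_iff_not_dvd]
        exact hsmall _ hd0 (by omega)
      · intro c
        by_cases h0 : specialise G τ κ c = 0
        · left
          intro i
          rw [h0]
          exact dvd_zero _
        · right
          obtain ⟨i, j, hij⟩ := hc c h0
          refine ⟨i, j, hsmall _ (sub_ne_zero.2 hij) ?_⟩
          have h1 : (F i * specialise G τ κ c j - F j * specialise G τ κ c i).natAbs ≤
              ∑ j, (F i * specialise G τ κ c j - F j * specialise G τ κ c i).natAbs :=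
            Finset.single_le_sum
              (f := fun j => (F i * specialise G τ κ c j - F j * specialise G τ κ c i).natAbs)
              (fun _ _ => Nat.zero_le _) (Finset.mem_univ j)
          have h2 := Finset.single_le_sum
            (f := fun i => ∑ j, (F i * specialise G τ κ c j -
              F j * specialise G τ κ c i).natAbs)
            (fun _ _ => Nat.zero_le _) (Finset.mem_univ i)
          have h3 := Finset.single_le_sum
            (f := fun c => ∑ i, ∑ j, (F i * specialise G τ κ c j -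
              F j * specialise G τ κ c i).natAbs)
            (fun _ _ => Nat.zero_le _) (Finset.mem_univ c)
          have h4 : (F i * specialise G τ κ c j - F j * specialise G τ κ c i).natAbs ≤
              ∑ c, ∑ i, ∑ j, (F i * specialise G τ κ c j - F j * specialise G τ κ c i).natAbs :=
            h1.trans (h2.trans h3)
          omega

end Pool.Agent.H84.LFFull
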