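import Mathlib.Algebra.Lie.Basic
import Mathlib.Data.Fintype.Prod
import Mathlib.Tactic

/-!
# Stack machines and their simulation in Lie rings
-/

namespace Pool.Agent.H84.LieQ

variable {K X St : Type}

/-- A machine with stacks indexed by `K`, stack symbols `X` and states `St`. In a state `s` with
`δ s = some (k, f)` the top symbol `x` of stack `k` is replaced by the word `(f x).2` and the new
state is `(f x).1`. -/
abbrev Mach (K X St : Type) := St → Option (K × (X → St × List X))

/-- Configurations: stack contents (top of the stack first) and the state. -/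
abbrev Conf (K X St : Type) := (K → List X) × St

section
variable [DecidableEq K]

/-- One step of the machine. -/
def mstep (δ : Mach K X St) (c : Conf K X St) : Option (Conf K X St) :=
  match δ c.2 with
  | none => none
  | some (k, f) =>
    match c.1 k with
    | [] => none
    | x :: rest => some (Function.update c.1 k ((f x).2 ++ rest), (f x).1)

/-- `n` steps of the machine. -/
def mrun (δ : Mach K X St) : ℕ → Conf K X St → Option (Conf K X St)
  | 0, c => some c
  | n + 1, c => (mstep δ c).bind (mrun δ n)

theorem mrun_zero (δ : Mach K X St) (c : Conf K X St) : mrun δ 0 c = some c := rfl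

theorem mrun_succ (δ : Mach K X St) (n : ℕ) (c : Conf K X St) :
    mrun δ (n + 1) c = (mstep δ c).bind (mrun δ n) := rfl

theorem mrun_add (δ : Mach K X St) (m n : ℕ) (c : Conf K X St) :
    mrun δ (m + n) c = (mrun δ m c).bind (mrun δ n) := by
  induction m generalizing c with
  | zero => simp [mrun_zero]
  | succ m ih =>
    rw [show m + 1 + n = (m + n) + 1 by ring, mrun_succ, mrun_succ]
    cases h : mstep δ c with
    | none => simp
    | some c' => simp [ih]

theorem mstep_eq_some {δ : Mach K X St} {c c' : Conf K X St} (h : mstep δ c = some c') :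
    ∃ k f x rest, δ c.2 = some (k, f) ∧ c.1 k = x :: rest ∧
      c' = (Function.update c.1 k ((f x).2 ++ rest), (f x).1) := by
  unfold mstep at h
  split at h
  · simp at h
  · rename_i k f hδ
    split at h
    · simp at h
    · rename_i x rest hk
      exact ⟨k, f, x, rest, hδ, hk, by simpa using h.symm⟩

theorem mstep_of {δ : Mach K X St} {w : K → List X} {s : St} {k : K} {f : X → St × List X}
    {x : X} {rest : List X} (hδ : δ s = some (k, f)) (hk : w k = x :: rest) :
    mstep δ (w, s) = some (Function.update w k ((f x).2 ++ rest), (f x).1) := by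
  unfold mstep
  simp only [hδ, hk]

theorem mstep_length {δ : Mach K X St} {c c' : Conf K X St} (h : mstep δ c = some c') (k : K) :
    (c.1 k).length ≤ (c'.1 k).length + 1 := by
  obtain ⟨k', f, x, rest, -, hk, rfl⟩ := mstep_eq_some h
  by_cases hkk : k = k'
  · subst hkk
    simp [hk]
  · simp [Function.update_of_ne hkk]

theorem mrun_length {δ : Mach K X St} {n : ℕ} {c c' : Conf K X St} (h : mrun δ n c = some c')
    (k : K) : (c.1 k).length ≤ (c'.1 k).length + n := by
  induction n generalizing c with
  | zero =>
    simp only [mrun_zero, Option.some.injEq] at h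
    subst h; simp
  | succ n ih =>
    rw [mrun_succ] at h
    cases hs : mstep δ c with
    | none => simp [hs] at h
    | some d =>
      simp only [hs, Option.bind_some] at h
      have h1 := ih h
      have h2 := mstep_length hs k
      omega

end

/-! ### Simulation in a Lie ring -/

section
variable {L : Type} [LieRing L]

/-- Apply the operators of a word (first letter first). -/
def appl (P : X → L) (l : List X) (v : L) : L := l.foldl (fun v x => ⁅P x, v⁆) v

@[simp] theorem appl_nil (P : X → L) (v : L) : appl P [] v = v := rfl

@[simp] theorem appl_cons (P : X → L) (x : X) (l : List X) (v : L) :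
    appl P (x :: l) v = appl P l ⁅P x, v⁆ := rfl

theorem appl_append (P : X → L) (l l' : List X) (v : L) :
    appl P (l ++ l') v = appl P l' (appl P l v) := by
  simp [appl, List.foldl_append]

theorem appl_zero (P : X → L) (l : List X) : appl P l (0 : L) = 0 := by
  induction l with
  | nil => rfl
  | cons x l ih => simp [ih]

theorem lie_comm_of_lie_eq_zero {a b : L} (h : ⁅a, b⁆ = 0) (v : L) :
    ⁅a, ⁅b, v⁆⁆ = ⁅b, ⁅a, v⁆⁆ := by
  rw [leibniz_lie, h, zero_lie, zero_add]

theorem lie_appl_comm {P : X → L} {a : L} (h : ∀ x, ⁅a, P x⁆ = 0) (l : List X) (v : L) :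
    ⁅a, appl P l v⁆ = appl P l ⁅a, v⁆ := by
  induction l generalizing v with
  | nil => rfl
  | cons x l ih => rw [appl_cons, appl_cons, ih, lie_comm_of_lie_eq_zero (h x)]

theorem appl_appl_comm {P Q : X → L} (h : ∀ x y, ⁅P x, Q y⁆ = 0) (l l' : List X) (v : L) :
    appl P l (appl Q l' v) = appl Q l' (appl P l v) := by
  induction l generalizing v with
  | nil => rfl
  | cons x l ih => rw [appl_cons, appl_cons, lie_appl_comm (h x), ih]

/-- Apply the operators of all stacks in `ks`. -/
def applAll (P : K → X → L) (ks : List K) (w : K → List X) (v : L) : L :=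
  ks.foldr (fun k v => appl (P k) (w k) v) v

@[simp] theorem applAll_nil (P : K → X → L) (w : K → List X) (v : L) : applAll P [] w v = v := rfl

@[simp] theorem applAll_cons (P : K → X → L) (k : K) (ks : List K) (w : K → List X) (v : L) :
    applAll P (k :: ks) w v = appl (P k) (w k) (applAll P ks w v) := rfl

theorem applAll_zero (P : K → X → L) (ks : List K) (w : K → List X) :
    applAll P ks w (0 : L) = 0 := by
  induction ks with
  | nil => rfl
  | cons k ks ih => rw [applAll_cons, ih, appl_zero]

theorem applAll_comm {P : K → X → L} {a : L} (h : ∀ k x, ⁅a, P k x⁆ = 0) (ks : List K)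
    (w : K → List X) (v : L) : ⁅a, applAll P ks w v⁆ = applAll P ks w ⁅a, v⁆ := by
  induction ks generalizing v with
  | nil => rfl
  | cons k ks ih => rw [applAll_cons, applAll_cons, lie_appl_comm (h k), ih]

variable [DecidableEq K]

theorem appl_applAll_comm {P : K → X → L} (hP : ∀ k k', k ≠ k' → ∀ x y, ⁅P k x, P k' y⁆ = 0)
    {k : K} (ks : List K) (hk : k ∉ ks) (l : List X) (w : K → List X) (v : L) :
    appl (P k) l (applAll P ks w v) = applAll P ks w (appl (P k) l v) := by
  induction ks generalizing v with
  | nil => rfl
  | cons k' ks ih =>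
    simp only [List.mem_cons, not_or] at hk
    rw [applAll_cons, applAll_cons, appl_appl_comm (hP k k' hk.1), ih hk.2]

theorem applAll_update_notMem (P : K → X → L) {k : K} (ks : List K) (hk : k ∉ ks)
    (w : K → List X) (l : List X) (v : L) :
    applAll P ks (Function.update w k l) v = applAll P ks w v := by
  induction ks with
  | nil => rfl
  | cons k' ks ih =>
    simp only [List.mem_cons, not_or] at hk
    rw [applAll_cons, applAll_cons, ih hk.2, Function.update_of_ne (Ne.symm hk.1)]

theorem applAll_update_append {P : K → X → L} (hP : ∀ k k', k ≠ k' → ∀ x y, ⁅P k x, P k' y⁆ = 0)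
    {k : K} (ks : List K) (hnd : ks.Nodup) (hk : k ∈ ks) (w : K → List X) (l l' : List X) (v : L) :
    applAll P ks (Function.update w k (l ++ l')) v =
      applAll P ks (Function.update w k l') (appl (P k) l v) := by
  induction ks with
  | nil => simp at hk
  | cons k' ks ih =>
    rw [List.nodup_cons] at hnd
    rw [applAll_cons, applAll_cons]
    by_cases h : k = k'
    · subst h
      rw [Function.update_self, Function.update_self, applAll_update_notMem P ks hnd.1,
        applAll_update_notMem P ks hnd.1, appl_append, appl_applAll_comm hP ks hnd.1]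
    · have hk' : k ∈ ks := by
        rcases List.mem_cons.1 hk with h' | h'
        · exact absurd h' h
        · exact h'
      rw [Function.update_of_ne (Ne.symm h), Function.update_of_ne (Ne.symm h), ih hnd.2 hk']

/-- The element of the Lie ring which represents a configuration. -/
def cval (P : K → X → L) (q : St → L) (ks : List K) (c : Conf K X St) : L :=
  applAll P ks c.1 (q c.2)

/-- The relations used in the simulation. -/
structure Sim (δ : Mach K X St) (P : K → X → L) (T : L) (q : St → L) : Prop where
  comm : ∀ k k', k ≠ k' → ∀ x y, ⁅P k x, P k' y⁆ = 0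
  clock : ∀ k x, ⁅T, P k x⁆ = 0
  rule : ∀ s k f, δ s = some (k, f) → ∀ x,
    ⁅P k x, q s⁆ = ⁅T, appl (P k) (f x).2 (q (f x).1)⁆

theorem Sim.step {δ : Mach K X St} {P : K → X → L} {T : L} {q : St → L} (h : Sim δ P T q)
    {ks : List K} (hnd : ks.Nodup) (hks : ∀ k, k ∈ ks) {c c' : Conf K X St}
    (hc : mstep δ c = some c') : cval P q ks c = ⁅T, cval P q ks c'⁆ := by
  obtain ⟨w, s⟩ := c
  obtain ⟨k, f, x, rest, hδ, hk, rfl⟩ := mstep_eq_some hc
  simp only at hδ hk
  have e1 : w = Function.update w k ([x] ++ rest) := by
    rw [List.singleton_append, ← hk, Function.update_eq_self]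
  unfold cval
  simp only
  rw [applAll_comm h.clock, applAll_update_append h.comm ks hnd (hks k)]
  conv_lhs => rw [e1]
  rw [applAll_update_append h.comm ks hnd (hks k), appl_cons, appl_nil, h.rule s k f hδ x,
    lie_appl_comm (h.clock k)]

theorem Sim.run {δ : Mach K X St} {P : K → X → L} {T : L} {q : St → L} (h : Sim δ P T q)
    {ks : List K} (hnd : ks.Nodup) (hks : ∀ k, k ∈ ks) {n : ℕ} {c c' : Conf K X St}
    (hc : mrun δ n c = some c') (h0 : cval P q ks c' = 0) : cval P q ks c = 0 := by
  induction n generalizing c with
  | zero =>
    simp only [mrun_zero, Option.some.injEq] at hc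
    subst hc; exact h0
  | succ n ih =>
    rw [mrun_succ] at hc
    cases hs : mstep δ c with
    | none => simp [hs] at hc
    | some d =>
      simp only [hs, Option.bind_some] at hc
      rw [h.step hnd hks hs, ih hc, lie_zero]

end

end Pool.Agent.H84.LieQ
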