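import Mathlib.Algebra.Lie.Engel
import Mathlib.Data.Set.Finite.List
import Mathlib.Algebra.Field.ZMod
import Mathlib.Tactic
import Pool.Agent.H84.LieMachine

/-!
# Finite nilpotent Lie rings realising a terminating computation
-/

namespace Pool.Agent.H84.LieQ

attribute [local instance 100] LieRing.ofAssociativeRing

/-! ### Strictly triangular endomorphisms -/

section Strict

variable (R : Type) [CommRing R] {J : Type} (r : J → ℕ)

/-- Endomorphisms `A` of `J → R` such that `(A f) i` only depends on the values `f j` with
`r i < r j`. -/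
def strictSub : LieSubalgebra R (Module.End R (J → R)) where
  carrier := {A | ∀ (i : J) (f : J → R), (∀ j, r i < r j → f j = 0) → A f i = 0}
  zero_mem' := by intro i f _; rfl
  add_mem' := by
    intro A B hA hB i f hf
    simp only [LinearMap.add_apply, Pi.add_apply, hA i f hf, hB i f hf, add_zero]
  smul_mem' := by
    intro c A hA i f hf
    simp only [LinearMap.smul_apply, Pi.smul_apply, hA i f hf, smul_zero]
  lie_mem' := by
    intro A B hA hB i f hf
    simp only [Ring.lie_def, LinearMap.sub_apply, Module.End.mul_apply, Pi.sub_apply]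
    rw [hA i (B f), hB i (A f), sub_zero]
    · intro j hj
      exact hA j f (fun j' hj' => hf j' (lt_trans hj hj'))
    · intro j hj
      exact hB j f (fun j' hj' => hf j' (lt_trans hj hj'))

theorem strictSub_pow (A : Module.End R (J → R)) (hA : A ∈ strictSub R r) (n : ℕ) (i : J)
    (f : J → R) (hf : ∀ j, r i + n ≤ r j → f j = 0) : (A ^ n) f i = 0 := by
  induction n generalizing i with
  | zero =>
    simp only [pow_zero, Module.End.one_apply]
    exact hf i (by simp)
  | succ n ih =>
    rw [pow_succ', Module.End.mul_apply]
    refine hA i _ (fun j hj => ih j (fun j' hj' => hf j' ?_))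
    omega

theorem strictSub_isNilpotent (B : ℕ) (hB : ∀ j, r j ≤ B) (A : Module.End R (J → R))
    (hA : A ∈ strictSub R r) : IsNilpotent A := by
  refine ⟨B + 1, ?_⟩
  ext1 f
  funext i
  rw [strictSub_pow R r A hA (B + 1) i f]
  · rfl
  · intro j hj
    have := hB j
    omega

instance strictSub_finite [Finite R] [Finite J] : Finite (strictSub R r) := by
  have : Finite (Module.End R (J → R)) := Finite.of_injective
    (fun A : Module.End R (J → R) => (A : (J → R) → (J → R))) DFunLike.coe_injective
  exact Subtype.finite

theorem strictSub_nilpotent [Finite R] [Finite J] (B : ℕ) (hB : ∀ j, r j ≤ B) :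
    LieRing.IsNilpotent (strictSub R r) := by
  rw [LieAlgebra.isNilpotent_iff_forall (R := R)]
  intro x
  exact LieAlgebra.isNilpotent_ad_of_isNilpotent (strictSub_isNilpotent R r B hB x.1 x.2)

end Strict

/-! ### The model -/

section Model

variable (R : Type) [CommRing R] {M : Type} (I : M → Prop) (r : M → ℕ) (B : ℕ)

/-- The index set: the elements of `I` and one further point. -/
abbrev Idx (I : M → Prop) : Type := Option {m : M // I m}

/-- The rank of an index. -/
def rk : Idx I → ℕ
  | none => B + 1
  | some m => min (r m.1) B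

open Classical in
/-- The shift operator of a map `σ`. -/
noncomputable def shiftOp (σ : M → M) : Module.End R (Idx I → R) where
  toFun f := fun i => match i with
    | none => 0
    | some m => if h : I (σ m.1) then f (some ⟨σ m.1, h⟩) else 0
  map_add' f g := by
    funext i
    cases i with
    | none => simp
    | some m => by_cases h : I (σ m.1) <;> simp [h]
  map_smul' c f := by
    funext i
    cases i with
    | none => simp
    | some m => by_cases h : I (σ m.1) <;> simp [h]

/-- The operator of a vector. -/
def vecOp (g : M → R) : Module.End R (Idx I → R) where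
  toFun f := fun i => match i with
    | none => 0
    | some m => g m.1 * f none
  map_add' f g' := by
    funext i
    cases i with
    | none => simp
    | some m => simp [mul_add]
  map_smul' c f := by
    funext i
    cases i with
    | none => simp
    | some m => simp [mul_left_comm]

theorem shiftOp_none (σ : M → M) (f : Idx I → R) : shiftOp R I σ f none = 0 := rfl

theorem shiftOp_some_pos (σ : M → M) (f : Idx I → R) (m : {m : M // I m}) (h : I (σ m.1)) :
    shiftOp R I σ f (some m) = f (some ⟨σ m.1, h⟩) := by
  simp [shiftOp, h]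

theorem shiftOp_some_neg (σ : M → M) (f : Idx I → R) (m : {m : M // I m}) (h : ¬ I (σ m.1)) :
    shiftOp R I σ f (some m) = 0 := by
  simp [shiftOp, h]

theorem vecOp_none (g : M → R) (f : Idx I → R) : vecOp R I g f none = 0 := rfl

theorem vecOp_some (g : M → R) (f : Idx I → R) (m : {m : M // I m}) :
    vecOp R I g f (some m) = g m.1 * f none := rfl

variable {I r B}

theorem shiftOp_mem {σ : M → M} (hr : ∀ m, r (σ m) = r m + 1) (hIr : ∀ m, I m → r m ≤ B) :
    shiftOp R I σ ∈ strictSub R (rk I r B) := by
  intro i f hf
  cases i with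
  | none => rfl
  | some m =>
    by_cases h : I (σ m.1)
    · rw [shiftOp_some_pos R I σ f m h]
      apply hf
      have h1 := hIr _ h
      have h2 := hr m.1
      simp only [rk]
      omega
    · exact shiftOp_some_neg R I σ f m h

theorem vecOp_mem (g : M → R) : vecOp R I g ∈ strictSub R (rk I r B) := by
  intro i f hf
  cases i with
  | none => rfl
  | some m =>
    rw [vecOp_some, hf none, mul_zero]
    simp only [rk]
    omega

theorem lie_shiftOp_shiftOp {σ τ : M → M} (hσ : ∀ m, I (σ m) → I m) (hτ : ∀ m, I (τ m) → I m)
    (hc : ∀ m, σ (τ m) = τ (σ m)) : ⁅shiftOp R I σ, shiftOp R I τ⁆ = 0 := by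
  rw [Ring.lie_def, sub_eq_zero]
  ext1 f
  funext i
  rw [Module.End.mul_apply, Module.End.mul_apply]
  cases i with
  | none => rfl
  | some m =>
    by_cases h : I (σ (τ m.1))
    · have h1 : I (τ m.1) := hσ _ h
      have h2 : I (σ m.1) := hτ _ (by rw [← hc]; exact h)
      rw [shiftOp_some_pos R I σ _ m h2, shiftOp_some_pos R I τ _ m h1,
        shiftOp_some_pos R I τ f ⟨σ m.1, h2⟩ (by rw [← hc]; exact h),
        shiftOp_some_pos R I σ f ⟨τ m.1, h1⟩ h]
      congr 2
      exact Subtype.ext (hc m.1).symm
    · have e1 : shiftOp R I σ (shiftOp R I τ f) (some m) = 0 := by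
        by_cases h2 : I (σ m.1)
        · rw [shiftOp_some_pos R I σ _ m h2, shiftOp_some_neg R I τ f ⟨σ m.1, h2⟩
            (by rw [← hc]; exact h)]
        · exact shiftOp_some_neg R I σ _ m h2
      have e2 : shiftOp R I τ (shiftOp R I σ f) (some m) = 0 := by
        by_cases h2 : I (τ m.1)
        · rw [shiftOp_some_pos R I τ _ m h2, shiftOp_some_neg R I σ f ⟨τ m.1, h2⟩ h]
        · exact shiftOp_some_neg R I τ _ m h2
      rw [e1, e2]

theorem lie_shiftOp_vecOp {σ : M → M} {g : M → R} (hg : ∀ m, ¬ I m → g m = 0) :
    ⁅shiftOp R I σ, vecOp R I g⁆ = vecOp R I (fun m => g (σ m)) := by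
  rw [Ring.lie_def]
  ext1 f
  funext i
  rw [LinearMap.sub_apply, Pi.sub_apply, Module.End.mul_apply, Module.End.mul_apply]
  cases i with
  | none => simp [shiftOp_none, vecOp_none]
  | some m =>
    rw [vecOp_some, vecOp_some, shiftOp_none, mul_zero, sub_zero]
    by_cases h : I (σ m.1)
    · rw [shiftOp_some_pos R I σ _ m h, vecOp_some]
    · rw [shiftOp_some_neg R I σ _ m h, hg _ h, zero_mul]

end Model

/-! ### The index set of truncated configurations -/

section Trunc

variable {K X St : Type} [DecidableEq K] [Fintype K] [Finite X]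

/-- Stack contents together with the value of the clock. -/
abbrev MM (K X : Type) : Type := (K → List X) × ℕ

/-- All stacks have length at most `N` and the clock shows at most `N`. -/
def inI (N : ℕ) (m : MM K X) : Prop := (∀ k, (m.1 k).length ≤ N) ∧ m.2 ≤ N

/-- Total size. -/
def sz (m : MM K X) : ℕ := (∑ k, (m.1 k).length) + m.2

/-- Push `x` on stack `k`. -/
def shP (k : K) (x : X) (m : MM K X) : MM K X := (Function.update m.1 k (x :: m.1 k), m.2)

/-- Increase the clock. -/
def shT (m : MM K X) : MM K X := (m.1, m.2 + 1)

omit [DecidableEq K] in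
theorem finite_inI (N : ℕ) : Finite {m : MM K X // inI N m} := by
  have h1 : {l : List X | l.length ≤ N}.Finite := List.finite_length_le X N
  have h2 : (Set.pi Set.univ (fun _ : K => {l : List X | l.length ≤ N})).Finite :=
    Set.Finite.pi' (fun _ => h1) |>.subset (by intro w hw k; exact hw k trivial)
  have h3 : (Set.Iic N).Finite := Set.finite_Iic N
  have h4 := h2.prod h3
  refine Set.Finite.subset h4 (s := _) (t := {m : MM K X | inI N m}) ?_
  intro m hm
  refine ⟨fun k _ => hm.1 k, hm.2⟩

theorem sz_shP (k : K) (x : X) (m : MM K X) : sz (shP k x m) = sz m + 1 := by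
  unfold sz shP
  have : ∀ k', (Function.update m.1 k (x :: m.1 k) k').length
      = (m.1 k').length + if k' = k then 1 else 0 := by
    intro k'
    by_cases h : k' = k
    · subst h; simp
    · simp [Function.update_of_ne h, h]
  simp only [this, Finset.sum_add_distrib, Finset.sum_ite_eq', Finset.mem_univ, if_true]
  ring

omit [DecidableEq K] in
theorem sz_shT (m : MM K X) : sz (shT m) = sz m + 1 := by
  unfold sz shT; ring

omit [DecidableEq K] in
theorem sz_le (N : ℕ) (m : MM K X) (h : inI N m) : sz m ≤ Fintype.card K * N + N := by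
  unfold sz
  have : ∑ k, (m.1 k).length ≤ ∑ _k : K, N := Finset.sum_le_sum (fun k _ => h.1 k)
  simp only [Finset.sum_const, Finset.card_univ, smul_eq_mul] at this
  have := h.2
  omega

omit [Fintype K] [Finite X] in
theorem inI_shP (N : ℕ) (k : K) (x : X) (m : MM K X) (h : inI N (shP k x m)) : inI N m := by
  refine ⟨fun k' => ?_, h.2⟩
  have := h.1 k'
  by_cases hk : k' = k
  · subst hk
    simp only [shP, Function.update_self, List.length_cons] at this
    omega
  · simpa only [shP, Function.update_of_ne hk] using this

omit [DecidableEq K] [Fintype K] [Finite X] in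
theorem inI_shT (N : ℕ) (m : MM K X) (h : inI N (shT m)) : inI N m := by
  refine ⟨h.1, ?_⟩
  have := h.2
  simp only [shT] at this
  omega

omit [Fintype K] [Finite X] in
theorem shP_comm {k k' : K} (h : k ≠ k') (x y : X) (m : MM K X) :
    shP k x (shP k' y m) = shP k' y (shP k x m) := by
  unfold shP
  simp only [Function.update_of_ne h, Function.update_of_ne h.symm, Function.update_comm h]

variable (R : Type) [CommRing R] (N : ℕ)

omit [Fintype K] [Finite X] in
theorem appl_vecOp (k : K) (l : List X) (g : MM K X → R) (hg : ∀ m, ¬ inI N m → g m = 0) :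
    appl (fun x => shiftOp R (inI N) (shP k x)) l (vecOp R (inI N) g) =
      vecOp R (inI N) (fun m => g (Function.update m.1 k (l ++ m.1 k), m.2)) := by
  induction l generalizing g with
  | nil => simp
  | cons x l ih =>
    rw [appl_cons, lie_shiftOp_vecOp R hg, ih]
    · congr 1
      funext m
      simp [shP]
    · intro m hm
      exact hg _ (fun h => hm (inI_shP N k x m h))

omit [Fintype K] [Finite X] in
theorem applAll_vecOp (ks : List K) (hnd : ks.Nodup) (w : K → List X) (g : MM K X → R)
    (hg : ∀ m, ¬ inI N m → g m = 0) :
    applAll (fun k x => shiftOp R (inI N) (shP k x)) ks w (vecOp R (inI N) g) =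
      vecOp R (inI N) (fun m => g (fun k => if k ∈ ks then w k ++ m.1 k else m.1 k, m.2)) ∧
    (∀ m, ¬ inI N m → g (fun k => if k ∈ ks then w k ++ m.1 k else m.1 k, m.2) = 0) := by
  induction ks with
  | nil =>
    refine ⟨by simp, ?_⟩
    simpa using hg
  | cons k ks ih =>
    rw [List.nodup_cons] at hnd
    obtain ⟨ih1, ih2⟩ := ih hnd.2
    have e : ∀ m : MM K X, (fun k' => if k' ∈ ks then w k' ++ (Function.update m.1 k (w k ++ m.1 k)) k'
        else (Function.update m.1 k (w k ++ m.1 k)) k') =
        (fun k' => if k' ∈ k :: ks then w k' ++ m.1 k' else m.1 k') := by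
      intro m
      funext k'
      by_cases h : k' = k
      · subst h
        simp [hnd.1]
      · simp [Function.update_of_ne h, h]
    constructor
    · rw [applAll_cons, ih1, appl_vecOp R N k (w k) _ ih2]
      congr 1
      funext m
      simp only [e]
    · intro m hm
      have := ih2 (Function.update m.1 k (w k ++ m.1 k), m.2) (by
        intro h
        apply hm
        refine ⟨fun k' => ?_, h.2⟩
        have := h.1 k'
        by_cases hk : k' = k
        · subst hk
          simp only [Function.update_self, List.length_append] at this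
          omega
        · simpa only [Function.update_of_ne hk] using this)
      simpa only [e] using this

end Trunc

/-! ### Transfer along an injective map -/

section Transfer

variable {K X St : Type} {L L' : Type} [LieRing L] [LieRing L'] (φ : L → L')
  (hφ : ∀ a b, φ ⁅a, b⁆ = ⁅φ a, φ b⁆)

include hφ in
theorem map_appl (P : X → L) (l : List X) (v : L) :
    φ (appl P l v) = appl (fun x => φ (P x)) l (φ v) := by
  induction l generalizing v with
  | nil => rfl
  | cons x l ih => rw [appl_cons, ih, hφ, appl_cons]

include hφ in
theorem map_applAll (P : K → X → L) (ks : List K) (w : K → List X) (v : L) :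
    φ (applAll P ks w v) = applAll (fun k x => φ (P k x)) ks w (φ v) := by
  induction ks with
  | nil => rfl
  | cons k ks ih => rw [applAll_cons, map_appl φ hφ, ih, applAll_cons]

include hφ in
theorem Sim.of_map (h0 : φ 0 = 0) (hinj : Function.Injective φ) {δ : Mach K X St}
    {P : K → X → L} {T : L} {q : St → L}
    (h : Sim δ (fun k x => φ (P k x)) (φ T) (fun s => φ (q s))) : Sim δ P T q where
  comm := fun k k' hk x y => hinj (by rw [hφ, h0]; exact h.comm k k' hk x y)
  clock := fun k x => hinj (by rw [hφ, h0]; exact h.clock k x)
  rule := fun s k f hδ x => hinj (by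
    rw [hφ, hφ, map_appl φ hφ]; exact h.rule s k f hδ x)

end Transfer

/-! ### The main construction -/

section Main

variable {K X St : Type} [DecidableEq K] [Fintype K] [Finite X]

open Classical in
/-- The vector of a state: indicator function of the configurations which reach `fin` with the
clock at `t0`. -/
noncomputable def gfun (R : Type) [CommRing R] (δ : Mach K X St) (t0 : ℕ) (fin : Conf K X St)
    (s : St) (m : MM K X) : R :=
  if ∃ n, m.2 + n = t0 ∧ mrun δ n (m.1, s) = some fin then 1 else 0

theorem exists_model (p : ℕ) [Fact p.Prime] (δ : Mach K X St) (c0 fin cacc : Conf K X St) (t0 : ℕ)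
    (hrun : mrun δ t0 c0 = some fin) (hfin : mstep δ fin = none) (hacc : δ cacc.2 = none)
    (k0 : K) (hk0 : ∀ rest, cacc.1 k0 ++ rest ≠ fin.1 k0)
    (ks : List K) (hnd : ks.Nodup) (hks : ∀ k, k ∈ ks) :
    ∃ (L : Type) (_ : LieRing L), Finite L ∧ LieRing.IsNilpotent L ∧ (∀ x : L, p • x = 0) ∧
      ∃ (P : K → X → L) (T : L) (q : St → L), Sim δ P T q ∧ cval P q ks cacc = 0 ∧
        cval P q ks c0 ≠ 0 := by
  classical
  let R : Type := ZMod p
  have : NeZero p := ⟨(Fact.out : p.Prime).ne_zero⟩
  have : Finite R := inferInstanceAs (Finite (ZMod p))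
  let N : ℕ := t0 + ∑ k, (fin.1 k).length
  let B : ℕ := Fintype.card K * N + N
  have : Finite {m : MM K X // inI N m} := finite_inI N
  let r : Idx (inI (K := K) (X := X) N) → ℕ := rk (inI N) sz B
  have hIr : ∀ m : MM K X, inI N m → sz m ≤ B := sz_le N
  have hrB : ∀ j, r j ≤ B + 1 := by
    intro j
    cases j with
    | none => exact le_refl _
    | some m => exact le_trans (min_le_right _ _) (Nat.le_succ B)
  have hsupp : ∀ s (m : MM K X), ¬ inI N m → gfun R δ t0 fin s m = 0 := by
    intro s m hm
    unfold gfun
    rw [if_neg]
    rintro ⟨n, hn, hr⟩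
    apply hm
    refine ⟨fun k => ?_, ?_⟩
    · have h1 := mrun_length hr k
      have h2 : (fin.1 k).length ≤ ∑ k, (fin.1 k).length :=
        Finset.single_le_sum (f := fun k => (fin.1 k).length) (fun _ _ => Nat.zero_le _)
          (Finset.mem_univ k)
      simp only at h1
      show _ ≤ t0 + ∑ k, (fin.1 k).length
      omega
    · show m.2 ≤ t0 + ∑ k, (fin.1 k).length
      omega
  let Pe : K → X → Module.End R (Idx (inI (K := K) (X := X) N) → R) :=
    fun k x => shiftOp R (inI N) (shP k x)
  let Te : Module.End R (Idx (inI (K := K) (X := X) N) → R) := shiftOp R (inI N) shT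
  let qe : St → Module.End R (Idx (inI (K := K) (X := X) N) → R) :=
    fun s => vecOp R (inI N) (gfun R δ t0 fin s)
  have hPe : ∀ k x, Pe k x ∈ strictSub R r := fun k x => shiftOp_mem R (sz_shP k x) hIr
  have hTe : Te ∈ strictSub R r := shiftOp_mem R sz_shT hIr
  have hqe : ∀ s, qe s ∈ strictSub R r := fun s => vecOp_mem R _
  let P : K → X → strictSub R r := fun k x => ⟨Pe k x, hPe k x⟩
  let T : strictSub R r := ⟨Te, hTe⟩
  let q : St → strictSub R r := fun s => ⟨qe s, hqe s⟩
  have hSimE : Sim δ Pe Te qe := by
    refine ⟨?_, ?_, ?_⟩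
    · intro k k' hk x y
      exact lie_shiftOp_shiftOp R (inI_shP N k x) (inI_shP N k' y) (shP_comm hk x y)
    · intro k x
      exact lie_shiftOp_shiftOp R (inI_shT N) (inI_shP N k x) (fun m => rfl)
    · intro s k f hδ x
      show ⁅shiftOp R (inI N) (shP k x), vecOp R (inI N) (gfun R δ t0 fin s)⁆ =
        ⁅shiftOp R (inI N) shT, appl (fun x => shiftOp R (inI N) (shP k x)) (f x).2
          (vecOp R (inI N) (gfun R δ t0 fin (f x).1))⁆
      rw [lie_shiftOp_vecOp R (hsupp s), appl_vecOp R N k _ _ (hsupp _), lie_shiftOp_vecOp R]
      · congr 1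
        funext m
        have hst : mstep δ (Function.update m.1 k (x :: m.1 k), s) =
            some (Function.update m.1 k ((f x).2 ++ m.1 k), (f x).1) := by
          have := mstep_of (w := Function.update m.1 k (x :: m.1 k)) (rest := m.1 k) hδ
            (Function.update_self _ _ _)
          rwa [Function.update_idem] at this
        unfold gfun
        simp only [shP, shT]
        refine if_congr ?_ rfl rfl
        constructor
        · rintro ⟨n, hn, hr⟩
          cases n with
          | zero =>
            simp only [mrun_zero, Option.some.injEq] at hr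
            rw [hr, hfin] at hst
            cases hst
          | succ n =>
            refine ⟨n, by omega, ?_⟩
            rw [mrun_succ, hst] at hr
            simpa using hr
        · rintro ⟨n, hn, hr⟩
          refine ⟨n + 1, by omega, ?_⟩
          rw [mrun_succ, hst]
          simpa using hr
      · intro m hm
        apply hsupp
        intro h
        apply hm
        refine ⟨fun k' => ?_, h.2⟩
        have := h.1 k'
        by_cases hk : k' = k
        · subst hk
          simp only [Function.update_self, List.length_append] at this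
          omega
        · simpa only [Function.update_of_ne hk] using this
  let φ : strictSub R r → Module.End R (Idx (inI (K := K) (X := X) N) → R) := fun A => A.1
  have hφ : ∀ a b, φ ⁅a, b⁆ = ⁅φ a, φ b⁆ := fun a b => rfl
  have hSim : Sim δ P T q := Sim.of_map φ hφ rfl Subtype.val_injective hSimE
  have hval : ∀ c : Conf K X St, φ (cval P q ks c) =
      vecOp R (inI N) (fun m => gfun R δ t0 fin c.2 (fun k => c.1 k ++ m.1 k, m.2)) := by
    intro c
    unfold cval
    rw [map_applAll φ hφ]
    have := (applAll_vecOp R N ks hnd c.1 (gfun R δ t0 fin c.2) (hsupp _)).1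
    simp only [hks, if_true] at this
    exact this
  refine ⟨strictSub R r, inferInstance, strictSub_finite R r, strictSub_nilpotent R r (B + 1) hrB,
    ?_, P, T, q, hSim, ?_, ?_⟩
  · intro x
    have h1 : ((p : ℕ) : R) = 0 := ZMod.natCast_self p
    rw [← Nat.cast_smul_eq_nsmul R, h1, zero_smul]
  · apply Subtype.val_injective
    show φ (cval P q ks cacc) = 0
    rw [hval]
    have : (fun m : MM K X => gfun R δ t0 fin cacc.2 (fun k => cacc.1 k ++ m.1 k, m.2)) =
        fun _ => 0 := by
      funext m
      unfold gfun
      rw [if_neg]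
      rintro ⟨n, hn, hr⟩
      cases n with
      | zero =>
        simp only [mrun_zero, Option.some.injEq] at hr
        exact hk0 (m.1 k0) (by rw [← hr])
      | succ n =>
        rw [mrun_succ] at hr
        have : mstep δ ((fun k => cacc.1 k ++ m.1 k), cacc.2) = none := by
          unfold mstep
          simp only [hacc]
        rw [this] at hr
        cases hr
    rw [this]
    refine LinearMap.ext fun f => ?_
    funext i
    cases i with
    | none => rfl
    | some m => rw [vecOp_some, zero_mul]; rfl
  · intro h
    have h1 : φ (cval P q ks c0) = 0 := by rw [h]; rfl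
    rw [hval] at h1
    have hI0 : inI (K := K) (X := X) N (fun _ => [], 0) := ⟨fun _ => by simp, Nat.zero_le _⟩
    have h2 := congrFun (LinearMap.congr_fun h1 (fun _ => 1)) (some ⟨(fun _ => [], 0), hI0⟩)
    rw [vecOp_some] at h2
    have h3 : gfun R δ t0 fin c0.2 ((fun k => c0.1 k ++ ([] : List X)), 0) = 1 := by
      unfold gfun
      rw [if_pos]
      exact ⟨t0, by simp, by simpa using hrun⟩
    simp only [mul_one] at h2
    rw [h3] at h2
    have : Nontrivial R := inferInstanceAs (Nontrivial (ZMod p))
    exact one_ne_zero h2

end Main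

end Pool.Agent.H84.LieQ
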