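import Mathlib.Algebra.Lie.Basic
import Mathlib.Algebra.Lie.Nilpotent
import Mathlib.Computability.Halting

/-!
# Terms and quasi-identities of Lie rings

Syntax and semantics of the (finitary) equational and quasi-equational language of Lie rings,
with an explicit bijective Goedel numbering of terms, which is the coding used by `ComputablePred`.
-/

namespace Pool.Agent.H84.LieQ

/-- Terms of the language of Lie rings: variables `x_n`, the constant `0`, binary `+`,
unary `-` and the bracket. -/
inductive LieTerm : Type
  | var (n : ℕ) : LieTerm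
  | zero : LieTerm
  | add (s t : LieTerm) : LieTerm
  | neg (t : LieTerm) : LieTerm
  | bracket (s t : LieTerm) : LieTerm

namespace LieTerm

/-- The value of a term in a Lie ring under an assignment of the variables. -/
def eval {L : Type} [LieRing L] (v : ℕ → L) : LieTerm → L
  | var n => v n
  | zero => 0
  | add s t => eval v s + eval v t
  | neg t => - eval v t
  | bracket s t => ⁅eval v s, eval v t⁆

/-- The Goedel number of a term. -/
def toNat : LieTerm → ℕ
  | zero => 0
  | var n => 4 * n + 1
  | neg t => 4 * toNat t + 2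
  | add s t => 4 * Nat.pair (toNat s) (toNat t) + 3
  | bracket s t => 4 * Nat.pair (toNat s) (toNat t) + 4

/-- The term with a given Goedel number. -/
def ofNat : ℕ → LieTerm
  | 0 => zero
  | n + 1 =>
    have h0 : n / 4 < n + 1 := by omega
    have h1 : (n / 4).unpair.1 < n + 1 := lt_of_le_of_lt (Nat.unpair_left_le _) h0
    have h2 : (n / 4).unpair.2 < n + 1 := lt_of_le_of_lt (Nat.unpair_right_le _) h0
    match n % 4 with
    | 0 => var (n / 4)
    | 1 => neg (ofNat (n / 4))
    | 2 => add (ofNat (n / 4).unpair.1) (ofNat (n / 4).unpair.2)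
    | _ => bracket (ofNat (n / 4).unpair.1) (ofNat (n / 4).unpair.2)

theorem ofNat_toNat (t : LieTerm) : ofNat (toNat t) = t := by
  induction t with
  | zero => simp [toNat, ofNat]
  | var n =>
    rw [toNat, ofNat]
    have h1 : 4 * n % 4 = 0 := by omega
    have h2 : 4 * n / 4 = n := by omega
    simp only [h1, h2]
  | neg t ih =>
    rw [toNat, ofNat]
    have h1 : (4 * toNat t + 1) % 4 = 1 := by omega
    have h2 : (4 * toNat t + 1) / 4 = toNat t := by omega
    simp only [h1, h2, ih]
  | add s t ihs iht =>
    rw [toNat, ofNat]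
    have h1 : (4 * Nat.pair (toNat s) (toNat t) + 2) % 4 = 2 := by omega
    have h2 : (4 * Nat.pair (toNat s) (toNat t) + 2) / 4 = Nat.pair (toNat s) (toNat t) := by omega
    simp only [h1, h2, Nat.unpair_pair, ihs, iht]
  | bracket s t ihs iht =>
    rw [toNat, ofNat]
    have h1 : (4 * Nat.pair (toNat s) (toNat t) + 3) % 4 = 3 := by omega
    have h2 : (4 * Nat.pair (toNat s) (toNat t) + 3) / 4 = Nat.pair (toNat s) (toNat t) := by omega
    simp only [h1, h2, Nat.unpair_pair, ihs, iht]

theorem toNat_ofNat (n : ℕ) : toNat (ofNat n) = n := by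
  induction n using Nat.strong_induction_on with
  | _ n ih =>
    cases n with
    | zero => simp [toNat, ofNat]
    | succ n =>
      have h0 : n / 4 < n + 1 := by omega
      have h1 : (n / 4).unpair.1 < n + 1 := lt_of_le_of_lt (Nat.unpair_left_le _) h0
      have h2 : (n / 4).unpair.2 < n + 1 := lt_of_le_of_lt (Nat.unpair_right_le _) h0
      have hlt : n % 4 < 4 := Nat.mod_lt _ (by norm_num)
      have hcases : n % 4 = 0 ∨ n % 4 = 1 ∨ n % 4 = 2 ∨ n % 4 = 3 := by omega
      rw [ofNat]
      rcases hcases with h | h | h | h
      · simp only [h, toNat]; omega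
      · simp only [h, toNat, ih _ h0]; omega
      · simp only [h, toNat, ih _ h1, ih _ h2, Nat.pair_unpair]; omega
      · simp only [h, toNat, ih _ h1, ih _ h2, Nat.pair_unpair]; omega

/-- Terms are numbered bijectively by the natural numbers. -/
instance : Denumerable LieTerm :=
  Denumerable.mk' ⟨toNat, ofNat, ofNat_toNat, toNat_ofNat⟩

theorem encode_eq (t : LieTerm) : Encodable.encode t = toNat t := rfl

end LieTerm

/-- A quasi-identity `s₁ = t₁ ∧ ⋯ ∧ s_k = t_k → s = t`: the finite list of premises `(s_i, t_i)`
and the conclusion `(s, t)`. -/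
abbrev QuasiIdentity : Type := List (LieTerm × LieTerm) × (LieTerm × LieTerm)

/-- The quasi-identity is true in the Lie ring `L`: it holds for all values of the variables. -/
def QuasiIdentity.TrueIn (φ : QuasiIdentity) (L : Type) [LieRing L] : Prop :=
  ∀ v : ℕ → L, (∀ e ∈ φ.1, e.1.eval v = e.2.eval v) → φ.2.1.eval v = φ.2.2.eval v

example : Primcodable QuasiIdentity := inferInstance

end Pool.Agent.H84.LieQ
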