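import Mathlib.Computability.TuringMachine.ToPartrec
import Mathlib.Tactic
import Pool.Agent.H84.LieMachine

/-!
# From Mathlib's `TM2` machines to the stack machines used here
-/

namespace Pool.Agent.H84.LieQ

open Turing

section Generic

variable {K Γ Λ σ : Type}

/-- The small-step machine of a `TM2` program. -/
def dBig (M : Λ → TM2.Stmt (fun _ : K => Γ) Λ σ) (k0 : K) :
    Mach K (Option Γ) (Option (TM2.Stmt (fun _ : K => Γ) Λ σ) × σ)
  | (none, _) => none
  | (some (TM2.Stmt.push k f q), v) => some (k, fun x => ((some q, v), [some (f v), x]))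
  | (some (TM2.Stmt.peek k f q), v) => some (k, fun x => ((some q, f v x), [x]))
  | (some (TM2.Stmt.pop k f q), v) =>
      some (k, fun x => ((some q, f v x), if x.isSome then [] else [none]))
  | (some (TM2.Stmt.load f q), v) => some (k0, fun x => ((some q, f v), [x]))
  | (some (TM2.Stmt.branch f q₁ q₂), v) =>
      some (k0, fun x => ((some (cond (f v) q₁ q₂), v), [x]))
  | (some (TM2.Stmt.goto f), v) => some (k0, fun x => ((some (M (f v)), v), [x]))
  | (some TM2.Stmt.halt, v) => some (k0, fun x => ((none, v), [x]))

/-- Stacks with a bottom marker. -/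
def wst (S : K → List Γ) : K → List (Option Γ) := fun k => (S k).map some ++ [none]

/-- Translation of labels. -/
def emb (M : Λ → TM2.Stmt (fun _ : K => Γ) Λ σ) :
    Option Λ → Option (TM2.Stmt (fun _ : K => Γ) Λ σ) := Option.map M

/-- Translation of configurations. -/
def embC (M : Λ → TM2.Stmt (fun _ : K => Γ) Λ σ) (c : TM2.Cfg (fun _ : K => Γ) Λ σ) :
    Conf K (Option Γ) (Option (TM2.Stmt (fun _ : K => Γ) Λ σ) × σ) :=
  (wst c.stk, (emb M c.l, c.var))

theorem wst_cons (S : K → List Γ) (k : K) :
    wst S k = (S k).head? :: (if (S k).head?.isSome then (S k).tail.map some ++ [none] else []) := by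
  unfold wst
  cases S k with
  | nil => simp
  | cons a l => simp

variable [DecidableEq K]

theorem wst_update (S : K → List Γ) (k : K) (l : List Γ) :
    Function.update (wst S) k (l.map some ++ [none]) = wst (Function.update S k l) := by
  funext k'
  by_cases h : k' = k
  · subst h; simp [wst]
  · simp [wst, Function.update_of_ne h]

theorem update_wst_self (S : K → List Γ) (k : K) :
    Function.update (wst S) k ([(S k).head?] ++
      (if (S k).head?.isSome then (S k).tail.map some ++ [none] else [])) = wst S := by
  rw [List.singleton_append, ← wst_cons, Function.update_eq_self]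

theorem stepAux_run (M : Λ → TM2.Stmt (fun _ : K => Γ) Λ σ) (k0 : K)
    (q : TM2.Stmt (fun _ : K => Γ) Λ σ) (v : σ) (S : K → List Γ) :
    ∃ n, mrun (dBig M k0) n (wst S, (some q, v)) = some (embC M (TM2.stepAux q v S)) := by
  induction q generalizing v S with
  | push k f q ih =>
    obtain ⟨n, hn⟩ := ih v (Function.update S k (f v :: S k))
    refine ⟨n + 1, ?_⟩
    rw [mrun_succ, mstep_of (δ := dBig M k0) (k := k)
      (f := fun x => ((some q, v), [some (f v), x])) rfl (wst_cons S k)]
    simp only [Option.bind_some]
    have e : Function.update (wst S) k ([some (f v), (S k).head?] ++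
        (if (S k).head?.isSome then (S k).tail.map some ++ [none] else [])) =
        wst (Function.update S k (f v :: S k)) := by
      rw [← wst_update]
      congr 1
      rw [show [some (f v), (S k).head?] = [some (f v)] ++ [(S k).head?] from rfl,
        List.append_assoc, List.singleton_append, List.singleton_append, ← wst_cons]
      rfl
    rw [e, TM2.stepAux]
    exact hn
  | peek k f q ih =>
    obtain ⟨n, hn⟩ := ih (f v (S k).head?) S
    refine ⟨n + 1, ?_⟩
    rw [mrun_succ, mstep_of (δ := dBig M k0) (k := k)
      (f := fun x => ((some q, f v x), [x])) rfl (wst_cons S k)]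
    simp only [Option.bind_some]
    rw [update_wst_self, TM2.stepAux]
    exact hn
  | pop k f q ih =>
    obtain ⟨n, hn⟩ := ih (f v (S k).head?) (Function.update S k (S k).tail)
    refine ⟨n + 1, ?_⟩
    rw [mrun_succ, mstep_of (δ := dBig M k0) (k := k)
      (f := fun x => ((some q, f v x), if x.isSome then [] else [none])) rfl (wst_cons S k)]
    simp only [Option.bind_some]
    have e : Function.update (wst S) k ((if (S k).head?.isSome then [] else [none]) ++
        (if (S k).head?.isSome then (S k).tail.map some ++ [none] else [])) =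
        wst (Function.update S k (S k).tail) := by
      rw [← wst_update]
      congr 1
      cases S k with
      | nil => simp
      | cons a l => simp
    rw [e, TM2.stepAux]
    exact hn
  | load f q ih =>
    obtain ⟨n, hn⟩ := ih (f v) S
    refine ⟨n + 1, ?_⟩
    rw [mrun_succ, mstep_of (δ := dBig M k0) (k := k0)
      (f := fun x => ((some q, f v), [x])) rfl (wst_cons S k0)]
    simp only [Option.bind_some]
    rw [update_wst_self, TM2.stepAux]
    exact hn
  | branch f q₁ q₂ ih₁ ih₂ =>
    have : ∃ n, mrun (dBig M k0) n (wst S, (some (cond (f v) q₁ q₂), v)) =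
        some (embC M (TM2.stepAux (cond (f v) q₁ q₂) v S)) := by
      cases f v
      · exact ih₂ v S
      · exact ih₁ v S
    obtain ⟨n, hn⟩ := this
    refine ⟨n + 1, ?_⟩
    rw [mrun_succ, mstep_of (δ := dBig M k0) (k := k0)
      (f := fun x => ((some (cond (f v) q₁ q₂), v), [x])) rfl (wst_cons S k0)]
    simp only [Option.bind_some]
    rw [update_wst_self, TM2.stepAux, hn]
    cases f v <;> rfl
  | goto f =>
    refine ⟨1, ?_⟩
    rw [mrun_succ, mstep_of (δ := dBig M k0) (k := k0)
      (f := fun x => ((some (M (f v)), v), [x])) rfl (wst_cons S k0)]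
    simp only [Option.bind_some]
    rw [update_wst_self, TM2.stepAux]
    rfl
  | halt =>
    refine ⟨1, ?_⟩
    rw [mrun_succ, mstep_of (δ := dBig M k0) (k := k0)
      (f := fun x => ((none, v), [x])) rfl (wst_cons S k0)]
    simp only [Option.bind_some]
    rw [update_wst_self, TM2.stepAux]
    rfl

theorem step_run (M : Λ → TM2.Stmt (fun _ : K => Γ) Λ σ) (k0 : K)
    {c c' : TM2.Cfg (fun _ : K => Γ) Λ σ} (h : c' ∈ TM2.step M c) :
    ∃ n, mrun (dBig M k0) n (embC M c) = some (embC M c') := by
  obtain ⟨l, v, S⟩ := c
  cases l with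
  | none => simp [TM2.step] at h
  | some l =>
    simp only [TM2.step, Option.mem_def, Option.some.injEq] at h
    subst h
    exact stepAux_run M k0 (M l) v S

theorem reaches_run (M : Λ → TM2.Stmt (fun _ : K => Γ) Λ σ) (k0 : K)
    {c c' : TM2.Cfg (fun _ : K => Γ) Λ σ} (h : StateTransition.Reaches (TM2.step M) c c') :
    ∃ n, mrun (dBig M k0) n (embC M c) = some (embC M c') := by
  induction h with
  | refl => exact ⟨0, rfl⟩
  | tail _ h2 ih =>
    obtain ⟨n, hn⟩ := ih
    obtain ⟨m, hm⟩ := step_run M k0 h2
    exact ⟨n + m, by rw [mrun_add, hn]; exact hm⟩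

end Generic

/-! ### Restriction to a closed set of states -/

section Restrict

variable {K X St St' : Type} [DecidableEq K]

theorem mrun_map (δ : Mach K X St) (δ' : Mach K X St') (ι : St → St')
    (h : ∀ s, δ' (ι s) = (δ s).map (fun a => (a.1, fun x => (ι (a.2 x).1, (a.2 x).2))))
    (n : ℕ) (c : Conf K X St) :
    mrun δ' n (c.1, ι c.2) = (mrun δ n c).map (fun d => (d.1, ι d.2)) := by
  induction n generalizing c with
  | zero => rfl
  | succ n ih =>
    rw [mrun_succ, mrun_succ]
    obtain ⟨w, s⟩ := c
    have hs := h s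
    cases hδ : δ s with
    | none =>
      rw [hδ] at hs
      simp only [Option.map_none] at hs
      have e1 : mstep δ' (w, ι s) = none := by unfold mstep; simp only [hs]
      have e2 : mstep δ (w, s) = none := by unfold mstep; simp only [hδ]
      rw [e1, e2]; rfl
    | some a =>
      obtain ⟨k, f⟩ := a
      rw [hδ] at hs
      simp only [Option.map_some] at hs
      cases hk : w k with
      | nil =>
        have e1 : mstep δ' (w, ι s) = none := by unfold mstep; simp only [hs, hk]
        have e2 : mstep δ (w, s) = none := by unfold mstep; simp only [hδ, hk]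
        rw [e1, e2]; rfl
      | cons x rest =>
        rw [mstep_of hs hk, mstep_of hδ hk]
        simp only [Option.bind_some]
        exact ih (Function.update w k ((f x).2 ++ rest), (f x).1)

end Restrict

/-! ### Substatements -/

section Sub

variable {K Γ Λ σ : Type}

theorem sub_push (k : K) (f : σ → Γ) (q : TM2.Stmt (fun _ : K => Γ) Λ σ) :
    q ∈ TM2.stmts₁ (TM2.Stmt.push k f q) := by
  simp [TM2.stmts₁, TM2.stmts₁_self]

theorem sub_peek (k : K) (f : σ → Option Γ → σ) (q : TM2.Stmt (fun _ : K => Γ) Λ σ) :
    q ∈ TM2.stmts₁ (TM2.Stmt.peek k f q) := by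
  simp [TM2.stmts₁, TM2.stmts₁_self]

theorem sub_pop (k : K) (f : σ → Option Γ → σ) (q : TM2.Stmt (fun _ : K => Γ) Λ σ) :
    q ∈ TM2.stmts₁ (TM2.Stmt.pop k f q) := by
  simp [TM2.stmts₁, TM2.stmts₁_self]

theorem sub_load (f : σ → σ) (q : TM2.Stmt (fun _ : K => Γ) Λ σ) :
    q ∈ TM2.stmts₁ (TM2.Stmt.load f q) := by
  simp [TM2.stmts₁, TM2.stmts₁_self]

theorem sub_branch (f : σ → Bool) (q₁ q₂ : TM2.Stmt (fun _ : K => Γ) Λ σ) (b : Bool) :
    (cond b q₁ q₂) ∈ TM2.stmts₁ (TM2.Stmt.branch f q₁ q₂) := by
  cases b <;> simp [TM2.stmts₁, TM2.stmts₁_self]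

end Sub

/-! ### The machine of a `ToPartrec` code -/

section PR

open Turing.PartrecToTM2 Turing.ToPartrec

/-- The statements of the machine. -/
abbrev SS : Type := TM2.Stmt (fun _ : K' => Γ') Λ' (Option Γ')

/-- The program of Mathlib, with its type unfolded. -/
def trS : Λ' → SS := tr

/-- The finite set of accessible statements of the program evaluating the code `c`. -/
noncomputable def FF (c : Code) : Finset (Option SS) :=
  TM2.stmts trS (codeSupp c Cont'.halt)

/-- The (finite) type of states. -/
abbrev SF (c : Code) : Type := {o : Option SS // o ∈ FF c} × Option Γ'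

theorem mem_FF_iff (c : Code) (q : SS) :
    some q ∈ FF c ↔ ∃ l ∈ codeSupp c Cont'.halt, q ∈ TM2.stmts₁ (trS l) := by
  unfold FF TM2.stmts
  simp only [Finset.mem_insertNone, Finset.mem_biUnion, Option.mem_def, Option.some.injEq,
    forall_eq']

theorem none_mem_FF (c : Code) : (none : Option SS) ∈ FF c := by
  unfold FF TM2.stmts
  exact Finset.none_mem_insertNone

open Classical in
/-- Retraction onto the accessible statements. -/
noncomputable def toF (c : Code) (o : Option SS) : {o : Option SS // o ∈ FF c} :=
  if h : o ∈ FF c then ⟨o, h⟩ else ⟨none, none_mem_FF c⟩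

theorem toF_val (c : Code) {o : Option SS} (h : o ∈ FF c) : (toF c o).1 = o := by
  unfold toF; rw [dif_pos h]

/-- The machine with finitely many states. -/
noncomputable def dF (c : Code) : Mach K' (Option Γ') (SF c) := fun s =>
  (dBig trS K'.main (s.1.1, s.2)).map
    (fun a => (a.1, fun x => ((toF c (a.2 x).1.1, (a.2 x).1.2), (a.2 x).2)))

/-- Forget that a state is accessible. -/
def iF (c : Code) (s : SF c) : Option SS × Option Γ' := (s.1.1, s.2)

theorem supports' (c : Code) : ∀ q ∈ codeSupp c Cont'.halt,
    TM2.SupportsStmt (codeSupp c Cont'.halt) (trS q) := by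
  have h := @tr_supports c Cont'.halt
  exact h.2

theorem mem_FF_supports {c : Code} {q : SS} (h : some q ∈ FF c) :
    TM2.SupportsStmt (codeSupp c Cont'.halt) q := by
  obtain ⟨l, hl, hq⟩ := (mem_FF_iff c q).1 h
  exact TM2.stmts₁_supportsStmt_mono hq (supports' c l hl)

theorem mem_FF_of_label {c : Code} {l : Λ'} (h : l ∈ codeSupp c Cont'.halt) :
    some (trS l) ∈ FF c :=
  (mem_FF_iff c _).2 ⟨l, h, TM2.stmts₁_self⟩

theorem mem_FF_trans {c : Code} {q₁ q₂ : SS} (h₁ : q₁ ∈ TM2.stmts₁ q₂) (h : some q₂ ∈ FF c) :
    some q₁ ∈ FF c := TM2.stmts_trans h₁ h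

theorem dBig_closed (c : Code) (o : Option SS) (v : Option Γ') (ho : o ∈ FF c)
    (a : K' × (Option Γ' → (Option SS × Option Γ') × List (Option Γ')))
    (ha : dBig trS K'.main (o, v) = some a) (x : Option Γ') : (a.2 x).1.1 ∈ FF c := by
  cases o with
  | none => simp [dBig] at ha
  | some q =>
    cases q with
    | push k f q =>
      simp only [dBig, Option.some.injEq] at ha; subst ha
      exact mem_FF_trans (sub_push k f q) ho
    | peek k f q =>
      simp only [dBig, Option.some.injEq] at ha; subst ha
      exact mem_FF_trans (sub_peek k f q) ho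
    | pop k f q =>
      simp only [dBig, Option.some.injEq] at ha; subst ha
      exact mem_FF_trans (sub_pop k f q) ho
    | load f q =>
      simp only [dBig, Option.some.injEq] at ha; subst ha
      exact mem_FF_trans (sub_load f q) ho
    | branch f q₁ q₂ =>
      simp only [dBig, Option.some.injEq] at ha; subst ha
      exact mem_FF_trans (sub_branch f q₁ q₂ (f v)) ho
    | goto f =>
      simp only [dBig, Option.some.injEq] at ha; subst ha
      have := mem_FF_supports ho
      simp only [TM2.SupportsStmt] at this
      exact mem_FF_of_label (this v)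
    | halt =>
      simp only [dBig, Option.some.injEq] at ha; subst ha
      exact none_mem_FF c

theorem dF_comm (c : Code) (s : SF c) : dBig trS K'.main (iF c s) =
    (dF c s).map (fun a => (a.1, fun x => (iF c (a.2 x).1, (a.2 x).2))) := by
  obtain ⟨⟨o, ho⟩, v⟩ := s
  unfold dF iF
  simp only [Option.map_map]
  cases hd : dBig trS K'.main (o, v) with
  | none => rfl
  | some a =>
    obtain ⟨k, f⟩ := a
    have := dBig_closed c o v ho (k, f) hd
    simp only at this
    simp only [Option.map_some, Function.comp, Option.some.injEq, Prod.mk.injEq, true_and]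
    funext x
    rw [toF_val c (this x)]

/-- The halting state. -/
noncomputable def sHalt (c : Code) : SF c := (⟨none, none_mem_FF c⟩, none)

/-- The initial state. -/
noncomputable def sInit (c : Code) : SF c := (toF c (some (trS (trNormal c Cont'.halt))), none)

theorem iF_sInit (c : Code) : iF c (sInit c) = (some (trS (trNormal c Cont'.halt)), none) := by
  have h : some (trS (trNormal c Cont'.halt)) ∈ FF c :=
    mem_FF_of_label (codeSupp_self c Cont'.halt (trStmts₁_self _))
  have h2 := toF_val c h
  unfold iF sInit
  exact Prod.ext h2 rfl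

/-- The stacks with the given list of numbers on the main stack. -/
def wIn (v : List ℕ) : K' → List (Option Γ') := wst (K'.elim (trList v) [] [] [])

theorem code_run (c : Code) (v w : List ℕ) (h : w ∈ c.eval v) :
    ∃ n, mrun (dF c) n (wIn v, sInit c) = some (wIn w, sHalt c) := by
  have h1 : halt w ∈ StateTransition.eval (TM2.step tr) (init c v) := by
    rw [tr_eval]
    exact Part.mem_map _ h
  have h2 : StateTransition.Reaches (TM2.step trS) (init c v) (halt w) :=
    (StateTransition.mem_eval.1 h1).1
  obtain ⟨n, hn⟩ := reaches_run trS K'.main h2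
  refine ⟨n, ?_⟩
  have h3 := mrun_map (dF c) (dBig trS K'.main) (iF c) (dF_comm c) n (wIn v, sInit c)
  have e1 : ((wIn v, iF c (sInit c)) : Conf K' (Option Γ') (Option SS × Option Γ')) =
      embC trS (init c v) := by
    rw [iF_sInit]; rfl
  simp only at h3
  rw [e1] at h3
  have h4 := h3.symm.trans hn
  obtain ⟨d, hd1, hd2⟩ := Option.map_eq_some_iff.1 h4
  rw [hd1]
  obtain ⟨dw, ds⟩ := d
  have h5 : dw = wIn w := congrArg Prod.fst hd2
  have h6 : iF c ds = ((none : Option SS), (none : Option Γ')) := congrArg Prod.snd hd2
  have h7 : ds = sHalt c := by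
    refine Prod.ext (Subtype.ext ?_) ?_
    · exact (Prod.mk.inj h6).1
    · exact (Prod.mk.inj h6).2
  rw [h5, h7]

theorem dF_sHalt (c : Code) : dF c (sHalt c) = none := rfl

end PR

end Pool.Agent.H84.LieQ
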