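import Mathlib.Computability.TuringMachine.ToPartrec
import Mathlib.Computability.Reduce
import Mathlib.Tactic
import Pool.Agent.H84.LieSyntax
import Pool.Agent.H84.LieModel
import Pool.Agent.H84.LieTM

/-!
# The reduction: quasi-identities of Lie rings encode computations
-/

namespace Pool.Agent.H84.LieQ

open Turing.PartrecToTM2 Turing.ToPartrec

/-! ### Recursively inseparable sets -/

/-- The diagonal function. -/
def diag (n : ℕ) : Part ℕ := (Denumerable.ofNat Nat.Partrec.Code n).eval n

theorem diag_partrec : Partrec diag :=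
  Nat.Partrec.Code.eval_part.comp (Computable.ofNat Nat.Partrec.Code) Computable.id

theorem diag_inseparable (p : ℕ → Prop) (hp : ComputablePred p) (h0 : ∀ n, 0 ∈ diag n → p n)
    (h1 : ∀ n, 1 ∈ diag n → ¬ p n) : False := by
  obtain ⟨f, hf, hpf⟩ := ComputablePred.computable_iff.1 hp
  have hg : Computable (fun n => cond (f n) 1 0 : ℕ → ℕ) :=
    Computable.cond hf (Computable.const 1) (Computable.const 0)
  obtain ⟨c, hc⟩ := Nat.Partrec.Code.exists_code.1 (Partrec.nat_iff.1 hg.partrec)
  have key : diag (Encodable.encode c) = Part.some (cond (f (Encodable.encode c)) 1 0) := by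
    unfold diag
    rw [Denumerable.ofNat_encode, hc]
    rfl
  cases hb : f (Encodable.encode c) with
  | true =>
    have h2 : 1 ∈ diag (Encodable.encode c) := by rw [key, hb]; simp
    apply h1 _ h2
    rw [hpf]
    exact hb
  | false =>
    have h2 : 0 ∈ diag (Encodable.encode c) := by rw [key, hb]; simp
    have h3 := h0 _ h2
    rw [hpf] at h3
    have h4 : f (Encodable.encode c) = true := h3
    rw [hb] at h4
    cases h4

theorem exists_diag_code : ∃ c : Code, ∀ n m : ℕ, m ∈ diag n → [m] ∈ c.eval [n] := by
  have h := Nat.Partrec'.part_iff₁.2 diag_partrec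
  obtain ⟨c, hc⟩ := Turing.ToPartrec.Code.exists_code h
  refine ⟨c, fun n m hm => ?_⟩
  have := hc (n ::ᵥ List.Vector.nil)
  have e : (n ::ᵥ List.Vector.nil : List.Vector ℕ 1).1 = [n] := rfl
  rw [e] at this
  rw [this]
  simp only [List.Vector.head_cons]
  exact Part.mem_map pure hm

/-! ### Terms for words and configurations -/

section Terms

variable {K X St : Type}

/-- Apply the operators of a word to a term. -/
def applT (P : X → LieTerm) (l : List X) (v : LieTerm) : LieTerm :=
  l.foldl (fun v x => LieTerm.bracket (P x) v) v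

/-- Apply the operators of all stacks to a term. -/
def applAllT (P : K → X → LieTerm) (ks : List K) (w : K → List X) (v : LieTerm) : LieTerm :=
  ks.foldr (fun k v => applT (P k) (w k) v) v

variable {L : Type} [LieRing L] (ρ : ℕ → L)

theorem eval_applT (P : X → LieTerm) (l : List X) (v : LieTerm) :
    (applT P l v).eval ρ = appl (fun x => (P x).eval ρ) l (v.eval ρ) := by
  induction l generalizing v with
  | nil => rfl
  | cons x l ih =>
    show (applT P l (LieTerm.bracket (P x) v)).eval ρ = _
    rw [ih]
    rfl

theorem eval_applAllT (P : K → X → LieTerm) (ks : List K) (w : K → List X) (v : LieTerm) :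
    (applAllT P ks w v).eval ρ = applAll (fun k x => (P k x).eval ρ) ks w (v.eval ρ) := by
  induction ks with
  | nil => rfl
  | cons k ks ih =>
    show (applT (P k) (w k) (applAllT P ks w v)).eval ρ = _
    rw [eval_applT, ih, applAll_cons]

end Terms

/-! ### The premises -/

instance : Fintype K' := ⟨{K'.main, K'.rev, K'.aux, K'.stack}, by intro x; cases x <;> simp⟩

/-- The generators. -/
abbrev Gen (c : Code) : Type := (K' × Option Γ') ⊕ (Unit ⊕ SF c)

theorem exists_gcode (c : Code) : ∃ f : Gen c → ℕ, Function.Injective f :=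
  Countable.exists_injective_nat _

/-- The number of the variable of a generator. -/
noncomputable def gcode (c : Code) : Gen c → ℕ := (exists_gcode c).choose

theorem gcode_inj (c : Code) : Function.Injective (gcode c) := (exists_gcode c).choose_spec

/-- The term of a push operator. -/
noncomputable def tP (c : Code) (k : K') (x : Option Γ') : LieTerm :=
  LieTerm.var (gcode c (Sum.inl (k, x)))

/-- The term of the clock operator. -/
noncomputable def tT (c : Code) : LieTerm := LieTerm.var (gcode c (Sum.inr (Sum.inl ())))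

/-- The term of a state. -/
noncomputable def tq (c : Code) (s : SF c) : LieTerm :=
  LieTerm.var (gcode c (Sum.inr (Sum.inr s)))

/-- The list of all stacks. -/
def allK : List K' := [K'.main, K'.rev, K'.aux, K'.stack]

theorem allK_nodup : allK.Nodup := by decide

theorem mem_allK (k : K') : k ∈ allK := by cases k <;> decide

/-- The term of a configuration. -/
noncomputable def tC (c : Code) (d : Conf K' (Option Γ') (SF c)) : LieTerm :=
  applAllT (tP c) allK d.1 (tq c d.2)

/-- The premises. -/
inductive IsPrem (c : Code) : LieTerm × LieTerm → Prop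
  | comm (k k' : K') (x y : Option Γ') (h : k ≠ k') :
      IsPrem c (LieTerm.bracket (tP c k x) (tP c k' y), LieTerm.zero)
  | clock (k : K') (x : Option Γ') : IsPrem c (LieTerm.bracket (tT c) (tP c k x), LieTerm.zero)
  | rule (s : SF c) (x : Option Γ') (k : K') (f : Option Γ' → SF c × List (Option Γ'))
      (h : dF c s = some (k, f)) :
      IsPrem c (LieTerm.bracket (tP c k x) (tq c s),
        LieTerm.bracket (tT c) (applT (tP c k) (f x).2 (tq c (f x).1)))
  | acc : IsPrem c (tC c (wIn [0], sHalt c), LieTerm.zero)

theorem isPrem_finite (c : Code) : {e | IsPrem c e}.Finite := by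
  let g1 : K' × K' × Option Γ' × Option Γ' → LieTerm × LieTerm := fun a =>
    (LieTerm.bracket (tP c a.1 a.2.2.1) (tP c a.2.1 a.2.2.2), LieTerm.zero)
  let g2 : K' × Option Γ' → LieTerm × LieTerm := fun a =>
    (LieTerm.bracket (tT c) (tP c a.1 a.2), LieTerm.zero)
  let g3 : SF c × Option Γ' → LieTerm × LieTerm := fun a =>
    match dF c a.1 with
    | none => (LieTerm.zero, LieTerm.zero)
    | some (k, f) => (LieTerm.bracket (tP c k a.2) (tq c a.1),
        LieTerm.bracket (tT c) (applT (tP c k) (f a.2).2 (tq c (f a.2).1)))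
  refine Set.Finite.subset ((((Set.finite_range g1).union (Set.finite_range g2)).union
    (Set.finite_range g3)).union (Set.finite_singleton (tC c (wIn [0], sHalt c), LieTerm.zero))) ?_
  rintro e (⟨k, k', x, y, h⟩ | ⟨k, x⟩ | ⟨s, x, k, f, h⟩ | _)
  · exact Or.inl (Or.inl (Or.inl ⟨(k, k', x, y), rfl⟩))
  · exact Or.inl (Or.inl (Or.inr ⟨(k, x), rfl⟩))
  · refine Or.inl (Or.inr ⟨(s, x), ?_⟩)
    show (match dF c s with
      | none => (LieTerm.zero, LieTerm.zero)
      | some (k, f) => (LieTerm.bracket (tP c k x) (tq c s),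
        LieTerm.bracket (tT c) (applT (tP c k) (f x).2 (tq c (f x).1)))) = _
    rw [h]
  · exact Or.inr rfl

/-- The list of premises. -/
noncomputable def prems (c : Code) : List (LieTerm × LieTerm) := (isPrem_finite c).toFinset.toList

theorem mem_prems (c : Code) (e : LieTerm × LieTerm) : e ∈ prems c ↔ IsPrem c e := by
  unfold prems
  rw [Finset.mem_toList, Set.Finite.mem_toFinset, Set.mem_ofPred_eq]

/-- The quasi-identity attached to the input `n`. -/
noncomputable def phi (c : Code) (n : ℕ) : QuasiIdentity :=
  (prems c, (tC c (wIn [n], sInit c), LieTerm.zero))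

theorem phi_true (c : Code) (n : ℕ) (h : [0] ∈ c.eval [n]) (L : Type) [LieRing L] :
    (phi c n).TrueIn L := by
  intro ρ hρ
  have hp : ∀ e, IsPrem c e → e.1.eval ρ = e.2.eval ρ := fun e he => hρ e ((mem_prems c e).2 he)
  have hsim : Sim (dF c) (fun k x => (tP c k x).eval ρ) ((tT c).eval ρ)
      (fun s => (tq c s).eval ρ) := by
    refine ⟨?_, ?_, ?_⟩
    · intro k k' hk x y
      exact hp _ (IsPrem.comm k k' x y hk)
    · intro k x
      exact hp _ (IsPrem.clock k x)
    · intro s k f hs x
      have := hp _ (IsPrem.rule s x k f hs)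
      simpa only [LieTerm.eval, eval_applT] using this
  have hacc : cval (fun k x => (tP c k x).eval ρ) (fun s => (tq c s).eval ρ) allK
      (wIn [0], sHalt c) = 0 := by
    have := hp _ IsPrem.acc
    simp only [tC, eval_applAllT, LieTerm.eval] at this
    exact this
  obtain ⟨m, hm⟩ := code_run c [n] [0] h
  have := hsim.run allK_nodup mem_allK hm hacc
  show (tC c (wIn [n], sInit c)).eval ρ = (0 : L)
  rw [tC, eval_applAllT]
  exact this

theorem wIn_zero_main (rest : List (Option Γ')) : wIn [0] K'.main ++ rest ≠ wIn [1] K'.main := by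
  have e0 : wIn [0] K'.main = [some Γ'.cons, none] := rfl
  have e1 : wIn [1] K'.main = [some Γ'.bit1, some Γ'.cons, none] := rfl
  rw [e0, e1]
  intro h
  simp at h

theorem phi_false (p : ℕ) [Fact p.Prime] (c : Code) (n : ℕ) (h : [1] ∈ c.eval [n]) :
    ∃ (L : Type) (_ : LieRing L), Finite L ∧ LieRing.IsNilpotent L ∧ (∀ x : L, p • x = 0) ∧
      ¬ (phi c n).TrueIn L := by
  obtain ⟨m, hm⟩ := code_run c [n] [1] h
  have hfin : mstep (dF c) (wIn [1], sHalt c) = none := by
    unfold mstep
    simp only [dF_sHalt]
  obtain ⟨L, iL, hL1, hL2, hL3, P, T, q, hsim, hacc, hne⟩ := exists_model p (dF c)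
    (wIn [n], sInit c) (wIn [1], sHalt c) (wIn [0], sHalt c) m hm hfin (dF_sHalt c) K'.main
    wIn_zero_main allK allK_nodup mem_allK
  refine ⟨L, iL, hL1, hL2, hL3, ?_⟩
  intro htrue
  let val : Gen c → L := fun g => match g with
    | Sum.inl (k, x) => P k x
    | Sum.inr (Sum.inl _) => T
    | Sum.inr (Sum.inr s) => q s
  let ρ : ℕ → L := Function.extend (gcode c) val 0
  have hρ : ∀ g, ρ (gcode c g) = val g := fun g => (gcode_inj c).extend_apply val 0 g
  have hP : ∀ k x, (tP c k x).eval ρ = P k x := fun k x => hρ (Sum.inl (k, x))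
  have hT : (tT c).eval ρ = T := hρ (Sum.inr (Sum.inl ()))
  have hq : ∀ s, (tq c s).eval ρ = q s := fun s => hρ (Sum.inr (Sum.inr s))
  have hCe : ∀ d, (tC c d).eval ρ = cval P q allK d := by
    intro d
    rw [tC, eval_applAllT]
    simp only [hP, hq]
    rfl
  apply hne
  rw [← hCe]
  refine htrue ρ (fun e he => ?_)
  rcases (mem_prems c e).1 he with ⟨k, k', x, y, hk⟩ | ⟨k, x⟩ | ⟨s, x, k, f, hs⟩ | _
  · simp only [LieTerm.eval, hP]
    exact hsim.comm k k' hk x y
  · simp only [LieTerm.eval, hP, hT]
    exact hsim.clock k x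
  · simp only [LieTerm.eval, hP, hT, eval_applT, hq]
    exact hsim.rule s k f hs x
  · simp only [hCe, LieTerm.eval]
    exact hacc

/-! ### Computability of the reduction -/

theorem primrec₂_bracket : Primrec₂ LieTerm.bracket := by
  refine Primrec.encode_iff.1 ?_
  have h : Primrec (fun a : LieTerm × LieTerm =>
      4 * Nat.pair (Encodable.encode a.1) (Encodable.encode a.2) + 4) :=
    Primrec.nat_add.comp (Primrec.nat_mul.comp (Primrec.const 4)
      (Primrec₂.natPair.comp (Primrec.encode.comp Primrec.fst) (Primrec.encode.comp Primrec.snd)))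
      (Primrec.const 4)
  exact h

/-- One step of the computation of the term of a binary number. -/
def bstep (b0 b1 : LieTerm) (a : ℕ × LieTerm) : ℕ × LieTerm :=
  if a.1 = 0 then a
  else (a.1 / 2, LieTerm.bracket (if a.1 % 2 = 1 then b1 else b0) a.2)

theorem bstep_primrec (b0 b1 : LieTerm) : Primrec (bstep b0 b1) := by
  unfold bstep
  refine Primrec.ite (Primrec.eq.comp Primrec.fst (Primrec.const 0)) Primrec.id ?_
  refine Primrec.pair (Primrec.nat_div.comp Primrec.fst (Primrec.const 2)) ?_
  refine primrec₂_bracket.comp ?_ Primrec.snd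
  exact Primrec.ite (Primrec.eq.comp (Primrec.nat_mod.comp Primrec.fst (Primrec.const 2))
    (Primrec.const 1)) (Primrec.const b1) (Primrec.const b0)

theorem trNat_odd (m : ℕ) : trNat (2 * m + 1) = Γ'.bit1 :: trNat m := by
  unfold trNat
  have : ((2 * m + 1 : ℕ) : Num) = (m : Num).bit1 := by
    rw [← Num.bit1_of_bit1]; push_cast; ring
  rw [this]
  cases (m : Num) <;> rfl

theorem trNat_even (m : ℕ) (h : 0 < m) : trNat (2 * m) = Γ'.bit0 :: trNat m := by
  unfold trNat
  have h1 : ((2 * m : ℕ) : Num) = (m : Num).bit0 := by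
    rw [← Num.bit0_of_bit0]; push_cast; ring
  rw [h1]
  have h2 : (m : Num) ≠ 0 := by
    intro h3
    have := congrArg (fun x : Num => (x : ℕ)) h3
    simp only [Num.to_of_nat, Num.cast_zero] at this
    omega
  cases hm : (m : Num) with
  | zero => exact absurd hm h2
  | pos n => rfl

theorem bstep_iterate (P : Option Γ' → LieTerm) (k m : ℕ) (hk : m ≤ k) (t : LieTerm) :
    ((bstep (P (some Γ'.bit0)) (P (some Γ'.bit1)))^[k] (m, t)).2 =
      applT P ((trNat m).map some) t := by
  induction k generalizing m t with
  | zero =>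
    have : m = 0 := by omega
    subst this
    simp [applT]
  | succ k ih =>
    rw [Function.iterate_succ_apply]
    by_cases hm : m = 0
    · subst hm
      have : bstep (P (some Γ'.bit0)) (P (some Γ'.bit1)) (0, t) = (0, t) := by simp [bstep]
      rw [this, ih 0 (Nat.zero_le _)]
    · have e : bstep (P (some Γ'.bit0)) (P (some Γ'.bit1)) (m, t) =
          (m / 2, LieTerm.bracket (if m % 2 = 1 then P (some Γ'.bit1) else P (some Γ'.bit0)) t) := by
        simp [bstep, hm]
      rw [e, ih (m / 2) (by omega)]
      by_cases hodd : m % 2 = 1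
      · have hm2 : m = 2 * (m / 2) + 1 := by omega
        conv_rhs => rw [hm2, trNat_odd]
        rw [if_pos hodd]
        rfl
      · have hm2 : m = 2 * (m / 2) := by omega
        conv_rhs => rw [hm2, trNat_even _ (by omega)]
        rw [if_neg hodd]
        rfl

/-- The computable description of the start term. -/
noncomputable def startT (c : Code) (n : ℕ) : LieTerm :=
  LieTerm.bracket (tP c K'.main none) (LieTerm.bracket (tP c K'.main (some Γ'.cons))
    ((bstep (tP c K'.main (some Γ'.bit0)) (tP c K'.main (some Γ'.bit1)))^[n]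
      (n, LieTerm.bracket (tP c K'.rev none) (LieTerm.bracket (tP c K'.aux none)
        (LieTerm.bracket (tP c K'.stack none) (tq c (sInit c)))))).2)

theorem startT_eq (c : Code) (n : ℕ) : startT c n = tC c (wIn [n], sInit c) := by
  unfold startT
  rw [bstep_iterate (tP c K'.main) n n (le_refl n)]
  have hmain : wIn [n] K'.main = (trNat n).map some ++ [some Γ'.cons, none] := by
    show (trNat n ++ [Γ'.cons]).map some ++ [none] = _
    rw [List.map_append, List.append_assoc]
    rfl
  show _ = applT (tP c K'.main) (wIn [n] K'.main) (applT (tP c K'.rev) (wIn [n] K'.rev)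
    (applT (tP c K'.aux) (wIn [n] K'.aux) (applT (tP c K'.stack) (wIn [n] K'.stack)
      (tq c (sInit c)))))
  rw [hmain]
  unfold applT
  rw [List.foldl_append]
  rfl

theorem startT_primrec (c : Code) : Primrec (startT c) := by
  unfold startT
  refine primrec₂_bracket.comp (Primrec.const _) (primrec₂_bracket.comp (Primrec.const _) ?_)
  refine Primrec.snd.comp ?_
  refine Primrec.nat_iterate (f := fun n : ℕ => n) Primrec.id ?_ ?_
  · exact Primrec.pair Primrec.id (Primrec.const _)
  · exact (bstep_primrec _ _).comp Primrec.snd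

theorem phi_computable (c : Code) : Computable (phi c) := by
  have h : Primrec (fun n : ℕ => ((prems c, (startT c n, LieTerm.zero)) : QuasiIdentity)) :=
    Primrec.pair (Primrec.const _) (Primrec.pair (startT_primrec c) (Primrec.const _))
  refine (h.of_eq ?_).to_comp
  intro n
  rw [startT_eq]
  rfl

/-- The main theorem: no computable set of quasi-identities contains all those which are true in
every Lie ring and excludes all those which fail in some finite nilpotent Lie ring of
exponent `p`. -/
theorem no_separation (p : ℕ) [Fact p.Prime] (S : QuasiIdentity → Prop) (hS : ComputablePred S)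
    (h1 : ∀ φ : QuasiIdentity, (∀ (L : Type) [LieRing L], φ.TrueIn L) → S φ)
    (h2 : ∀ φ : QuasiIdentity, (∃ (L : Type) (_ : LieRing L), Finite L ∧ LieRing.IsNilpotent L ∧
      (∀ x : L, p • x = 0) ∧ ¬ φ.TrueIn L) → ¬ S φ) : False := by
  obtain ⟨c, hc⟩ := exists_diag_code
  refine diag_inseparable (fun n => S (phi c n)) ?_ ?_ ?_
  · exact ComputablePred.computable_of_manyOneReducible ⟨phi c, phi_computable c, fun _ => Iff.rfl⟩ hS
  · intro n hn
    exact h1 _ (fun L _ => phi_true c n (hc n 0 hn) L)
  · intro n hn
    exact h2 _ (phi_false p c n (hc n 1 hn))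

end Pool.Agent.H84.LieQ
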