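import Mathlib

/-!
Pointwise algebra for the boosted timelike field.

`B` is a symmetric bilinear form on `V`, and `u`, `T` is an orthonormal pair of negative vectors
such that `B` is nonnegative on the orthogonal complement of `u`, `T`.
-/

namespace Pool.Agent.H84.Lor

variable {V : Type*} [NormedAddCommGroup V] [NormedSpace ℝ V]

/-- An orthonormal pair of negative vectors with nonnegative complement. -/
structure NegPair (B : V →L[ℝ] V →L[ℝ] ℝ) (u T : V) : Prop where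
  symm : ∀ ζ ξ, B ζ ξ = B ξ ζ
  uu : B u u = -1
  TT : B T T = -1
  uT : B u T = 0
  psd : ∀ ζ, 0 ≤ B ζ ζ + (B ζ u) ^ 2 + (B ζ T) ^ 2

/-- The positive form attached to a pair `u`, `T`. -/
noncomputable def Nf (B : V →L[ℝ] V →L[ℝ] ℝ) (u T ζ : V) : ℝ := B ζ ζ + 2 * (B ζ u) ^ 2 + 2 * (B ζ T) ^ 2

variable {B : V →L[ℝ] V →L[ℝ] ℝ} {u T : V}

theorem NegPair.nonneg (h : NegPair B u T) (ζ : V) : 0 ≤ Nf B u T ζ := by
  have := h.psd ζ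
  unfold Nf
  nlinarith [sq_nonneg (B ζ u), sq_nonneg (B ζ T)]

theorem NegPair.sq_u_le (h : NegPair B u T) (ζ : V) : (B ζ u) ^ 2 ≤ Nf B u T ζ := by
  have := h.psd ζ
  unfold Nf
  nlinarith [sq_nonneg (B ζ u), sq_nonneg (B ζ T)]

theorem NegPair.sq_T_le (h : NegPair B u T) (ζ : V) : (B ζ T) ^ 2 ≤ Nf B u T ζ := by
  have := h.psd ζ
  unfold Nf
  nlinarith [sq_nonneg (B ζ u), sq_nonneg (B ζ T)]

theorem NegPair.cs (h : NegPair B u T) (ζ ξ : V) :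
    (B ζ ξ) ^ 2 ≤ Nf B u T ζ * Nf B u T ξ := by
  have hTu : B T u = 0 := by rw [h.symm]; exact h.uT
  have key : ∀ t : ℝ, 0 ≤ Nf B u T ξ * (t * t) + (2 * B ζ ξ) * t + Nf B u T ζ := by
    intro t
    have h1 := h.nonneg (ζ + t • (ξ + (2 * B ξ u) • u + (2 * B ξ T) • T))
    have h2 : Nf B u T (ζ + t • (ξ + (2 * B ξ u) • u + (2 * B ξ T) • T)) =
        Nf B u T ξ * (t * t) + (2 * B ζ ξ) * t + Nf B u T ζ := by
      unfold Nf
      simp only [map_add, map_smul, add_apply, smul_apply,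
        smul_eq_mul, h.uu, h.TT, h.uT, hTu]
      rw [h.symm u ζ, h.symm T ζ, h.symm u ξ, h.symm T ξ, h.symm ξ ζ]
      ring
    rw [h2] at h1
    exact h1
  have h3 := discrim_le_zero key
  unfold discrim at h3
  nlinarith [h3]

private theorem mulb {a b A C : ℝ} (ha : |a| ≤ A) (hb : |b| ≤ C) : |a * b| ≤ A * C := by
  rw [abs_mul]
  exact mul_le_mul ha hb (abs_nonneg _) ((abs_nonneg _).trans ha)

private theorem scal_aux (c s p e φ g q θ τ FF k L x y : ℝ) (hc : 1 ≤ c) (hs : 1 / 2 ≤ s)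
    (hp : |p| ≤ c * s) (he : |e| ≤ c) (hφ : |φ| ≤ c) (hg : |g| ≤ c * s) (hq : |q| ≤ c * s ^ 2)
    (hθ : |θ| ≤ c * s ^ 2) (hτ : |τ| ≤ c * s) (hFF : FF ≤ c) (hk : |k| ≤ c) (hL : |L| ≤ c)
    (hx : |x| ≤ 11 * c ^ 4 * s) (hy : |y| ≤ 6 * c ^ 5) :
    -x ^ 2 + L ^ 2 * θ + y ^ 2 * e + k ^ 2 * p ^ 2 * FF +
      2 * (x * y * p - x * k * p * φ + y * L * q - L * k * p * τ - y * k * p * g) ≤
      (c ^ 3 + 144 * c ^ 11 + c ^ 5 + 132 * c ^ 10 + 22 * c ^ 7 + 12 * c ^ 7 + 2 * c ^ 4 +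
        12 * c ^ 8) * s ^ 2 := by
  have hc0 : 0 ≤ c := by linarith
  have hs0 : 0 ≤ s := by linarith
  have h1 : L ^ 2 * θ ≤ (c * c) * (c * s ^ 2) := by
    have := mulb (mulb hL hL) hθ
    have h2 := le_abs_self (L * L * θ)
    nlinarith
  have h2 : y ^ 2 * e ≤ ((6 * c ^ 5) * (6 * c ^ 5)) * c := by
    have := mulb (mulb hy hy) he
    have h2 := le_abs_self (y * y * e)
    nlinarith
  have h2' : ((6 * c ^ 5) * (6 * c ^ 5)) * c ≤ 144 * c ^ 11 * s ^ 2 := by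
    have : (1 : ℝ) ≤ 4 * s ^ 2 := by nlinarith
    have hc11 : 0 ≤ c ^ 11 := by positivity
    nlinarith
  have h3 : k ^ 2 * p ^ 2 * FF ≤ (c * c) * ((c * s) * (c * s)) * c := by
    have h4 : k ^ 2 * p ^ 2 ≤ (c * c) * ((c * s) * (c * s)) := by
      have := mulb (mulb hk hk) (mulb hp hp)
      have h2 := le_abs_self (k * k * (p * p))
      nlinarith
    have h5 : k ^ 2 * p ^ 2 * FF ≤ k ^ 2 * p ^ 2 * c :=
      mul_le_mul_of_nonneg_left hFF (by positivity)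
    have h6 : k ^ 2 * p ^ 2 * c ≤ (c * c) * ((c * s) * (c * s)) * c :=
      mul_le_mul_of_nonneg_right h4 hc0
    exact h5.trans h6
  have h4 : x * y * p ≤ (11 * c ^ 4 * s) * (6 * c ^ 5) * (c * s) :=
    (le_abs_self _).trans (mulb (mulb hx hy) hp)
  have h5 : -(x * k * p * φ) ≤ (11 * c ^ 4 * s) * c * (c * s) * c :=
    (neg_le_abs _).trans (mulb (mulb (mulb hx hk) hp) hφ)
  have h6 : y * L * q ≤ (6 * c ^ 5) * c * (c * s ^ 2) :=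
    (le_abs_self _).trans (mulb (mulb hy hL) hq)
  have h7 : -(L * k * p * τ) ≤ c * c * (c * s) * (c * s) :=
    (neg_le_abs _).trans (mulb (mulb (mulb hL hk) hp) hτ)
  have h8 : -(y * k * p * g) ≤ (6 * c ^ 5) * c * (c * s) * (c * s) :=
    (neg_le_abs _).trans (mulb (mulb (mulb hy hk) hp) hg)
  have h9 : 0 ≤ x ^ 2 := sq_nonneg x
  have e1 : (c * c) * (c * s ^ 2) = c ^ 3 * s ^ 2 := by ring
  have e3 : (c * c) * ((c * s) * (c * s)) * c = c ^ 5 * s ^ 2 := by ring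
  have e4 : (11 * c ^ 4 * s) * (6 * c ^ 5) * (c * s) = 66 * c ^ 10 * s ^ 2 := by ring
  have e5 : (11 * c ^ 4 * s) * c * (c * s) * c = 11 * c ^ 7 * s ^ 2 := by ring
  have e6 : (6 * c ^ 5) * c * (c * s ^ 2) = 6 * c ^ 7 * s ^ 2 := by ring
  have e7 : c * c * (c * s) * (c * s) = c ^ 4 * s ^ 2 := by ring
  have e8 : (6 * c ^ 5) * c * (c * s) * (c * s) = 6 * c ^ 8 * s ^ 2 := by ring
  rw [e1] at h1
  rw [e3] at h3
  rw [e4] at h4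
  rw [e5] at h5
  rw [e6] at h6
  rw [e7] at h7
  rw [e8] at h8
  have h2'' := h2.trans h2'
  have expand : (c ^ 3 + 144 * c ^ 11 + c ^ 5 + 132 * c ^ 10 + 22 * c ^ 7 + 12 * c ^ 7 +
      2 * c ^ 4 + 12 * c ^ 8) * s ^ 2 = c ^ 3 * s ^ 2 + 144 * c ^ 11 * s ^ 2 + c ^ 5 * s ^ 2 +
      2 * (66 * c ^ 10 * s ^ 2) + 2 * (11 * c ^ 7 * s ^ 2) + 2 * (6 * c ^ 7 * s ^ 2) +
      2 * (c ^ 4 * s ^ 2) + 2 * (6 * c ^ 8 * s ^ 2) := by ring
  rw [expand]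
  linarith

private theorem sum_bound {c s φ q : ℝ} (hc : 1 ≤ c) (hs : 1 / 2 ≤ s) (hφ : |φ| ≤ c)
    (hq : |q| ≤ c * s ^ 2) : |φ + q| ≤ 5 * c * s ^ 2 := by
  have h1 := abs_add_le φ q
  have h0 : (1 / 4 : ℝ) ≤ s ^ 2 := by
    have := pow_le_pow_left₀ (by norm_num) hs 2
    norm_num at this
    linarith
  have h3 : c * (1 / 4) ≤ c * s ^ 2 := mul_le_mul_of_nonneg_left h0 (by linarith)
  linarith

private theorem x_bound {c s p g φ q k L D : ℝ} (hc : 1 ≤ c) (hs : 0 ≤ s) (hs2 : s ^ 2 = D)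
    (hD0 : 0 < D) (hLD : L ^ 2 ≤ D) (hp : |p| ≤ c * s) (hg : |g| ≤ c * s)
    (hφq : |φ + q| ≤ 5 * c * s ^ 2) (hk : |k| ≤ c) (hL : |L| ≤ c) :
    |k * g * (1 - L ^ 2 / D) - 2 * k * L * p * (φ + q) / D| ≤ 11 * c ^ 4 * s := by
  have h1 : |1 - L ^ 2 / D| ≤ 1 := by
    have h2 : L ^ 2 / D ≤ 1 := (div_le_one hD0).2 hLD
    have h3 : 0 ≤ L ^ 2 / D := by positivity
    rw [abs_le]
    constructor <;> linarith
  have h2 : |k * g * (1 - L ^ 2 / D)| ≤ c * (c * s) * 1 := mulb (mulb hk hg) h1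
  have h3 : |2 * k * L * p * (φ + q) / D| ≤ 10 * c ^ 4 * s := by
    rw [abs_div, abs_of_pos hD0, div_le_iff₀ hD0]
    have h4 : |2 * k * L * p * (φ + q)| ≤ 2 * c * c * (c * s) * (5 * c * s ^ 2) := by
      have h22 : |(2 : ℝ)| ≤ 2 := by norm_num
      exact mulb (mulb (mulb (mulb h22 hk) hL) hp) hφq
    have h5 : 2 * c * c * (c * s) * (5 * c * s ^ 2) = 10 * c ^ 4 * s * D := by
      rw [← hs2]; ring
    rw [← h5]
    exact h4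
  have h4 := abs_sub (k * g * (1 - L ^ 2 / D)) (2 * k * L * p * (φ + q) / D)
  have h5 : c * (c * s) * 1 ≤ c ^ 4 * s := by
    have h6 : c * (c * s) * 1 = c ^ 2 * s := by ring
    rw [h6]
    exact mul_le_mul_of_nonneg_right (pow_le_pow_right₀ hc (by norm_num)) hs
  have h7 : 11 * c ^ 4 * s = c ^ 4 * s + 10 * c ^ 4 * s := by ring
  rw [h7]
  exact h4.trans (add_le_add (h2.trans h5) h3)

private theorem y_bound {c s p g φ q k L D : ℝ} (hc : 1 ≤ c) (hs2 : s ^ 2 = D)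
    (hD0 : 0 < D) (hp : |p| ≤ c * s) (hg : |g| ≤ c * s)
    (hφq : |φ + q| ≤ 5 * c * s ^ 2) (hk : |k| ≤ c) (hL : |L| ≤ c) :
    |(k ^ 2 * p * L * g - k * L ^ 2 * (φ + q)) / D| ≤ 6 * c ^ 5 := by
  rw [abs_div, abs_of_pos hD0, div_le_iff₀ hD0]
  have h1 : |k ^ 2 * p * L * g| ≤ (c * c) * (c * s) * c * (c * s) := by
    have hkk : |k ^ 2| ≤ c * c := by rw [pow_two]; exact mulb hk hk
    exact mulb (mulb (mulb hkk hp) hL) hg
  have h2 : |k * L ^ 2 * (φ + q)| ≤ c * (c * c) * (5 * c * s ^ 2) := by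
    have hLL : |L ^ 2| ≤ c * c := by rw [pow_two]; exact mulb hL hL
    exact mulb (mulb hk hLL) hφq
  have h3 := abs_sub (k ^ 2 * p * L * g) (k * L ^ 2 * (φ + q))
  have e1 : (c * c) * (c * s) * c * (c * s) = c ^ 5 * D := by rw [← hs2]; ring
  have e2 : c * (c * c) * (5 * c * s ^ 2) = 5 * (c ^ 4 * D) := by rw [← hs2]; ring
  rw [e1] at h1
  rw [e2] at h2
  have h4 : c ^ 4 * D ≤ c ^ 5 * D :=
    mul_le_mul_of_nonneg_right (pow_le_pow_right₀ hc (by norm_num)) hD0.le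
  have h5 : 6 * c ^ 5 * D = c ^ 5 * D + 5 * (c ^ 5 * D) := by ring
  rw [h5]
  refine h3.trans (add_le_add h1 (h2.trans ?_))
  exact mul_le_mul_of_nonneg_left h4 (by norm_num)

private theorem basic_bounds {C1 C2 C5 k c : ℝ} (hC1 : 0 ≤ C1) (hC2 : 0 ≤ C2)
    (hC50 : 0 ≤ C5) (hcc : c ≤ c ^ 2) (hc0 : 0 ≤ c)
    (b1 : 1 / k ≤ c) (b2 : C5 * C1 ≤ c) (b3 : C2 * C5 ≤ c) (b4 : C2 * C5 ^ 2 ≤ c)
    (b5 : C2 * C5 * C1 ≤ c) (b6 : C1 ≤ c)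
    {p e φ g q θ τ D s : ℝ} (hφ : φ ^ 2 ≤ C1)
    (hg : g ^ 2 ≤ (e + 2 * p ^ 2) * C1) (hθ0 : 0 ≤ θ) (hθ : θ ≤ C2 * (e + 2 * p ^ 2))
    (hq : q ^ 2 ≤ (e + 2 * p ^ 2) * θ) (hτ : τ ^ 2 ≤ θ * C1) (hD0 : 0 < D) (hs2 : s ^ 2 = D)
    (hs0 : 0 ≤ s) (hp2 : p ^ 2 ≤ (1 / k) * D) (ha2 : e + 2 * p ^ 2 ≤ C5 * D) :
    |p| ≤ c * s ∧ |φ| ≤ c ∧ |g| ≤ c * s ∧ |q| ≤ c * s ^ 2 ∧ |θ| ≤ c * s ^ 2 ∧ |τ| ≤ c * s := by
  have hθ2 : θ ≤ C2 * (C5 * D) := hθ.trans (mul_le_mul_of_nonneg_left ha2 hC2)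
  refine ⟨?_, ?_, ?_, ?_, ?_, ?_⟩
  · apply abs_le_of_sq_le_sq _ (by positivity)
    calc p ^ 2 ≤ (1 / k) * D := hp2
      _ ≤ c ^ 2 * D := mul_le_mul_of_nonneg_right (b1.trans hcc) hD0.le
      _ = (c * s) ^ 2 := by rw [mul_pow, hs2]
  · exact abs_le_of_sq_le_sq (hφ.trans (b6.trans hcc)) hc0
  · apply abs_le_of_sq_le_sq _ (by positivity)
    calc g ^ 2 ≤ (e + 2 * p ^ 2) * C1 := hg
      _ ≤ (C5 * D) * C1 := mul_le_mul_of_nonneg_right ha2 hC1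
      _ = (C5 * C1) * D := by ring
      _ ≤ c ^ 2 * D := mul_le_mul_of_nonneg_right (b2.trans hcc) hD0.le
      _ = (c * s) ^ 2 := by rw [mul_pow, hs2]
  · rw [hs2]
    apply abs_le_of_sq_le_sq _ (by positivity)
    calc q ^ 2 ≤ (e + 2 * p ^ 2) * θ := hq
      _ ≤ (C5 * D) * (C2 * (C5 * D)) := mul_le_mul ha2 hθ2 hθ0 (by positivity)
      _ = (C2 * C5 ^ 2) * D ^ 2 := by ring
      _ ≤ c ^ 2 * D ^ 2 := mul_le_mul_of_nonneg_right (b4.trans hcc) (by positivity)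
      _ = (c * D) ^ 2 := by ring
  · rw [hs2, abs_of_nonneg hθ0]
    calc θ ≤ C2 * (C5 * D) := hθ2
      _ = (C2 * C5) * D := by ring
      _ ≤ c * D := mul_le_mul_of_nonneg_right b3 hD0.le
  · apply abs_le_of_sq_le_sq _ (by positivity)
    calc τ ^ 2 ≤ θ * C1 := hτ
      _ ≤ (C2 * (C5 * D)) * C1 := mul_le_mul_of_nonneg_right hθ2 hC1
      _ = (C2 * C5 * C1) * D := by ring
      _ ≤ c ^ 2 * D := mul_le_mul_of_nonneg_right (b5.trans hcc) hD0.le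
      _ = (c * s) ^ 2 := by rw [mul_pow, hs2]

theorem D_bounds {C3 k e p L D : ℝ} (hC3 : 0 ≤ C3) (hk : 0 < k) (hkC : k * C3 ≤ 1)
    (he : |e| ≤ C3) (hL : L = 1 + k * e / 2) (hD : D = L ^ 2 + 2 * k * p ^ 2) :
    1 / 2 ≤ L ∧ L ≤ 3 / 2 ∧ 1 / 4 ≤ D ∧ L ^ 2 ≤ D ∧ p ^ 2 ≤ (1 / k) * D ∧
      e + 2 * p ^ 2 ≤ (4 * C3 + 1 / k) * D := by
  have he' := abs_le.1 he
  have hke : |k * e| ≤ 1 := by
    rw [abs_mul, abs_of_pos hk]
    exact (mul_le_mul_of_nonneg_left he hk.le).trans hkC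
  have hke' := abs_le.1 hke
  have hL1 : 1 / 2 ≤ L := by rw [hL]; linarith [hke'.1]
  have hL2 : L ≤ 3 / 2 := by rw [hL]; linarith [hke'.2]
  have hLsq : 1 / 4 ≤ L ^ 2 := by
    have := pow_le_pow_left₀ (by norm_num) hL1 2
    norm_num at this
    linarith
  have hkp : 0 ≤ k * p ^ 2 := by positivity
  have hD1 : 1 / 4 ≤ D := by rw [hD]; linarith
  have hLD : L ^ 2 ≤ D := by rw [hD]; linarith
  have hkpD : 2 * (k * p ^ 2) ≤ D := by rw [hD]; linarith [sq_nonneg L]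
  have p1 : 0 ≤ 1 / k := by positivity
  refine ⟨hL1, hL2, hD1, hLD, ?_, ?_⟩
  · have h2 : p ^ 2 = (1 / k) * (k * p ^ 2) := by field_simp
    rw [h2]
    exact mul_le_mul_of_nonneg_left (by linarith) p1
  · have h1 : 2 * p ^ 2 ≤ (1 / k) * D := by
      have h2 : 2 * p ^ 2 = (1 / k) * (2 * (k * p ^ 2)) := by field_simp
      rw [h2]
      exact mul_le_mul_of_nonneg_left hkpD p1
    have h3 : 4 * C3 * (1 / 4) ≤ 4 * C3 * D := mul_le_mul_of_nonneg_left hD1 (by positivity)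
    have h4 : (4 * C3 + 1 / k) * D = 4 * C3 * D + (1 / k) * D := by ring
    rw [h4]
    linarith [he'.2]

/-- The scalar inequality behind the boost. -/
theorem scal (C1 C2 C3 k : ℝ) (hC1 : 0 ≤ C1) (hC2 : 0 ≤ C2) (hC3 : 0 ≤ C3) (hk : 0 < k)
    (hkC : k * C3 ≤ 1) :
    ∃ C4 : ℝ, 0 ≤ C4 ∧ ∀ p e φ g q θ τ FF L D : ℝ, |e| ≤ C3 → φ ^ 2 ≤ C1 → FF ≤ C1 →
      g ^ 2 ≤ (e + 2 * p ^ 2) * C1 → 0 ≤ θ → θ ≤ C2 * (e + 2 * p ^ 2) →
      q ^ 2 ≤ (e + 2 * p ^ 2) * θ → τ ^ 2 ≤ θ * C1 →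
      L = 1 + k * e / 2 → D = L ^ 2 + 2 * k * p ^ 2 →
      ∀ x y, x = k * g * (1 - L ^ 2 / D) - 2 * k * L * p * (φ + q) / D →
      y = (k ^ 2 * p * L * g - k * L ^ 2 * (φ + q)) / D →
      -x ^ 2 + L ^ 2 * θ + y ^ 2 * e + k ^ 2 * p ^ 2 * FF +
      2 * (x * y * p - x * k * p * φ + y * L * q - L * k * p * τ - y * k * p * g) ≤ C4 * D := by
  have hC50 : 0 ≤ 4 * C3 + 1 / k := by positivity
  obtain ⟨C5, hC5⟩ : ∃ C5, C5 = 4 * C3 + 1 / k := ⟨_, rfl⟩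
  rw [← hC5] at hC50
  obtain ⟨c, hcdef⟩ : ∃ c, c = 2 + 1 / k + k + C1 + C3 + C5 * C1 + C2 * C5 + C2 * C5 ^ 2 +
    C2 * C5 * C1 := ⟨_, rfl⟩
  have p1 : 0 ≤ 1 / k := by positivity
  have p2 : 0 ≤ C5 * C1 := by positivity
  have p3 : 0 ≤ C2 * C5 := by positivity
  have p4 : 0 ≤ C2 * C5 ^ 2 := by positivity
  have p5 : 0 ≤ C2 * C5 * C1 := by positivity
  have hc2 : 2 ≤ c := by linarith
  have hc : 1 ≤ c := by linarith
  have hc0 : 0 ≤ c := by linarith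
  have hcc : c ≤ c ^ 2 := by
    rw [pow_two]
    exact le_mul_of_one_le_left hc0 hc
  have b1 : 1 / k ≤ c := by linarith
  have b2 : C5 * C1 ≤ c := by linarith
  have b3 : C2 * C5 ≤ c := by linarith
  have b4 : C2 * C5 ^ 2 ≤ c := by linarith
  have b5 : C2 * C5 * C1 ≤ c := by linarith
  have b6 : C1 ≤ c := by linarith
  have b7 : C3 ≤ c := by linarith
  have b8 : k ≤ c := by linarith
  clear hcdef
  refine ⟨c ^ 3 + 144 * c ^ 11 + c ^ 5 + 132 * c ^ 10 + 22 * c ^ 7 + 12 * c ^ 7 + 2 * c ^ 4 +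
    12 * c ^ 8, by positivity, ?_⟩
  intro p e φ g q θ τ FF L D he hφ hFF hg hθ0 hθ hq hτ hL hD x y hx hy
  obtain ⟨hL1, hL2, hD1, hLD, hp2, ha2⟩ := D_bounds hC3 hk hkC he hL hD
  rw [← hC5] at ha2
  have hD0 : 0 < D := lt_of_lt_of_le (by norm_num) hD1
  have hs2 : (Real.sqrt D) ^ 2 = D := Real.sq_sqrt hD0.le
  have hs0 : 0 ≤ Real.sqrt D := Real.sqrt_nonneg D
  have hs1 : 1 / 2 ≤ Real.sqrt D := by
    apply Real.le_sqrt_of_sq_le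
    have : ((1 : ℝ) / 2) ^ 2 = 1 / 4 := by norm_num
    rw [this]
    exact hD1
  obtain ⟨hpb, hφb, hgb, hqb, hθb, hτb⟩ := basic_bounds hC1 hC2 hC50 hcc hc0 b1 b2 b3 b4 b5 b6
    hφ hg hθ0 hθ hq hτ hD0 hs2 hs0 hp2 ha2
  have hkb : |k| ≤ c := by rw [abs_of_pos hk]; exact b8
  have hLb : |L| ≤ c := by
    rw [abs_of_pos (lt_of_lt_of_le (by norm_num) hL1)]
    exact (hL2.trans (by norm_num)).trans hc2
  have hφq := sum_bound hc hs1 hφb hqb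
  have hxb := x_bound hc hs0 hs2 hD0 hLD hpb hgb hφq hkb hLb
  have hyb := y_bound hc hs2 hD0 hpb hgb hφq hkb hLb
  rw [← hx] at hxb
  rw [← hy] at hyb
  have := scal_aux c (Real.sqrt D) p e φ g q θ τ FF k L x y hc hs1 hpb (he.trans b7) hφb hgb hqb
    hθb hτb (hFF.trans b6) hkb hLb hxb hyb
  rw [hs2] at this
  exact this

end Pool.Agent.H84.Lor
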