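import Pool.Agent.H84.LorAlg

/-!
The boosted timelike vector: for a velocity `v` and a unit timelike vector `T` we put
`L = 1 + k e / 2`, `p = B v T`, `e = B v v`, `hat = L T - k p v`, `D = L ^ 2 + 2 k p ^ 2`; the
boosted vector is `hat / √D`.
-/

namespace Pool.Agent.H84.Lor

variable {V : Type*} [NormedAddCommGroup V] [NormedSpace ℝ V]
variable {B : V →L[ℝ] V →L[ℝ] ℝ} {u T : V}

/-- Cauchy-Schwarz for the nonnegative form `B + u² + T²`. -/
theorem NegPair.psd_cs (h : NegPair B u T) (ζ ξ : V) :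
    (B ζ ξ + B ζ u * B ξ u + B ζ T * B ξ T) ^ 2 ≤
      (B ζ ζ + (B ζ u) ^ 2 + (B ζ T) ^ 2) * (B ξ ξ + (B ξ u) ^ 2 + (B ξ T) ^ 2) := by
  have key : ∀ t : ℝ, 0 ≤ (B ξ ξ + (B ξ u) ^ 2 + (B ξ T) ^ 2) * (t * t) +
      (2 * (B ζ ξ + B ζ u * B ξ u + B ζ T * B ξ T)) * t +
      (B ζ ζ + (B ζ u) ^ 2 + (B ζ T) ^ 2) := by
    intro t
    have h1 := h.psd (ζ + t • ξ)
    simp only [map_add, map_smul, add_apply, smul_apply, smul_eq_mul] at h1
    rw [h.symm ξ ζ] at h1
    linarith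
  have h3 := discrim_le_zero key
  unfold discrim at h3
  linarith

/-- Another unit timelike vector orthogonal to `u` again gives a `NegPair`. -/
theorem NegPair.change (h : NegPair B u T) {S : V} (hSS : B S S = -1) (hSu : B S u = 0) :
    NegPair B u S := by
  refine ⟨h.symm, h.uu, hSS, by rw [h.symm]; exact hSu, fun ζ => ?_⟩
  have h1 := h.psd_cs ζ S
  have h2 := h.psd S
  have h3 := h.psd ζ
  rw [hSS, hSu] at h1 h2
  generalize B ζ T = a at *
  generalize B S T = b at *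
  generalize B ζ S = c at *
  generalize B ζ ζ = q at *
  generalize B ζ u = d at *
  have h4 : (a + b * c) ^ 2 ≤ (q + d ^ 2 + c ^ 2) * (b ^ 2 - 1) := by nlinarith
  have h5 : 0 ≤ b ^ 2 - 1 := by linarith
  rcases h5.lt_or_eq with h6 | h6
  · by_contra hneg
    push Not at hneg
    have := mul_neg_of_neg_of_pos hneg h6
    linarith [sq_nonneg (a + b * c)]
  · rw [← h6, mul_zero] at h4
    have h7 : a + b * c = 0 := by
      have := le_antisymm h4 (sq_nonneg _)
      exact pow_eq_zero_iff (by norm_num) |>.1 this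
    have h8 : a ^ 2 = c ^ 2 := by
      have : a = -(b * c) := by linarith
      rw [this]
      have hb : b ^ 2 = 1 := by linarith
      calc (-(b * c)) ^ 2 = b ^ 2 * c ^ 2 := by ring
        _ = c ^ 2 := by rw [hb, one_mul]
    linarith

/-- The factor `L`. -/
noncomputable def bL (B : V →L[ℝ] V →L[ℝ] ℝ) (k : ℝ) (v : V) : ℝ := 1 + k * B v v / 2

/-- The factor `D`. -/
noncomputable def bD (B : V →L[ℝ] V →L[ℝ] ℝ) (k : ℝ) (T v : V) : ℝ :=
  (bL B k v) ^ 2 + 2 * k * (B v T) ^ 2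

/-- The unnormalised boosted vector. -/
noncomputable def bHat (B : V →L[ℝ] V →L[ℝ] ℝ) (k : ℝ) (T v : V) : V :=
  (bL B k v) • T - (k * B v T) • v

/-- The boosted vector. -/
noncomputable def bT (B : V →L[ℝ] V →L[ℝ] ℝ) (k : ℝ) (T v : V) : V :=
  (Real.sqrt (bD B k T v))⁻¹ • bHat B k T v

theorem bHat_bHat (h : NegPair B u T) (k : ℝ) (v : V) :
    B (bHat B k T v) (bHat B k T v) = -bD B k T v := by
  unfold bHat bD bL
  simp only [map_sub, map_smul, sub_apply, smul_apply, smul_eq_mul]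
  rw [h.symm T v, h.TT]
  ring

theorem bD_pos {C3 k : ℝ} (hC3 : 0 ≤ C3) (hk : 0 < k) (hkC : k * C3 ≤ 1) {v : V}
    (he : |B v v| ≤ C3) : 1 / 4 ≤ bD B k T v := by
  obtain ⟨_, _, h, _⟩ := D_bounds (L := bL B k v) (D := bD B k T v) (p := B v T) hC3 hk hkC he
    rfl rfl
  exact h

theorem NegPair.bT (h : NegPair B u T) {C3 k : ℝ} (hC3 : 0 ≤ C3) (hk : 0 < k)
    (hkC : k * C3 ≤ 1) {v : V} (he : |B v v| ≤ C3) (hvu : B v u = 0) :
    NegPair B u (bT B k T v) := by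
  have hD : 0 < bD B k T v := lt_of_lt_of_le (by norm_num) (bD_pos (T := T) hC3 hk hkC he)
  have hs : Real.sqrt (bD B k T v) ^ 2 = bD B k T v := Real.sq_sqrt hD.le
  have hs0 : Real.sqrt (bD B k T v) ≠ 0 := (Real.sqrt_pos.2 hD).ne'
  apply h.change
  · unfold Lor.bT
    simp only [map_smul, smul_apply, smul_eq_mul]
    rw [bHat_bHat h]
    field_simp
    rw [hs]
  · unfold Lor.bT bHat
    simp only [map_smul, map_sub, sub_apply, smul_apply, smul_eq_mul]
    rw [h.symm T u, h.uT, hvu]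
    ring

theorem v_bound {C3 k : ℝ} (hC3 : 0 ≤ C3) (hk : 0 < k)
    (hkC : k * C3 ≤ 1) {v : V} (he : |B v v| ≤ C3) (hvu : B v u = 0) :
    Nf B u (bT B k T v) v ≤ C3 + 9 / (4 * k) := by
  have hD : 0 < bD B k T v := lt_of_lt_of_le (by norm_num) (bD_pos (T := T) hC3 hk hkC he)
  have hs : Real.sqrt (bD B k T v) ^ 2 = bD B k T v := Real.sq_sqrt hD.le
  have hs0 : Real.sqrt (bD B k T v) ≠ 0 := (Real.sqrt_pos.2 hD).ne'
  have he' := abs_le.1 he
  have hke : |k * B v v| ≤ 1 := by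
    rw [abs_mul, abs_of_pos hk]
    exact (mul_le_mul_of_nonneg_left he hk.le).trans hkC
  have hke' := abs_le.1 hke
  have h1 : (B v (bT B k T v)) ^ 2 = (B v T) ^ 2 * (1 - k * B v v / 2) ^ 2 / bD B k T v := by
    unfold Lor.bT
    simp only [map_smul, smul_eq_mul]
    rw [mul_pow, inv_pow, hs]
    unfold bHat
    simp only [map_smul, map_sub, smul_eq_mul]
    unfold bL
    field_simp
    ring
  unfold Nf
  rw [hvu, h1]
  have h2 : (1 - k * B v v / 2) ^ 2 ≤ 9 / 4 := by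
    have h3 : |1 - k * B v v / 2| ≤ 3 / 2 := by
      rw [abs_le]; constructor <;> linarith [hke'.1, hke'.2]
    have h4 := sq_le_sq' (abs_le.1 h3).1 (abs_le.1 h3).2
    linarith
  have h3 : 2 * k * (B v T) ^ 2 ≤ bD B k T v := by
    unfold bD
    linarith [sq_nonneg (bL B k v)]
  have h4 : (B v T) ^ 2 * (1 - k * B v v / 2) ^ 2 / bD B k T v ≤ 9 / (8 * k) := by
    rw [div_le_iff₀ hD]
    have h5 : (B v T) ^ 2 * (1 - k * B v v / 2) ^ 2 ≤ (B v T) ^ 2 * (9 / 4) :=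
      mul_le_mul_of_nonneg_left h2 (sq_nonneg _)
    have h6 : (B v T) ^ 2 * (9 / 4) = 9 / (8 * k) * (2 * k * (B v T) ^ 2) := by
      field_simp
      ring
    rw [h6] at h5
    exact h5.trans (mul_le_mul_of_nonneg_left h3 (by positivity))
  have h5 : 9 / (4 * k) = 2 * (9 / (8 * k)) := by field_simp; ring
  rw [h5]
  have h6 : (2 : ℝ) * 0 ^ 2 = 0 := by norm_num
  rw [h6]
  linarith [he'.2]

end Pool.Agent.H84.Lor
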