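import Pool.Agent.H84.LorBoost

/-!
Derivative of the boosted vector.
-/

namespace Pool.Agent.H84.Lor

variable {V : Type*} [NormedAddCommGroup V] [NormedSpace ℝ V]
variable {B : V →L[ℝ] V →L[ℝ] ℝ} {u T : V}

/-- The logarithmic derivative of `√D`. -/
noncomputable def bM (B : V →L[ℝ] V →L[ℝ] ℝ) (k : ℝ) (T v F Θ : V) : ℝ :=
  (k * bL B k v * B v F + 2 * k * B v T * (B F T + B v Θ)) / bD B k T v

/-- `√D` times the tangential derivative of the boosted vector. -/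
noncomputable def bW (B : V →L[ℝ] V →L[ℝ] ℝ) (k : ℝ) (T v F Θ : V) : V :=
  (k * B v F - bM B k T v F Θ * bL B k v) • T + (bL B k v) • Θ +
    (bM B k T v F Θ * (k * B v T) - k * (B F T + B v Θ)) • v - (k * B v T) • F

theorem bW_u (hTu : B T u = 0) (k : ℝ) {v F Θ : V} (hvu : B v u = 0) (hFu : B F u = 0)
    (hΘu : B Θ u = 0) : B (bW B k T v F Θ) u = 0 := by
  unfold bW
  simp only [map_add, map_sub, map_smul, add_apply, sub_apply, smul_apply, smul_eq_mul]
  rw [hTu, hvu, hFu, hΘu]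
  ring

theorem bW_bHat (h : NegPair B u T) (k : ℝ) {v F Θ : V} (hΘT : B Θ T = 0)
    (hD : bD B k T v ≠ 0) : B (bW B k T v F Θ) (bHat B k T v) = 0 := by
  have hM : bM B k T v F Θ * bD B k T v =
      k * bL B k v * B v F + 2 * k * B v T * (B F T + B v Θ) := by
    unfold bM
    field_simp
  have h1 : B (bW B k T v F Θ) (bHat B k T v) =
      -(k * bL B k v * B v F + 2 * k * B v T * (B F T + B v Θ)) +
        bM B k T v F Θ * bD B k T v := by
    unfold bW bHat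
    simp only [map_add, map_sub, map_smul, add_apply, sub_apply, smul_apply, smul_eq_mul]
    rw [h.TT, hΘT, h.symm T v, h.symm Θ v, h.symm F v]
    generalize bM B k T v F Θ = M
    unfold bD bL
    ring
  rw [h1, hM]
  ring

theorem bW_norm (C1 C2 C3 k : ℝ) (hC1 : 0 ≤ C1) (hC2 : 0 ≤ C2) (hC3 : 0 ≤ C3) (hk : 0 < k)
    (hkC : k * C3 ≤ 1) :
    ∃ C4 : ℝ, 0 ≤ C4 ∧ ∀ (B : V →L[ℝ] V →L[ℝ] ℝ) (u T v F Θ : V), NegPair B u T → B v u = 0 →
      B F u = 0 → B Θ u = 0 → B Θ T = 0 → |B v v| ≤ C3 → Nf B u T F ≤ C1 →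
      Nf B u T Θ ≤ C2 * Nf B u T v →
      B (bW B k T v F Θ) (bW B k T v F Θ) ≤ C4 * bD B k T v := by
  obtain ⟨C4, hC4, H⟩ := scal C1 C2 C3 k hC1 hC2 hC3 hk hkC
  refine ⟨C4, hC4, fun B u T v F Θ h hvu hFu hΘu hΘT he hF hΘ => ?_⟩
  have hNv : Nf B u T v = B v v + 2 * (B v T) ^ 2 := by
    unfold Nf; rw [hvu]; ring
  have hNΘ : Nf B u T Θ = B Θ Θ := by
    unfold Nf; rw [hΘu, hΘT]; ring
  have hNF : Nf B u T F = B F F + 2 * (B F T) ^ 2 := by
    unfold Nf; rw [hFu]; ring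
  have hD : 1 / 4 ≤ bD B k T v := bD_pos hC3 hk hkC he
  have hD0 : bD B k T v ≠ 0 := by linarith
  have hsF : (B F T) ^ 2 ≤ C1 := (h.sq_T_le F).trans hF
  have hFF : B F F ≤ C1 := by
    rw [hNF] at hF
    linarith [sq_nonneg (B F T)]
  have hg : (B v F) ^ 2 ≤ (B v v + 2 * (B v T) ^ 2) * C1 := by
    rw [← hNv]
    exact (h.cs v F).trans (mul_le_mul_of_nonneg_left hF (h.nonneg v))
  have hθ0 : 0 ≤ B Θ Θ := by rw [← hNΘ]; exact h.nonneg Θ
  have hθ : B Θ Θ ≤ C2 * (B v v + 2 * (B v T) ^ 2) := by rw [← hNv, ← hNΘ]; exact hΘ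
  have hq : (B v Θ) ^ 2 ≤ (B v v + 2 * (B v T) ^ 2) * B Θ Θ := by
    rw [← hNv, ← hNΘ]
    exact h.cs v Θ
  have hτ : (B Θ F) ^ 2 ≤ B Θ Θ * C1 := by
    rw [← hNΘ]
    exact (h.cs Θ F).trans (mul_le_mul_of_nonneg_left hF (h.nonneg Θ))
  have key := H (B v T) (B v v) (B F T) (B v F) (B v Θ) (B Θ Θ) (B Θ F) (B F F) (bL B k v)
    (bD B k T v) he hsF hFF hg hθ0 hθ hq hτ rfl rfl
    (k * B v F - bM B k T v F Θ * bL B k v)
    (bM B k T v F Θ * (k * B v T) - k * (B F T + B v Θ))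
    (by
      unfold bM
      field_simp
      ring)
    (by
      have hM : bM B k T v F Θ * bD B k T v =
          k * bL B k v * B v F + 2 * k * B v T * (B F T + B v Θ) := by
        unfold bM
        field_simp
      rw [eq_div_iff hD0]
      have h1 : (bM B k T v F Θ * (k * B v T) - k * (B F T + B v Θ)) * bD B k T v =
          (bM B k T v F Θ * bD B k T v) * (k * B v T) - k * (B F T + B v Θ) * bD B k T v := by
        ring
      rw [h1, hM]
      unfold bD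
      ring)
  refine le_trans (le_of_eq ?_) key
  unfold bW
  simp only [map_add, map_sub, map_smul, add_apply, sub_apply, smul_apply, smul_eq_mul]
  rw [h.TT, hΘT, h.symm T v, h.symm T Θ, hΘT, h.symm Θ v, h.symm F v, h.symm F Θ, h.symm T F]
  ring

end Pool.Agent.H84.Lor
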