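import Mathlib

/-!
Global existence for an autonomous ordinary differential equation with an a priori bound.
-/

namespace Pool.Agent.H84.Lor

open Set Metric
open scoped NNReal

variable {Z : Type*} [NormedAddCommGroup Z] [NormedSpace ℝ Z] [FiniteDimensional ℝ Z]

/-- Cut-off of a vector field. -/
theorem exists_cutoff {f : Z → Z} (hf : ContDiff ℝ 1 f) (K : ℝ) :
    ∃ (g : Z → Z) (L : ℝ≥0) (M : ℝ≥0), LipschitzWith L g ∧ (∀ z, ‖g z‖ ≤ M) ∧
      ∀ z, ‖z‖ ≤ K + 1 → g z = f z := by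
  obtain ⟨R, hR, hKR⟩ : ∃ R : ℝ, 0 < R ∧ K + 1 ≤ R := ⟨max 1 (K + 1), by positivity, le_max_right _ _⟩
  let χ : ContDiffBump (0 : Z) := ⟨R, R + 1, hR, by linarith⟩
  have hsmooth : ContDiff ℝ 1 (fun z => χ z • f z) := (χ.contDiff).smul hf
  have hsupp : HasCompactSupport (fun z => χ z • f z) := χ.hasCompactSupport.smul_right
  obtain ⟨L, hL⟩ := hsmooth.lipschitzWith_of_hasCompactSupport hsupp (by norm_num)
  obtain ⟨M, hM⟩ := hsmooth.continuous.bounded_above_of_compact_support hsupp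
  refine ⟨_, L, M.toNNReal, hL, fun z => (hM z).trans (Real.le_coe_toNNReal M), fun z hz => ?_⟩
  have : χ z = 1 := χ.one_of_mem_closedBall (by
    rw [mem_closedBall, dist_zero_right]
    exact hz.trans hKR)
  simp only [this, one_smul]

omit [FiniteDimensional ℝ Z] in
/-- Global solutions of a bounded Lipschitz equation on bounded intervals. -/
theorem exists_sol_of_lipschitz [CompleteSpace Z] {g : Z → Z} {L M : ℝ≥0} (hL : LipschitzWith L g)
    (hM : ∀ z, ‖g z‖ ≤ M) (x₀ : Z) (T : ℝ) (hT : 0 < T) :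
    ∃ α : ℝ → Z, α 0 = x₀ ∧ ∀ t ∈ Ioo (-T) T, HasDerivAt α (g (α t)) t := by
  have hP : IsPicardLindelof (fun _ => g) (tmin := -T) (tmax := T)
      ⟨0, by constructor <;> linarith⟩ x₀ (M * T.toNNReal) 0 M L := by
    apply IsPicardLindelof.of_time_independent
    · intro x _
      exact hM x
    · exact hL.lipschitzOnWith
    · simp only [sub_zero, zero_sub, neg_neg, max_self, NNReal.coe_mul, NNReal.coe_zero]
      rw [Real.coe_toNNReal _ hT.le]
  obtain ⟨α, h0, hα⟩ := hP.exists_eq_forall_mem_Icc_hasDerivWithinAt₀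
  exact ⟨α, h0, fun t ht => (hα t (Ioo_subset_Icc_self ht)).hasDerivAt (Icc_mem_nhds ht.1 ht.2)⟩

/-- Uniqueness. -/
theorem eqOn_of_contDiff {f : Z → Z} (hf : ContDiff ℝ 1 f) {I : Set ℝ} (hI : I.OrdConnected)
    {z w : ℝ → Z} (hz : ∀ t ∈ I, HasDerivAt z (f (z t)) t) (hw : ∀ t ∈ I, HasDerivAt w (f (w t)) t)
    {t₀ : ℝ} (ht₀ : t₀ ∈ I) (h0 : z t₀ = w t₀) : EqOn z w I := by
  intro t ht
  have hsub : uIcc t₀ t ⊆ I := hI.uIcc_subset ht₀ ht
  have hcz : ContinuousOn z (uIcc t₀ t) := fun s hs =>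
    (hz s (hsub hs)).continuousAt.continuousWithinAt
  have hcw : ContinuousOn w (uIcc t₀ t) := fun s hs =>
    (hw s (hsub hs)).continuousAt.continuousWithinAt
  obtain ⟨K₁, hK₁⟩ := isCompact_uIcc.exists_bound_of_continuousOn hcz
  obtain ⟨K₂, hK₂⟩ := isCompact_uIcc.exists_bound_of_continuousOn hcw
  obtain ⟨g, L, M, hL, -, hg⟩ := exists_cutoff hf (max K₁ K₂)
  have hgz : ∀ s ∈ uIcc t₀ t, f (z s) = g (z s) := fun s hs =>
    (hg _ ((hK₁ s hs).trans (by linarith [le_max_left K₁ K₂]))).symm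
  have hgw : ∀ s ∈ uIcc t₀ t, f (w s) = g (w s) := fun s hs =>
    (hg _ ((hK₂ s hs).trans (by linarith [le_max_right K₁ K₂]))).symm
  rcases le_total t₀ t with h | h
  · rw [uIcc_of_le h] at hsub hcz hcw hgz hgw
    have := ODE_solution_unique_of_mem_Icc_right (v := fun _ => g) (s := fun _ => univ) (K := L)
      (fun _ _ => hL.lipschitzOnWith) hcz
      (fun s hs => by
        rw [← hgz s (Ico_subset_Icc_self hs)]
        exact (hz s (hsub (Ico_subset_Icc_self hs))).hasDerivWithinAt)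
      (fun _ _ => trivial) hcw
      (fun s hs => by
        rw [← hgw s (Ico_subset_Icc_self hs)]
        exact (hw s (hsub (Ico_subset_Icc_self hs))).hasDerivWithinAt)
      (fun _ _ => trivial) h0
    exact this ⟨h, le_rfl⟩
  · rw [uIcc_of_ge h] at hsub hcz hcw hgz hgw
    have := ODE_solution_unique_of_mem_Icc_left (v := fun _ => g) (s := fun _ => univ) (K := L)
      (fun _ _ => hL.lipschitzOnWith) hcz
      (fun s hs => by
        rw [← hgz s (Ioc_subset_Icc_self hs)]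
        exact (hz s (hsub (Ioc_subset_Icc_self hs))).hasDerivWithinAt)
      (fun _ _ => trivial) hcw
      (fun s hs => by
        rw [← hgw s (Ioc_subset_Icc_self hs)]
        exact (hw s (hsub (Ioc_subset_Icc_self hs))).hasDerivWithinAt)
      (fun _ _ => trivial) h0
    exact this ⟨le_rfl, h⟩

/-- A continuous function with a self-improving bound. -/
theorem bootstrap {g : ℝ → ℝ} {T K : ℝ} (hg : ∀ t ∈ Ico 0 T, ContinuousAt g t) (h0 : g 0 ≤ K)
    (h : ∀ s ∈ Ico 0 T, (∀ t ∈ Ico 0 s, g t < K + 1) → ∀ t ∈ Ico 0 s, g t ≤ K) :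
    ∀ t ∈ Ico 0 T, g t ≤ K := by
  have key : ∀ t ∈ Ico 0 T, g t < K + 1 := by
    by_contra hcon
    push Not at hcon
    obtain ⟨t₁, ht₁, hgt₁⟩ := hcon
    have hsub : Icc 0 t₁ ⊆ Ico 0 T := fun x hx => ⟨hx.1, lt_of_le_of_lt hx.2 ht₁.2⟩
    have hcont : ContinuousOn g (Icc 0 t₁) := fun x hx => (hg x (hsub hx)).continuousWithinAt
    have hclosed : IsClosed (Icc 0 t₁ ∩ g ⁻¹' (Ici (K + 1))) :=
      hcont.preimage_isClosed_of_isClosed isClosed_Icc isClosed_Ici
    have hcomp : IsCompact (Icc 0 t₁ ∩ g ⁻¹' (Ici (K + 1))) :=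
      isCompact_Icc.of_isClosed_subset hclosed inter_subset_left
    obtain ⟨s, hs, hmin⟩ := hcomp.exists_isLeast ⟨t₁, ⟨ht₁.1, le_rfl⟩, hgt₁⟩
    have hs0 : 0 < s := by
      rcases hs.1.1.lt_or_eq with h1 | h1
      · exact h1
      · exfalso
        have h2 : K + 1 ≤ g s := hs.2
        rw [← h1] at h2
        linarith
    have hlt : ∀ t ∈ Ico 0 s, g t < K + 1 := by
      intro t ht
      by_contra hge
      push Not at hge
      have := hmin ⟨⟨ht.1, ht.2.le.trans hs.1.2⟩, hge⟩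
      exact absurd ht.2 (not_lt.2 this)
    have hle := h s (hsub hs.1) hlt
    have hlim : g s ≤ K := by
      have hc : ContinuousWithinAt g (Iio s) s := (hg s (hsub hs.1)).continuousWithinAt
      have : (nhdsWithin s (Iio s)).NeBot := inferInstance
      refine le_of_tendsto hc ?_
      have : Ico 0 s ∈ nhdsWithin s (Iio s) := Ico_mem_nhdsLT hs0
      filter_upwards [this] with x hx using hle x hx
    have h2 : K + 1 ≤ g s := hs.2
    linarith
  intro t ht
  obtain ⟨s, hts, hsT⟩ := exists_between ht.2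
  exact h s ⟨ht.1.trans hts.le, hsT⟩ (fun x hx => key x ⟨hx.1, hx.2.trans hsT⟩) t ⟨ht.1, hts⟩

/-- Global existence under an a priori bound. -/
theorem exists_global {f : Z → Z} (hf : ContDiff ℝ 1 f) (x₀ : Z)
    (hb : ∀ T : ℝ, ∃ K : ℝ, ∀ (I : Set ℝ) (z : ℝ → Z), I.OrdConnected → (0 : ℝ) ∈ I → z 0 = x₀ →
      (∀ t ∈ I, HasDerivAt z (f (z t)) t) → ∀ t ∈ I, |t| ≤ T → ‖z t‖ ≤ K) :
    ∃ z : ℝ → Z, z 0 = x₀ ∧ ∀ t, HasDerivAt z (f (z t)) t := by
  have : CompleteSpace Z := FiniteDimensional.complete ℝ Z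
  have hloc : ∀ T : ℝ, 0 < T → ∃ α : ℝ → Z, α 0 = x₀ ∧
      ∀ t ∈ Ioo (-T) T, HasDerivAt α (f (α t)) t := by
    intro T hT
    obtain ⟨K', hK'⟩ := hb T
    obtain ⟨K, hKdef⟩ : ∃ K, K = max K' ‖x₀‖ := ⟨_, rfl⟩
    have hKx : ‖x₀‖ ≤ K := by rw [hKdef]; exact le_max_right _ _
    have hK : ∀ (I : Set ℝ) (z : ℝ → Z), I.OrdConnected → (0 : ℝ) ∈ I → z 0 = x₀ →
      (∀ t ∈ I, HasDerivAt z (f (z t)) t) → ∀ t ∈ I, |t| ≤ T → ‖z t‖ ≤ K := by
      intro I z h1 h2 h3 h4 t ht htT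
      rw [hKdef]
      exact (hK' I z h1 h2 h3 h4 t ht htT).trans (le_max_left _ _)
    obtain ⟨g, L, M, hL, hM, hg⟩ := exists_cutoff hf K
    obtain ⟨α, h0, hα⟩ := exists_sol_of_lipschitz hL hM x₀ T hT
    have hpos : ∀ t ∈ Ico 0 T, ‖α t‖ ≤ K := by
      apply bootstrap (g := fun t => ‖α t‖)
      · intro t ht
        exact (hα t ⟨by linarith [ht.1], ht.2⟩).continuousAt.norm
      · rw [h0]; exact hKx
      · intro s hs hlt t ht
        refine hK (Ico 0 s) α ordConnected_Ico ⟨le_rfl, lt_of_le_of_lt ht.1 ht.2⟩ h0 ?_ t ht ?_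
        · intro x hx
          rw [← hg (α x) (hlt x hx).le]
          exact hα x ⟨by linarith [hx.1], hx.2.trans hs.2⟩
        · rw [abs_of_nonneg ht.1]
          exact (ht.2.trans hs.2).le
    have hneg : ∀ t ∈ Ico 0 T, ‖α (-t)‖ ≤ K := by
      apply bootstrap (g := fun t => ‖α (-t)‖)
      · intro t ht
        have h1 := (hα (-t) ⟨by linarith [ht.2], by linarith [ht.1]⟩).continuousAt
        exact (h1.comp (f := fun t => -t) continuous_neg.continuousAt).norm
      · rw [neg_zero, h0]; exact hKx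
      · intro s hs hlt t ht
        refine hK (Ioc (-s) 0) α ordConnected_Ioc
          ⟨by linarith [lt_of_le_of_lt ht.1 ht.2], le_rfl⟩ h0 ?_ (-t)
          ⟨by linarith [ht.2], by linarith [ht.1]⟩ ?_
        · intro x hx
          have h1 := hlt (-x) ⟨by linarith [hx.2], by linarith [hx.1]⟩
          rw [neg_neg] at h1
          rw [← hg (α x) h1.le]
          exact hα x ⟨by linarith [hx.1, hs.2], by linarith [hx.2]⟩
        · rw [abs_neg, abs_of_nonneg ht.1]
          exact (ht.2.trans hs.2).le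
    refine ⟨α, h0, fun t ht => ?_⟩
    have hbd : ‖α t‖ ≤ K := by
      rcases le_total 0 t with h1 | h1
      · exact hpos t ⟨h1, ht.2⟩
      · have := hneg (-t) ⟨by linarith, by linarith [ht.1]⟩
        rwa [neg_neg] at this
    rw [← hg (α t) (by linarith)]
    exact hα t ht
  choose! α hα0 hα using hloc
  refine ⟨fun t => α (|t| + 1) t, ?_, fun t => ?_⟩
  · simp only [abs_zero, zero_add]
    exact hα0 1 one_pos
  · have hT : 0 < |t| + 2 := by positivity
    have hlt : |t| < |t| + 2 := by linarith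
    have hmem : t ∈ Ioo (-(|t| + 2)) (|t| + 2) := abs_lt.1 hlt
    have h1 : HasDerivAt (α (|t| + 2)) (f (α (|t| + 2) t)) t := hα _ hT t hmem
    have heq : (fun s => α (|s| + 1) s) =ᶠ[nhds t] α (|t| + 2) := by
      have hnear : ∀ᶠ s in nhds t, |s| < |t| + 1 := by
        have : ContinuousAt (fun s : ℝ => |s|) t := continuous_abs.continuousAt
        exact this.eventually_lt continuousAt_const (by simp)
      filter_upwards [hnear] with s hs
      have hpos1 : 0 < |s| + 1 := by positivity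
      have hmem1 : s ∈ Ioo (-(|s| + 1)) (|s| + 1) := abs_lt.1 (by linarith)
      refine eqOn_of_contDiff hf (ordConnected_Ioo (a := -(|s| + 1)) (b := |s| + 1)) (hα _ hpos1) ?_
        (t₀ := 0) ⟨by linarith, hpos1⟩ ((hα0 _ hpos1).trans (hα0 _ hT).symm) hmem1
      intro x hx
      exact hα _ hT x ⟨by linarith [hx.1], by linarith [hx.2]⟩
    have h2 := h1.congr_of_eventuallyEq heq
    have h3 : α (|t| + 1) t = α (|t| + 2) t := heq.self_of_nhds
    change HasDerivAt (fun t => α (|t| + 1) t) (f (α (|t| + 1) t)) t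
    rw [h3]
    exact h2

section Geodesic

set_option maxSynthPendingDepth 3

variable {E : Type*} [NormedAddCommGroup E] [NormedSpace ℝ E] [FiniteDimensional ℝ E]

omit [FiniteDimensional ℝ E] in
theorem el_hasDerivAt {G : E → E →L[ℝ] E →L[ℝ] ℝ} (hG : ContDiff ℝ 2 G) {γ γ' : ℝ → E} {t : ℝ}
    {a : E} (h1 : HasDerivAt γ (γ' t) t) (h2 : HasDerivAt γ' a t) (e : E) :
    HasDerivAt (fun s => G (γ s) (γ' s) e)
      (fderiv ℝ G (γ t) (γ' t) (γ' t) e + G (γ t) a e) t := by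
  have h3 : HasDerivAt (fun s => G (γ s)) (fderiv ℝ G (γ t) (γ' t)) t :=
    ((hG.differentiable (by norm_num)) (γ t)).hasFDerivAt.comp_hasDerivAt t h1
  have h4 := (h3.clm_apply h2).clm_apply (hasDerivAt_const t e)
  refine h4.congr_deriv ?_
  simp

omit [FiniteDimensional ℝ E] in
theorem fderiv_quad {G : E → E →L[ℝ] E →L[ℝ] ℝ} (hG : ContDiff ℝ 2 G) (x v e : E) :
    fderiv ℝ (fun p => G p v v) x e = fderiv ℝ G x e v v := by
  have h3 : HasFDerivAt G (fderiv ℝ G x) x := ((hG.differentiable (by norm_num)) x).hasFDerivAt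
  have h4 := (h3.clm_apply (hasFDerivAt_const v x)).clm_apply (hasFDerivAt_const v x)
  rw [h4.fderiv]
  simp

/-- The right hand side functional of the geodesic equation. -/
noncomputable def elRhs (G : E → E →L[ℝ] E →L[ℝ] ℝ) (x v : E) : E →L[ℝ] ℝ :=
  (1 / 2 : ℝ) • (ContinuousLinearMap.apply ℝ ℝ v).comp
    ((ContinuousLinearMap.apply ℝ (E →L[ℝ] ℝ) v).comp (fderiv ℝ G x)) - fderiv ℝ G x v v

/-- The geodesic vector field. -/
noncomputable def geoField (G : E → E →L[ℝ] E →L[ℝ] ℝ) (z : E × E) : E × E :=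
  (z.2, (G z.1).inverse (elRhs G z.1 z.2))

theorem exists_equiv {A : E →L[ℝ] E →L[ℝ] ℝ} (hA : ∀ a, (∀ b, A a b = 0) → a = 0) :
    ∃ e : E ≃L[ℝ] (E →L[ℝ] ℝ), (e : E →L[ℝ] (E →L[ℝ] ℝ)) = A := by
  have hinj : Function.Injective (A : E →ₗ[ℝ] (E →L[ℝ] ℝ)) := by
    rw [injective_iff_map_eq_zero]
    intro a ha
    apply hA
    intro b
    have : A a = 0 := ha
    rw [this]; rfl
  have hfin : Module.finrank ℝ E = Module.finrank ℝ (E →L[ℝ] ℝ) := by
    have h1 : Module.finrank ℝ (E →L[ℝ] ℝ) = Module.finrank ℝ (E →ₗ[ℝ] ℝ) :=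
      (LinearEquiv.finrank_eq (LinearMap.toContinuousLinearMap :
        (E →ₗ[ℝ] ℝ) ≃ₗ[ℝ] (E →L[ℝ] ℝ))).symm
    rw [h1]
    exact (Subspace.dual_finrank_eq (K := ℝ) (V := E)).symm
  let e₀ := LinearEquiv.ofInjectiveOfFinrankEq _ hinj hfin
  refine ⟨e₀.toContinuousLinearEquiv, ?_⟩
  ext a b
  rfl

theorem contDiff_geoField {G : E → E →L[ℝ] E →L[ℝ] ℝ} (hG : ContDiff ℝ 2 G)
    (hnd : ∀ x a, (∀ b, G x a b = 0) → a = 0) : ContDiff ℝ 1 (geoField G) := by
  have hfd : ContDiff ℝ 1 (fderiv ℝ G) := hG.fderiv_right (by norm_num)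
  have h1 : ContDiff ℝ 1 (fun z : E × E => elRhs G z.1 z.2) := by
    unfold elRhs
    have hz1 : ContDiff ℝ 1 (fun z : E × E => fderiv ℝ G z.1) := hfd.comp contDiff_fst
    have hz2 : ContDiff ℝ 1 (fun z : E × E => z.2) := contDiff_snd
    have ha : ContDiff ℝ 1 (fun z : E × E => ContinuousLinearMap.apply ℝ ℝ z.2) :=
      (ContinuousLinearMap.apply ℝ ℝ).contDiff.comp hz2
    have hb : ContDiff ℝ 1 (fun z : E × E => ContinuousLinearMap.apply ℝ (E →L[ℝ] ℝ) z.2) :=
      (ContinuousLinearMap.apply ℝ (E →L[ℝ] ℝ)).contDiff.comp hz2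
    exact ((ha.clm_comp (hb.clm_comp hz1)).const_smul _).sub
      ((hz1.clm_apply hz2).clm_apply hz2)
  have h2 : ContDiff ℝ 1 (fun z : E × E => (G z.1).inverse) := by
    rw [contDiff_iff_contDiffAt]
    intro z
    obtain ⟨e, he⟩ := exists_equiv (hnd z.1)
    have h3 : ContDiffAt ℝ 1 ContinuousLinearMap.inverse (G z.1) := by
      rw [← he]
      exact contDiffAt_map_inverse e
    exact h3.comp z ((hG.of_le (by norm_num)).comp contDiff_fst).contDiffAt
  exact contDiff_snd.prodMk (h2.clm_apply h1)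

theorem geoField_spec {G : E → E →L[ℝ] E →L[ℝ] ℝ} (hnd : ∀ x a, (∀ b, G x a b = 0) → a = 0)
    (x v a : E) : (geoField G (x, v)).2 = a ↔
      ∀ e, fderiv ℝ G x v v e + G x a e = 1 / 2 * fderiv ℝ G x e v v := by
  obtain ⟨e, he⟩ := exists_equiv (hnd x)
  have h1 : (geoField G (x, v)).2 = e.symm (elRhs G x v) := by
    unfold geoField
    simp only
    rw [← he, ContinuousLinearMap.inverse_equiv]
    rfl
  rw [h1, ContinuousLinearEquiv.symm_apply_eq]
  have h2 : e a = G x a := by rw [← he]; rfl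
  rw [h2, ContinuousLinearMap.ext_iff]
  constructor
  · intro h b
    rw [← h b]
    simp [elRhs]
  · intro h b
    have := h b
    simp only [elRhs, sub_apply, smul_apply, smul_eq_mul, ContinuousLinearMap.coe_comp,
      Function.comp, ContinuousLinearMap.apply_apply]
    linarith

/-- The geodesic (Euler-Lagrange) equation of a metric tensor `G` at the time `t`. -/
def GeoAt (G : E → E → E → ℝ) (γ : ℝ → E) (t : ℝ) : Prop :=
  DifferentiableAt ℝ γ t ∧ DifferentiableAt ℝ (deriv γ) t ∧ ∀ e : E,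
    deriv (fun s => G (γ s) (deriv γ s) e) t =
      1 / 2 * fderiv ℝ (fun p => G p (deriv γ t) (deriv γ t)) (γ t) e

theorem geoAt_iff {G : E → E →L[ℝ] E →L[ℝ] ℝ} (hG : ContDiff ℝ 2 G)
    (hnd : ∀ x a, (∀ b, G x a b = 0) → a = 0) {γ : ℝ → E} {t : ℝ} :
    GeoAt (fun p a b => G p a b) γ t ↔
      HasDerivAt (fun s => (γ s, deriv γ s)) (geoField G (γ t, deriv γ t)) t := by
  constructor
  · rintro ⟨h1, h2, h3⟩
    have h4 : (geoField G (γ t, deriv γ t)).2 = deriv (deriv γ) t := by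
      rw [geoField_spec hnd]
      intro e
      have h5 := (el_hasDerivAt hG h1.hasDerivAt h2.hasDerivAt e).deriv
      rw [← h5, h3 e, fderiv_quad hG]
    have h5 := h1.hasDerivAt.prodMk h2.hasDerivAt
    refine h5.congr_deriv ?_
    rw [← h4]
    rfl
  · intro h
    have h1 : HasDerivAt γ (deriv γ t) t := h.fst
    have h2 : HasDerivAt (deriv γ) (geoField G (γ t, deriv γ t)).2 t := h.snd
    refine ⟨h1.differentiableAt, h2.differentiableAt, fun e => ?_⟩
    rw [(el_hasDerivAt hG h1 h2 e).deriv, fderiv_quad hG]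
    exact (geoField_spec hnd _ _ _).1 rfl e

/-- A metric is complete as soon as the velocities of its geodesics are bounded on bounded
intervals, in terms of the initial data. -/
theorem complete_of_bound {G : E → E →L[ℝ] E →L[ℝ] ℝ} (hG : ContDiff ℝ 2 G)
    (hnd : ∀ x a, (∀ b, G x a b = 0) → a = 0)
    (hb : ∀ (x₀ v₀ : E) (T : ℝ), ∃ K : ℝ, ∀ (I : Set ℝ) (γ γ' : ℝ → E), I.OrdConnected →
      (0 : ℝ) ∈ I → γ 0 = x₀ → γ' 0 = v₀ → (∀ t ∈ I,
        HasDerivAt (fun s => (γ s, γ' s)) (geoField G (γ t, γ' t)) t) →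
      ∀ t ∈ I, |t| ≤ T → ‖γ' t‖ ≤ K)
    (γ : ℝ → E) (I : Set ℝ) (hIc : I.OrdConnected) (hIn : I.Nonempty)
    (hγ : ∀ t ∈ I, GeoAt (fun p a b => G p a b) γ t) :
    ∃ γ' : ℝ → E, (∀ t, GeoAt (fun p a b => G p a b) γ' t) ∧ EqOn γ' γ I := by
  obtain ⟨t₀, ht₀⟩ := hIn
  have hf := contDiff_geoField hG hnd
  obtain ⟨z, hz0, hz⟩ := exists_global hf (γ t₀, deriv γ t₀) (by
    intro T
    obtain ⟨K, hK⟩ := hb (γ t₀) (deriv γ t₀) T
    refine ⟨max (‖γ t₀‖ + |K| * T) K, ?_⟩
    intro J z hJ h0 hz0 hz t ht htT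
    have hd1 : ∀ s ∈ J, HasDerivAt (fun s => (z s).1) (z s).2 s := fun s hs => (hz s hs).fst
    have hbd : ∀ s ∈ J, |s| ≤ T → ‖(z s).2‖ ≤ K := by
      intro s hs hsT
      exact hK J (fun s => (z s).1) (fun s => (z s).2) hJ h0 (by simp [hz0]) (by simp [hz0]) hz
        s hs hsT
    have h2 := hbd t ht htT
    have h1 : ‖(z t).1‖ ≤ ‖γ t₀‖ + |K| * T := by
      have hsub : uIcc 0 t ⊆ J := hJ.uIcc_subset h0 ht
      have hconv : Convex ℝ (uIcc 0 t) := convex_uIcc 0 t
      have h3 : ‖(z t).1 - (z 0).1‖ ≤ |K| * ‖t - 0‖ := by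
        apply hconv.norm_image_sub_le_of_norm_hasDerivWithin_le
          (f := fun s => (z s).1) (f' := fun s => (z s).2)
        · intro s hs
          exact (hd1 s (hsub hs)).hasDerivWithinAt
        · intro s hs
          have hsT : |s| ≤ T := by
            have := abs_sub_left_of_mem_uIcc hs
            simp only [sub_zero] at this
            exact this.trans htT
          exact (hbd s (hsub hs) hsT).trans (le_abs_self K)
        · exact left_mem_uIcc
        · exact right_mem_uIcc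
      rw [hz0] at h3
      simp only [sub_zero, Real.norm_eq_abs] at h3
      have h4 : ‖(z t).1‖ ≤ ‖(z t).1 - γ t₀‖ + ‖γ t₀‖ := by
        simpa using norm_add_le ((z t).1 - γ t₀) (γ t₀)
      have h5 : |K| * |t| ≤ |K| * T := mul_le_mul_of_nonneg_left htT (abs_nonneg K)
      linarith
    rw [Prod.norm_def]
    exact max_le_max h1 h2)
  have hz' : ∀ t, HasDerivAt (fun s => z (s - t₀)) (geoField G (z (t - t₀))) t := by
    intro t
    exact (hz (t - t₀)).comp_sub_const t t₀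
  have h1 : ∀ t, HasDerivAt (fun s => (z (s - t₀)).1) (z (t - t₀)).2 t := fun t => (hz' t).fst
  have hderiv : deriv (fun s => (z (s - t₀)).1) = fun t => (z (t - t₀)).2 :=
    funext fun t => (h1 t).deriv
  refine ⟨fun s => (z (s - t₀)).1, fun t => ?_, ?_⟩
  · rw [geoAt_iff hG hnd, hderiv]
    exact hz' t
  · have heq : EqOn (fun s => z (s - t₀)) (fun s => (γ s, deriv γ s)) I := by
      refine eqOn_of_contDiff hf hIc (fun t _ => hz' t) (fun t ht => (geoAt_iff hG hnd).1 (hγ t ht))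
        ht₀ ?_
      simp [hz0]
    intro t ht
    have := heq ht
    simp only at this
    simp only [this]

end Geodesic

end Pool.Agent.H84.Lor
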