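import Pool.Agent.H84.LorTraj2

/-!
The model spaces of curvature `-r ^ 2 ≤ 0` in global coordinates `(s, y)` in `ℝ × ℝ^m`.
-/

namespace Pool.Agent.H84.Lor

open Set
open scoped ContDiff

set_option maxSynthPendingDepth 3

variable {m : ℕ}

/-- The coordinate space. -/
abbrev X (m : ℕ) : Type := ℝ × EuclideanSpace ℝ (Fin m)

/-- The ambient space of signature `(2, m)`. -/
abbrev W (m : ℕ) : Type := ℝ × ℝ × EuclideanSpace ℝ (Fin m)

/-- The ambient form. -/
noncomputable def Bm (m : ℕ) : W m →L[ℝ] W m →L[ℝ] ℝ :=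
  LinearMap.mkContinuous₂ (LinearMap.mk₂ ℝ
    (fun ζ ξ : W m => -(ζ.1 * ξ.1) - ζ.2.1 * ξ.2.1 + inner ℝ ζ.2.2 ξ.2.2)
    (by intro a b c; simp only [Prod.fst_add, Prod.snd_add, inner_add_left]; ring)
    (by intro a b c; simp only [Prod.smul_fst, Prod.smul_snd, smul_eq_mul, inner_smul_left,
          conj_trivial]; ring)
    (by intro a b c; simp only [Prod.fst_add, Prod.snd_add, inner_add_right]; ring)
    (by intro a b c; simp only [Prod.smul_fst, Prod.smul_snd, smul_eq_mul, inner_smul_right]; ring))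
    3 (by
      intro ζ ξ
      simp only [LinearMap.mk₂_apply]
      have h1 : |ζ.1 * ξ.1| ≤ ‖ζ‖ * ‖ξ‖ := by
        rw [abs_mul]
        exact mul_le_mul (norm_fst_le ζ) (norm_fst_le ξ) (abs_nonneg _) (norm_nonneg _)
      have h2 : |ζ.2.1 * ξ.2.1| ≤ ‖ζ‖ * ‖ξ‖ := by
        rw [abs_mul]
        exact mul_le_mul ((norm_fst_le ζ.2).trans (norm_snd_le ζ))
          ((norm_fst_le ξ.2).trans (norm_snd_le ξ)) (abs_nonneg _) (norm_nonneg _)
      have h3 : |inner ℝ ζ.2.2 ξ.2.2| ≤ ‖ζ‖ * ‖ξ‖ :=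
        (abs_real_inner_le_norm _ _).trans
          (mul_le_mul ((norm_snd_le ζ.2).trans (norm_snd_le ζ))
          ((norm_snd_le ξ.2).trans (norm_snd_le ξ)) (norm_nonneg _) (norm_nonneg _))
      rw [Real.norm_eq_abs, abs_le]
      have h1' := abs_le.1 h1
      have h2' := abs_le.1 h2
      have h3' := abs_le.1 h3
      constructor <;> linarith [h1'.1, h1'.2, h2'.1, h2'.2, h3'.1, h3'.2])

theorem Bm_apply (ζ ξ : W m) :
    Bm m ζ ξ = -(ζ.1 * ξ.1) - ζ.2.1 * ξ.2.1 + inner ℝ ζ.2.2 ξ.2.2 := rfl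

theorem Bm_symm (ζ ξ : W m) : Bm m ζ ξ = Bm m ξ ζ := by
  rw [Bm_apply, Bm_apply, real_inner_comm]
  ring

theorem Bm_nondeg (ζ : W m) (h : ∀ ξ, Bm m ζ ξ = 0) : ζ = 0 := by
  have h1 := h (1, 0, 0)
  have h2 := h (0, 1, 0)
  have h3 := h (0, 0, ζ.2.2)
  rw [Bm_apply] at h1 h2 h3
  simp at h1 h2 h3
  exact Prod.ext h1 (Prod.ext h2 h3)

theorem Bm_sig (a b : W m) (haa : Bm m a a = -1) (hbb : Bm m b b = -1) (hab : Bm m a b = 0)
    (ζ : W m) : 0 ≤ Bm m ζ ζ + (Bm m ζ a) ^ 2 + (Bm m ζ b) ^ 2 := by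
  by_contra hneg
  push Not at hneg
  -- the projection
  obtain ⟨η, hη⟩ : ∃ η, η = ζ + (Bm m ζ a) • a + (Bm m ζ b) • b := ⟨_, rfl⟩
  have hba : Bm m b a = 0 := by rw [Bm_symm]; exact hab
  have hηη : Bm m η η = Bm m ζ ζ + (Bm m ζ a) ^ 2 + (Bm m ζ b) ^ 2 := by
    rw [hη]
    simp only [map_add, map_smul, add_apply, smul_apply, smul_eq_mul]
    rw [haa, hbb, hab, hba, Bm_symm a ζ, Bm_symm b ζ]
    ring
  have hηa : Bm m η a = 0 := by
    rw [hη]
    simp only [map_add, map_smul, add_apply, smul_apply, smul_eq_mul]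
    rw [haa, hba]
    ring
  have hηb : Bm m η b = 0 := by
    rw [hη]
    simp only [map_add, map_smul, add_apply, smul_apply, smul_eq_mul]
    rw [hbb, hab]
    ring
  obtain ⟨x, hx0, hx⟩ := (Matrix.exists_mulVec_eq_zero_iff
    (M := !![a.1, b.1, η.1; a.2.1, b.2.1, η.2.1; 0, 0, 0])).2 (by
      rw [Matrix.det_fin_three]
      simp)
  have e1 := congrFun hx 0
  have e2 := congrFun hx 1
  simp [Matrix.mulVec, dotProduct, Fin.sum_univ_three] at e1 e2
  obtain ⟨θ, hθ⟩ : ∃ θ, θ = x 0 • a + x 1 • b + x 2 • η := ⟨_, rfl⟩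
  have hθ1 : θ.1 = 0 := by
    rw [hθ]
    simp only [Prod.fst_add, Prod.smul_fst, smul_eq_mul]
    linarith
  have hθ2 : θ.2.1 = 0 := by
    rw [hθ]
    simp only [Prod.fst_add, Prod.snd_add, Prod.smul_fst, Prod.smul_snd, smul_eq_mul]
    linarith
  have hpos : 0 ≤ Bm m θ θ := by
    rw [Bm_apply, hθ1, hθ2]
    simp
  have hval : Bm m θ θ = -(x 0) ^ 2 - (x 1) ^ 2 + (x 2) ^ 2 * Bm m η η := by
    rw [hθ]
    simp only [map_add, map_smul, add_apply, smul_apply, smul_eq_mul]
    rw [haa, hbb, hab, hba, hηa, hηb, Bm_symm a η, Bm_symm b η, hηa, hηb]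
    ring
  rw [← hηη] at hneg
  rw [hval] at hpos
  have h0 : x 0 = 0 := by nlinarith [sq_nonneg (x 0), sq_nonneg (x 1), sq_nonneg (x 2)]
  have h1 : x 1 = 0 := by nlinarith [sq_nonneg (x 0), sq_nonneg (x 1), sq_nonneg (x 2)]
  have h2 : x 2 = 0 := by
    rw [h0, h1] at hpos
    by_contra hne
    have : 0 < (x 2) ^ 2 := by positivity
    nlinarith
  apply hx0
  funext i
  fin_cases i
  · exact h0
  · exact h1
  · exact h2

/-- The warping factor. -/
noncomputable def wf (r : ℝ) (p : X m) : ℝ := Real.sqrt (1 + r ^ 2 * ‖p.2‖ ^ 2)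

theorem wf_sq (r : ℝ) (p : X m) : wf r p ^ 2 = 1 + r ^ 2 * ‖p.2‖ ^ 2 :=
  Real.sq_sqrt (by positivity)

theorem wf_pos (r : ℝ) (p : X m) : 0 < wf r p := Real.sqrt_pos.2 (by positivity)

theorem one_le_wf (r : ℝ) (p : X m) : 1 ≤ wf r p := by
  apply Real.le_sqrt_of_sq_le
  have : 0 ≤ r ^ 2 * ‖p.2‖ ^ 2 := by positivity
  linarith

theorem contDiff_wf (r : ℝ) : ContDiff ℝ ∞ (fun p : X m => wf r p) := by
  unfold wf
  apply ContDiff.sqrt
  · exact contDiff_const.add (contDiff_const.mul (contDiff_snd.norm_sq ℝ))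
  · intro p
    positivity

/-- The position vector. -/
noncomputable def um (r : ℝ) (p : X m) : W m :=
  (wf r p * Real.cos (r * p.1), wf r p * Real.sin (r * p.1), r • p.2)

/-- The pairing with `p.2`. -/
noncomputable def innL (p : X m) : X m →L[ℝ] ℝ :=
  (innerSL ℝ p.2 : EuclideanSpace ℝ (Fin m) →L[ℝ] ℝ).comp
    (ContinuousLinearMap.snd ℝ ℝ (EuclideanSpace ℝ (Fin m)))

/-- The time coordinate. -/
noncomputable def timL (m : ℕ) : X m →L[ℝ] ℝ :=
  ContinuousLinearMap.fst ℝ ℝ (EuclideanSpace ℝ (Fin m))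

/-- The tangent map. -/
noncomputable def jm (r : ℝ) (p : X m) : X m →L[ℝ] W m :=
  ((r * Real.cos (r * p.1) / wf r p) • innL p - (wf r p * Real.sin (r * p.1)) • timL m).prod
    (((r * Real.sin (r * p.1) / wf r p) • innL p + (wf r p * Real.cos (r * p.1)) • timL m).prod
      (ContinuousLinearMap.snd ℝ ℝ (EuclideanSpace ℝ (Fin m))))

theorem jm_apply (r : ℝ) (p a : X m) : jm r p a =
    (r * Real.cos (r * p.1) / wf r p * inner ℝ p.2 a.2 - wf r p * Real.sin (r * p.1) * a.1,
      r * Real.sin (r * p.1) / wf r p * inner ℝ p.2 a.2 + wf r p * Real.cos (r * p.1) * a.1,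
      a.2) := rfl

/-- The standard timelike field. -/
noncomputable def T0m (r : ℝ) (p : X m) : W m := (-Real.sin (r * p.1), Real.cos (r * p.1), 0)

theorem contDiff_um (r : ℝ) : ContDiff ℝ ∞ (um r : X m → W m) := by
  unfold um
  have h1 := contDiff_wf (m := m) r
  fun_prop

theorem contDiff_jm (r : ℝ) : ContDiff ℝ ∞ (jm r : X m → (X m →L[ℝ] W m)) := by
  rw [contDiff_clm_apply_iff]
  intro a
  simp only [jm_apply]
  have h1 := contDiff_wf (m := m) r
  have h2 : ContDiff ℝ ∞ (fun p : X m => inner ℝ p.2 a.2) :=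
    contDiff_snd.inner ℝ contDiff_const
  have h3 : ContDiff ℝ ∞ (fun p : X m => (wf r p)⁻¹) := h1.inv fun p => (wf_pos r p).ne'
  simp only [div_eq_mul_inv]
  fun_prop

theorem contDiff_T0m (r : ℝ) : ContDiff ℝ ∞ (T0m r : X m → W m) := by
  unfold T0m
  fun_prop

theorem um_um (r : ℝ) (p : X m) : Bm m (um r p) (um r p) = -1 := by
  rw [Bm_apply]
  unfold um
  simp only [inner_smul_left, inner_smul_right, real_inner_self_eq_norm_sq, conj_trivial]
  have h1 := wf_sq r p
  have h2 := Real.sin_sq_add_cos_sq (r * p.1)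
  have h3 : -(wf r p * Real.cos (r * p.1) * (wf r p * Real.cos (r * p.1))) -
      wf r p * Real.sin (r * p.1) * (wf r p * Real.sin (r * p.1)) =
      -(wf r p ^ 2 * (Real.sin (r * p.1) ^ 2 + Real.cos (r * p.1) ^ 2)) := by ring
  rw [h3, h2, h1]
  ring

theorem jm_um (r : ℝ) (p a : X m) : Bm m (jm r p a) (um r p) = 0 := by
  rw [Bm_apply, jm_apply]
  unfold um
  simp only [inner_smul_right]
  have h0 := (wf_pos r p).ne'
  have h2 := Real.sin_sq_add_cos_sq (r * p.1)
  have hc : inner ℝ a.2 p.2 = inner ℝ p.2 a.2 := real_inner_comm _ _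
  rw [hc]
  field_simp
  linear_combination (-(r * inner ℝ p.2 a.2)) * h2

theorem jm_jm (r : ℝ) (p a b : X m) : Bm m (jm r p a) (jm r p b) =
    -(1 + r ^ 2 * ‖p.2‖ ^ 2) * (a.1 * b.1) + inner ℝ a.2 b.2 -
      r ^ 2 * (inner ℝ p.2 a.2 * inner ℝ p.2 b.2) / (1 + r ^ 2 * ‖p.2‖ ^ 2) := by
  rw [Bm_apply, jm_apply, jm_apply]
  simp only
  have h0 := (wf_pos r p).ne'
  have h1 := wf_sq r p
  have h2 := Real.sin_sq_add_cos_sq (r * p.1)
  rw [← h1]
  field_simp
  linear_combination (-(r ^ 2 * inner ℝ p.2 a.2 * inner ℝ p.2 b.2) -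
    wf r p ^ 4 * a.1 * b.1) * h2

theorem T0m_T0m (r : ℝ) (p : X m) : Bm m (T0m r p) (T0m r p) = -1 := by
  rw [Bm_apply]
  unfold T0m
  simp only [inner_zero_left]
  linear_combination (-1 : ℝ) * Real.sin_sq_add_cos_sq (r * p.1)

theorem T0m_um (r : ℝ) (p : X m) : Bm m (T0m r p) (um r p) = 0 := by
  rw [Bm_apply]
  unfold T0m um
  simp only [inner_zero_left]
  ring

theorem hasDerivAt_wf (r : ℝ) (p a : X m) :
    HasDerivAt (fun t : ℝ => wf r (p + t • a)) (r ^ 2 * inner ℝ p.2 a.2 / wf r p) 0 := by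
  have h1 : HasDerivAt (fun t : ℝ => p.2 + t • a.2) a.2 0 := by
    have := ((hasDerivAt_id (0 : ℝ)).smul_const a.2).const_add p.2
    simpa using this
  have h2 : HasDerivAt (fun t : ℝ => ‖p.2 + t • a.2‖ ^ 2) (2 * inner ℝ p.2 a.2) 0 := by
    have := h1.norm_sq
    simpa using this
  have h3 : HasDerivAt (fun t : ℝ => 1 + r ^ 2 * ‖p.2 + t • a.2‖ ^ 2)
      (r ^ 2 * (2 * inner ℝ p.2 a.2)) 0 := (h2.const_mul (r ^ 2)).const_add 1
  have h4 := h3.sqrt (by
    have : 0 < 1 + r ^ 2 * ‖p.2 + (0 : ℝ) • a.2‖ ^ 2 := by positivity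
    exact this.ne')
  unfold wf
  simp only [Prod.snd_add, Prod.smul_snd]
  refine h4.congr_deriv ?_
  simp only [zero_smul, add_zero]
  field_simp

theorem fderiv_um (r : ℝ) (p a : X m) : fderiv ℝ (um r : X m → W m) p a = r • jm r p a := by
  have hd : HasFDerivAt (um r : X m → W m) (fderiv ℝ (um r : X m → W m) p) p :=
    ((contDiff_um r).differentiable (by norm_num) p).hasFDerivAt
  have h1 : HasDerivAt (fun t : ℝ => p + t • a) a 0 := by
    have := ((hasDerivAt_id (0 : ℝ)).smul_const a).const_add p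
    simpa using this
  have h2 : HasDerivAt (fun t : ℝ => um r (p + t • a)) (fderiv ℝ (um r : X m → W m) p a) 0 := by
    have h3 : HasFDerivAt (um r : X m → W m) (fderiv ℝ (um r : X m → W m) p)
        ((fun t : ℝ => p + t • a) 0) := by simpa using hd
    exact h3.comp_hasDerivAt 0 h1
  have h4 : HasDerivAt (fun t : ℝ => r * (p + t • a).1) (r * a.1) 0 := by
    have h5 : HasDerivAt (fun t : ℝ => (p + t • a).1) a.1 0 := h1.fst
    exact h5.const_mul r
  have hw := hasDerivAt_wf r p a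
  have h5 : HasDerivAt (fun t : ℝ => um r (p + t • a)) (r • jm r p a) 0 := by
    unfold um
    have h7 : HasDerivAt (fun t : ℝ => (p + t • a).2) a.2 0 := by
      have := ((hasDerivAt_id (0 : ℝ)).smul_const a.2).const_add p.2
      simpa using this
    have h6 := (hw.mul h4.cos).prodMk ((hw.mul h4.sin).prodMk (h7.const_smul r))
    refine h6.congr_deriv ?_
    rw [jm_apply]
    simp only [zero_smul, add_zero, Prod.smul_mk, smul_eq_mul]
    have h0 := (wf_pos r p).ne'
    refine Prod.ext ?_ (Prod.ext ?_ rfl)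
    · simp only
      field_simp
      ring
    · simp only
      field_simp
  exact h2.unique h5

theorem frame_model (r : ℝ) : Frame (Bm m) r (um r) (jm r : X m → (X m →L[ℝ] W m)) where
  symm := Bm_symm
  nondeg := Bm_nondeg
  sig := Bm_sig
  hu := contDiff_um r
  hj := contDiff_jm r
  uu := um_um r
  ju := jm_um r
  du := fderiv_um r
  djs := by
    intro p a b
    by_cases hr : r = 0
    · have : (jm r : X m → (X m →L[ℝ] W m)) = fun _ => jm r 0 := by
        funext q
        subst hr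
        refine ContinuousLinearMap.ext fun c => ?_
        rw [jm_apply, jm_apply]
        simp [wf]
      rw [this]
      simp
    · have h1 : fderiv ℝ (um r : X m → W m) = fun q => r • jm r q := by
        funext q
        refine ContinuousLinearMap.ext fun c => ?_
        rw [fderiv_um]
        rfl
      have hjd : DifferentiableAt ℝ (jm r : X m → (X m →L[ℝ] W m)) p :=
        (contDiff_jm r).differentiable (by norm_num) p
      have h2 : fderiv ℝ (fderiv ℝ (um r : X m → W m)) p = r • fderiv ℝ (jm r) p := by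
        rw [h1]
        exact (hjd.hasFDerivAt.const_smul r).fderiv
      have h3 : IsSymmSndFDerivAt ℝ (um r : X m → W m) p :=
        ((contDiff_um r).contDiffAt (x := p)).isSymmSndFDerivAt (by
          simp only [minSmoothness_of_isRCLikeNormedField]
          norm_cast)
      have h4 := h3 a b
      rw [h2] at h4
      simp only [smul_apply] at h4
      exact smul_right_injective _ hr h4
  tan := by
    intro p ξ hξ
    rw [Bm_apply] at hξ
    unfold um at hξ
    simp only [inner_smul_right] at hξ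
    have h0 := (wf_pos r p).ne'
    have h2 := Real.sin_sq_add_cos_sq (r * p.1)
    have h5 : r * inner ℝ p.2 ξ.2.2 / wf r p =
        ξ.1 * Real.cos (r * p.1) + ξ.2.1 * Real.sin (r * p.1) := by
      rw [div_eq_iff h0, real_inner_comm]
      linarith
    refine ⟨((-ξ.1 * Real.sin (r * p.1) + ξ.2.1 * Real.cos (r * p.1)) / wf r p, ξ.2.2), ?_⟩
    rw [jm_apply]
    refine Prod.ext ?_ (Prod.ext ?_ rfl)
    · simp only
      have h6 : r * Real.cos (r * p.1) / wf r p * inner ℝ p.2 ξ.2.2 =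
          (r * inner ℝ p.2 ξ.2.2 / wf r p) * Real.cos (r * p.1) := by ring
      rw [h6, h5]
      field_simp
      linear_combination ξ.1 * h2
    · simp only
      have h6 : r * Real.sin (r * p.1) / wf r p * inner ℝ p.2 ξ.2.2 =
          (r * inner ℝ p.2 ξ.2.2 / wf r p) * Real.sin (r * p.1) := by ring
      rw [h6, h5]
      field_simp
      linear_combination ξ.2.1 * h2
  lower := by
    refine ⟨2, by norm_num, fun p a => ?_⟩
    have h1 : ‖a.2‖ ≤ ‖jm r p a‖ := by
      have h2 : (jm r p a).2.2 = a.2 := by rw [jm_apply]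
      rw [← h2]
      exact (norm_snd_le _).trans (norm_snd_le _)
    have h2 : |a.1| ≤ 2 * ‖jm r p a‖ := by
      have h3 : wf r p * a.1 = -Real.sin (r * p.1) * (jm r p a).1 +
          Real.cos (r * p.1) * (jm r p a).2.1 := by
        rw [jm_apply]
        simp only
        linear_combination (-(wf r p * a.1)) * Real.sin_sq_add_cos_sq (r * p.1)
      have h4 : |a.1| ≤ |wf r p * a.1| := by
        rw [abs_mul, abs_of_pos (wf_pos r p)]
        exact le_mul_of_one_le_left (abs_nonneg _) (one_le_wf r p)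
      have h5 : ‖(jm r p a).1‖ ≤ ‖jm r p a‖ := norm_fst_le _
      have h6 : ‖(jm r p a).2.1‖ ≤ ‖jm r p a‖ :=
        (norm_fst_le (jm r p a).2).trans (norm_snd_le _)
      rw [Real.norm_eq_abs] at h5 h6
      have h7 : |(-Real.sin (r * p.1)) * (jm r p a).1| ≤ 1 * ‖jm r p a‖ := by
        rw [abs_mul, abs_neg]
        exact mul_le_mul (Real.abs_sin_le_one _) h5 (abs_nonneg _) (by norm_num)
      have h8 : |Real.cos (r * p.1) * (jm r p a).2.1| ≤ 1 * ‖jm r p a‖ := by
        rw [abs_mul]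
        exact mul_le_mul (Real.abs_cos_le_one _) h6 (abs_nonneg _) (by norm_num)
      have h9 := abs_add_le (-Real.sin (r * p.1) * (jm r p a).1)
        (Real.cos (r * p.1) * (jm r p a).2.1)
      rw [← h3] at h9
      linarith
    rw [Prod.norm_def]
    apply max_le
    · exact h2
    · have := norm_nonneg (jm r p a)
      linarith

end Pool.Agent.H84.Lor
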