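import Pool.Agent.H84.LorBoost2

/-!
The differential inequality for the boosted form along a trajectory.
-/

namespace Pool.Agent.H84.Lor

variable {V : Type*} [NormedAddCommGroup V] [NormedSpace ℝ V]
variable {B : V →L[ℝ] V →L[ℝ] ℝ}

/-- Derivative of the pairing of two curves. -/
theorem hasDerivAt_B {a b : ℝ → V} {a' b' : V} {t : ℝ} (ha : HasDerivAt a a' t)
    (hb : HasDerivAt b b' t) :
    HasDerivAt (fun s => B (a s) (b s)) (B a' (b t) + B (a t) b') t := by
  have h1 : HasDerivAt (fun s => B (a s)) (B a') t := B.hasFDerivAt.comp_hasDerivAt t ha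
  exact h1.clm_apply hb

theorem hasDerivAt_bT {u T v : ℝ → V} {F Θ : V} {ρ k : ℝ} {t : ℝ} (h : NegPair B (u t) (T t))
    (hvu : B (v t) (u t) = 0)
    (hD : 0 < bD B k (T t) (v t))
    (hv : HasDerivAt v (F + (ρ * B (v t) (v t)) • u t) t)
    (hT : HasDerivAt T (Θ + (ρ * B (v t) (T t)) • u t) t) :
    HasDerivAt (fun s => bT B k (T s) (v s))
      ((Real.sqrt (bD B k (T t) (v t)))⁻¹ • (bW B k (T t) (v t) F Θ +
        (ρ * B (bHat B k (T t) (v t)) (v t)) • u t)) t := by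
  have huv : B (u t) (v t) = 0 := by rw [h.symm]; exact hvu
  have hTu : B (T t) (u t) = 0 := by rw [h.symm]; exact h.uT
  have hL : HasDerivAt (fun s => bL B k (v s)) (k * B (v t) F) t := by
    have h1 := ((hasDerivAt_B (B := B) hv hv).const_mul k).div_const 2
    have h2 := h1.const_add 1
    refine h2.congr_deriv ?_
    simp only [map_add, map_smul, add_apply, smul_apply, smul_eq_mul]
    rw [huv, hvu, h.symm F (v t)]
    ring
  have hp : HasDerivAt (fun s => B (v s) (T s)) (B F (T t) + B (v t) Θ) t := by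
    refine (hasDerivAt_B (B := B) hv hT).congr_deriv ?_
    simp only [map_add, map_smul, add_apply, smul_apply, smul_eq_mul]
    rw [h.uT, hvu]
    ring
  have hDd : HasDerivAt (fun s => bD B k (T s) (v s))
      (2 * (bM B k (T t) (v t) F Θ * bD B k (T t) (v t))) t := by
    have h1 := (hL.pow 2).add ((hp.pow 2).const_mul (2 * k))
    refine h1.congr_deriv ?_
    have hM : bM B k (T t) (v t) F Θ * bD B k (T t) (v t) =
        k * bL B k (v t) * B (v t) F + 2 * k * B (v t) (T t) * (B F (T t) + B (v t) Θ) := by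
      unfold bM
      field_simp
    rw [hM]
    norm_num
    ring
  have hhat : HasDerivAt (fun s => bHat B k (T s) (v s))
      ((k * B (v t) F) • T t + bL B k (v t) • (Θ + (ρ * B (v t) (T t)) • u t) -
        ((k * (B F (T t) + B (v t) Θ)) • v t +
          (k * B (v t) (T t)) • (F + (ρ * B (v t) (v t)) • u t))) t := by
    have h1 := (hL.smul hT).sub ((hp.const_mul k).smul hv)
    refine h1.congr_deriv ?_
    module
  have hsq : HasDerivAt (fun s => (Real.sqrt (bD B k (T s) (v s)))⁻¹)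
      (-(bM B k (T t) (v t) F Θ) * (Real.sqrt (bD B k (T t) (v t)))⁻¹) t := by
    have hs0 : Real.sqrt (bD B k (T t) (v t)) ≠ 0 := (Real.sqrt_pos.2 hD).ne'
    have h1 := (hDd.sqrt hD.ne').inv hs0
    refine h1.congr_deriv ?_
    have hs : Real.sqrt (bD B k (T t) (v t)) ^ 2 = bD B k (T t) (v t) := Real.sq_sqrt hD.le
    rw [hs]
    field_simp
  have hfin := hsq.smul hhat
  refine hfin.congr_deriv ?_
  have hBv : B (bHat B k (T t) (v t)) (v t) =
      bL B k (v t) * B (v t) (T t) - k * B (v t) (T t) * B (v t) (v t) := by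
    unfold bHat
    simp only [map_sub, map_smul, sub_apply, smul_apply, smul_eq_mul]
    rw [h.symm (T t) (v t)]
  rw [hBv]
  unfold bW bHat
  module

/-- The data of a trajectory together with the timelike field along it. -/
structure BoostData (B : V →L[ℝ] V →L[ℝ] ℝ) (C1 C2 C3 R : ℝ) (I : Set ℝ)
    (u T v F Θ : ℝ → V) (ρ : ℝ → ℝ) : Prop where
  pair : ∀ t ∈ I, NegPair B (u t) (T t)
  vu : ∀ t ∈ I, B (v t) (u t) = 0
  Fu : ∀ t ∈ I, B (F t) (u t) = 0
  Θu : ∀ t ∈ I, B (Θ t) (u t) = 0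
  ΘT : ∀ t ∈ I, B (Θ t) (T t) = 0
  e3 : ∀ t ∈ I, |B (v t) (v t)| ≤ C3
  F1 : ∀ t ∈ I, Nf B (u t) (T t) (F t) ≤ C1
  Θ2 : ∀ t ∈ I, Nf B (u t) (T t) (Θ t) ≤ C2 * Nf B (u t) (T t) (v t)
  ρR : ∀ t ∈ I, |ρ t| ≤ R
  du : ∀ t ∈ I, HasDerivAt u (ρ t • v t) t
  dv : ∀ t ∈ I, HasDerivAt v (F t + (ρ t * B (v t) (v t)) • u t) t
  dT : ∀ t ∈ I, HasDerivAt T (Θ t + (ρ t * B (v t) (T t)) • u t) t

private theorem ab_le {a b n m : ℝ} (ha : a ^ 2 ≤ n) (hb : b ^ 2 ≤ m) : |a * b| ≤ (n + m) / 2 := by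
  rw [abs_le]
  constructor <;> nlinarith [sq_nonneg (a - b), sq_nonneg (a + b)]

/-- A nonnegative function on an interval with `|f'| ≤ C f` grows at most exponentially. -/
theorem growth_of_deriv {C : ℝ} {I : Set ℝ} (hI : I.OrdConnected) {f f' : ℝ → ℝ}
    (hf : ∀ t ∈ I, HasDerivAt f (f' t) t) (hf' : ∀ t ∈ I, |f' t| ≤ C * f t) {s t : ℝ}
    (hs : s ∈ I) (ht : t ∈ I) : f s ≤ Real.exp (C * |s - t|) * f t := by
  have hconv : Convex ℝ I := hI.convex
  rcases le_total t s with hts | hst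
  · -- `f * exp (-C t)` is antitone
    have hanti : AntitoneOn (fun x => f x * Real.exp (-C * x)) I := by
      apply antitoneOn_of_deriv_nonpos hconv
      · intro x hx
        exact ((hf x hx).continuousAt.mul (by fun_prop)).continuousWithinAt
      · intro x hx
        have hx' := interior_subset hx
        exact ((hf x hx').mul (((hasDerivAt_id x).const_mul (-C)).exp)).differentiableAt.differentiableWithinAt
      · intro x hx
        have hx' := interior_subset hx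
        have h1 := ((hf x hx').mul (((hasDerivAt_id x).const_mul (-C)).exp)).deriv
        have h2 : deriv (fun x => f x * Real.exp (-C * x)) x =
            (f' x - C * f x) * Real.exp (-C * x) := by
          refine Eq.trans ?_ (h1.trans ?_)
          · rfl
          · simp only [id_eq]
            ring
        rw [h2]
        have h3 := (abs_le.1 (hf' x hx')).2
        exact mul_nonpos_of_nonpos_of_nonneg (by linarith) (Real.exp_pos _).le
    have h := hanti ht hs hts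
    simp only at h
    have e1 : |s - t| = s - t := abs_of_nonneg (by linarith)
    rw [e1]
    have h4 : f s * Real.exp (-C * s) * Real.exp (C * s) ≤
        f t * Real.exp (-C * t) * Real.exp (C * s) :=
      mul_le_mul_of_nonneg_right h (Real.exp_pos _).le
    have h5 : f s * Real.exp (-C * s) * Real.exp (C * s) = f s := by
      rw [mul_assoc, ← Real.exp_add]
      simp
    have h6 : f t * Real.exp (-C * t) * Real.exp (C * s) = Real.exp (C * (s - t)) * f t := by
      rw [mul_assoc, ← Real.exp_add, mul_comm]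
      congr 2
      ring
    rw [h5, h6] at h4
    exact h4
  · have hmono : MonotoneOn (fun x => f x * Real.exp (C * x)) I := by
      apply monotoneOn_of_deriv_nonneg hconv
      · intro x hx
        exact ((hf x hx).continuousAt.mul (by fun_prop)).continuousWithinAt
      · intro x hx
        have hx' := interior_subset hx
        exact ((hf x hx').mul (((hasDerivAt_id x).const_mul C).exp)).differentiableAt.differentiableWithinAt
      · intro x hx
        have hx' := interior_subset hx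
        have h1 := ((hf x hx').mul (((hasDerivAt_id x).const_mul C).exp)).deriv
        have h2 : deriv (fun x => f x * Real.exp (C * x)) x =
            (f' x + C * f x) * Real.exp (C * x) := by
          refine Eq.trans ?_ (h1.trans ?_)
          · rfl
          · simp only [id_eq]
            ring
        rw [h2]
        have h3 := (abs_le.1 (hf' x hx')).1
        exact mul_nonneg (by linarith) (Real.exp_pos _).le
    have h := hmono hs ht hst
    simp only at h
    have e1 : |s - t| = t - s := by rw [abs_sub_comm]; exact abs_of_nonneg (by linarith)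
    rw [e1]
    have h4 : f s * Real.exp (C * s) * Real.exp (-C * s) ≤
        f t * Real.exp (C * t) * Real.exp (-C * s) :=
      mul_le_mul_of_nonneg_right h (Real.exp_pos _).le
    have h5 : f s * Real.exp (C * s) * Real.exp (-C * s) = f s := by
      rw [mul_assoc, ← Real.exp_add]
      simp
    have h6 : f t * Real.exp (C * t) * Real.exp (-C * s) = Real.exp (C * (t - s)) * f t := by
      rw [mul_assoc, ← Real.exp_add, mul_comm]
      congr 2
      ring
    rw [h5, h6] at h4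
    exact h4

theorem boost_growth (C1 C2 C3 R : ℝ) (hC1 : 0 ≤ C1) (hC2 : 0 ≤ C2) (hC3 : 0 ≤ C3)
    (hR : 0 ≤ R) :
    ∃ k Cv C : ℝ, 0 < k ∧ k * C3 ≤ 1 ∧ 0 ≤ Cv ∧ 0 ≤ C ∧
      ∀ (B : V →L[ℝ] V →L[ℝ] ℝ) (I : Set ℝ) (u T v F Θ : ℝ → V) (ρ : ℝ → ℝ),
      I.OrdConnected → BoostData B C1 C2 C3 R I u T v F Θ ρ →
      (∀ t ∈ I, NegPair B (u t) (bT B k (T t) (v t))) ∧
      (∀ t ∈ I, Nf B (u t) (bT B k (T t) (v t)) (v t) ≤ Cv) ∧
      ∀ s ∈ I, ∀ t ∈ I, ∀ ζ, Nf B (u s) (bT B k (T s) (v s)) ζ ≤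
        Real.exp (C * |s - t|) * Nf B (u t) (bT B k (T t) (v t)) ζ := by
  obtain ⟨k, hkdef⟩ : ∃ k : ℝ, k = 1 / (C3 + 1) := ⟨_, rfl⟩
  have hk : 0 < k := by rw [hkdef]; positivity
  have hkC : k * C3 ≤ 1 := by
    rw [hkdef, one_div, inv_mul_le_iff₀ (by positivity)]
    linarith
  obtain ⟨C4, hC4, HW⟩ := bW_norm (V := V) C1 C2 C3 k hC1 hC2 hC3 hk hkC
  obtain ⟨Cv, hCvdef⟩ : ∃ Cv : ℝ, Cv = C3 + 9 / (4 * k) := ⟨_, rfl⟩
  have hCv : 0 ≤ Cv := by rw [hCvdef]; positivity
  refine ⟨k, Cv, 4 * (R * (1 + Cv) + (1 + C4) + R * (1 + Cv)), hk, hkC, hCv, by positivity, ?_⟩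
  intro B I u T v F Θ ρ hI hd
  have hpair : ∀ t ∈ I, NegPair B (u t) (bT B k (T t) (v t)) := fun t ht =>
    (hd.pair t ht).bT hC3 hk hkC (hd.e3 t ht) (hd.vu t ht)
  have hvb : ∀ t ∈ I, Nf B (u t) (bT B k (T t) (v t)) (v t) ≤ Cv := fun t ht => by
    rw [hCvdef]
    exact v_bound hC3 hk hkC (hd.e3 t ht) (hd.vu t ht)
  refine ⟨hpair, hvb, ?_⟩
  intro s hs t ht ζ
  have hder : ∀ x ∈ I, HasDerivAt (fun y => Nf B (u y) (bT B k (T y) (v y)) ζ)
      (4 * (B ζ (u x) * (ρ x * B ζ (v x))) + 4 * (B ζ (bT B k (T x) (v x)) *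
        B ζ ((Real.sqrt (bD B k (T x) (v x)))⁻¹ • (bW B k (T x) (v x) (F x) (Θ x) +
        (ρ x * B (bHat B k (T x) (v x)) (v x)) • u x)))) x := by
    intro x hx
    have hD : 0 < bD B k (T x) (v x) :=
      lt_of_lt_of_le (by norm_num) (bD_pos hC3 hk hkC (hd.e3 x hx))
    have h1 : HasDerivAt (fun y => B ζ (u y)) (B ζ (ρ x • v x)) x :=
      (B ζ).hasFDerivAt.comp_hasDerivAt x (hd.du x hx)
    have h2 := (B ζ).hasFDerivAt.comp_hasDerivAt x (hasDerivAt_bT (k := k) (hd.pair x hx)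
      (hd.vu x hx) hD (hd.dv x hx) (hd.dT x hx))
    have h3 := (((h1.pow 2).const_mul 2).const_add (B ζ ζ)).add ((h2.pow 2).const_mul 2)
    refine h3.congr_deriv ?_
    simp only [map_smul, smul_eq_mul, Function.comp]
    norm_num
    ring
  refine growth_of_deriv hI hder ?_ hs ht
  intro x hx
  have hP := hpair x hx
  have hD : 0 < bD B k (T x) (v x) :=
    lt_of_lt_of_le (by norm_num) (bD_pos hC3 hk hkC (hd.e3 x hx))
  have hs2 : Real.sqrt (bD B k (T x) (v x)) ^ 2 = bD B k (T x) (v x) := Real.sq_sqrt hD.le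
  have hTu : B (T x) (u x) = 0 := by rw [(hd.pair x hx).symm]; exact (hd.pair x hx).uT
  have hn := hP.nonneg ζ
  have hu2 := hP.sq_u_le ζ
  have hS2 := hP.sq_T_le ζ
  have hv2 : (B ζ (v x)) ^ 2 ≤ Nf B (u x) (bT B k (T x) (v x)) ζ * Cv :=
    (hP.cs ζ (v x)).trans (mul_le_mul_of_nonneg_left (hvb x hx) hn)
  -- the tangential derivative
  have hNW : Nf B (u x) (bT B k (T x) (v x)) ((Real.sqrt (bD B k (T x) (v x)))⁻¹ •
      bW B k (T x) (v x) (F x) (Θ x)) ≤ C4 := by
    have h1 : B (bW B k (T x) (v x) (F x) (Θ x)) (u x) = 0 :=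
      bW_u hTu k (hd.vu x hx) (hd.Fu x hx) (hd.Θu x hx)
    have h2 : B (bW B k (T x) (v x) (F x) (Θ x)) (bT B k (T x) (v x)) = 0 := by
      unfold bT
      rw [map_smul, bW_bHat (hd.pair x hx) k (hd.ΘT x hx) hD.ne', smul_zero]
    unfold Nf
    simp only [map_smul, smul_apply, smul_eq_mul]
    rw [h1, h2]
    have h3 := HW B (u x) (T x) (v x) (F x) (Θ x) (hd.pair x hx) (hd.vu x hx) (hd.Fu x hx)
      (hd.Θu x hx) (hd.ΘT x hx) (hd.e3 x hx) (hd.F1 x hx) (hd.Θ2 x hx)
    have h4 : (Real.sqrt (bD B k (T x) (v x)))⁻¹ * ((Real.sqrt (bD B k (T x) (v x)))⁻¹ *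
        B (bW B k (T x) (v x) (F x) (Θ x)) (bW B k (T x) (v x) (F x) (Θ x))) =
        B (bW B k (T x) (v x) (F x) (Θ x)) (bW B k (T x) (v x) (F x) (Θ x)) /
          bD B k (T x) (v x) := by
      rw [← mul_assoc, ← mul_inv, ← pow_two, hs2, inv_mul_eq_div]
    rw [h4]
    simp only [mul_zero]
    norm_num
    rw [div_le_iff₀ hD]
    exact h3
  have hW2 := (hP.cs ζ ((Real.sqrt (bD B k (T x) (v x)))⁻¹ •
      bW B k (T x) (v x) (F x) (Θ x))).trans (mul_le_mul_of_nonneg_left hNW hn)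
  -- the normal coefficient
  have hcoef : (Real.sqrt (bD B k (T x) (v x)))⁻¹ * (ρ x * B (bHat B k (T x) (v x)) (v x)) =
      ρ x * B (bT B k (T x) (v x)) (v x) := by
    unfold bT
    simp only [map_smul, smul_apply, smul_eq_mul]
    ring
  have hSv : (B (bT B k (T x) (v x)) (v x)) ^ 2 ≤ Cv := by
    rw [hP.symm]
    exact (hP.sq_T_le (v x)).trans (hvb x hx)
  have hsplit : B ζ ((Real.sqrt (bD B k (T x) (v x)))⁻¹ • (bW B k (T x) (v x) (F x) (Θ x) +
        (ρ x * B (bHat B k (T x) (v x)) (v x)) • u x)) =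
      B ζ ((Real.sqrt (bD B k (T x) (v x)))⁻¹ • bW B k (T x) (v x) (F x) (Θ x)) +
      ρ x * (B (bT B k (T x) (v x)) (v x) * B ζ (u x)) := by
    rw [smul_add, map_add, smul_smul, hcoef]
    simp only [map_smul, smul_eq_mul]
    ring
  rw [hsplit]
  obtain ⟨n, hndef⟩ : ∃ n, n = Nf B (u x) (bT B k (T x) (v x)) ζ := ⟨_, rfl⟩
  rw [← hndef] at hn hu2 hS2 hv2 hW2 ⊢
  have b1 : |B ζ (u x) * B ζ (v x)| ≤ (n + n * Cv) / 2 := ab_le hu2 hv2
  have b2 : |B ζ (bT B k (T x) (v x)) * B ζ ((Real.sqrt (bD B k (T x) (v x)))⁻¹ •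
      bW B k (T x) (v x) (F x) (Θ x))| ≤ (n + n * C4) / 2 := ab_le hS2 hW2
  have b3 : |B ζ (bT B k (T x) (v x)) * B ζ (u x)| ≤ (n + n) / 2 := ab_le hS2 hu2
  have b4 : |B (bT B k (T x) (v x)) (v x)| ≤ (Cv + 1) / 2 := by
    have := ab_le (b := 1) hSv (by norm_num : (1 : ℝ) ^ 2 ≤ 1)
    rwa [mul_one] at this
  have hρ := hd.ρR x hx
  have c1 : |B ζ (u x) * (ρ x * B ζ (v x))| ≤ R * ((n + n * Cv) / 2) := by
    have : B ζ (u x) * (ρ x * B ζ (v x)) = ρ x * (B ζ (u x) * B ζ (v x)) := by ring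
    rw [this, abs_mul]
    exact mul_le_mul hρ b1 (abs_nonneg _) hR
  have c2 : |B ζ (bT B k (T x) (v x)) * (ρ x * (B (bT B k (T x) (v x)) (v x) * B ζ (u x)))| ≤
      R * ((Cv + 1) / 2 * ((n + n) / 2)) := by
    have : B ζ (bT B k (T x) (v x)) * (ρ x * (B (bT B k (T x) (v x)) (v x) * B ζ (u x))) =
        ρ x * (B (bT B k (T x) (v x)) (v x) * (B ζ (bT B k (T x) (v x)) * B ζ (u x))) := by ring
    rw [this, abs_mul, abs_mul]
    exact mul_le_mul hρ (mul_le_mul b4 b3 (abs_nonneg _) (by positivity)) (by positivity) hR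
  have hexp : 4 * (B ζ (u x) * (ρ x * B ζ (v x))) + 4 * (B ζ (bT B k (T x) (v x)) *
      (B ζ ((Real.sqrt (bD B k (T x) (v x)))⁻¹ • bW B k (T x) (v x) (F x) (Θ x)) +
      ρ x * (B (bT B k (T x) (v x)) (v x) * B ζ (u x)))) =
      4 * (B ζ (u x) * (ρ x * B ζ (v x))) + 4 * (B ζ (bT B k (T x) (v x)) *
      B ζ ((Real.sqrt (bD B k (T x) (v x)))⁻¹ • bW B k (T x) (v x) (F x) (Θ x))) +
      4 * (B ζ (bT B k (T x) (v x)) *
        (ρ x * (B (bT B k (T x) (v x)) (v x) * B ζ (u x)))) := by ring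
  rw [hexp]
  have c1' := abs_le.1 c1
  have c2' := abs_le.1 c2
  have b2' := abs_le.1 b2
  have hfin : 4 * (R * ((n + n * Cv) / 2)) + 4 * ((n + n * C4) / 2) +
      4 * (R * ((Cv + 1) / 2 * ((n + n) / 2))) ≤
      4 * (R * (1 + Cv) + (1 + C4) + R * (1 + Cv)) * n := by
    have e1 : 4 * (R * ((n + n * Cv) / 2)) + 4 * ((n + n * C4) / 2) +
      4 * (R * ((Cv + 1) / 2 * ((n + n) / 2))) = 4 * R * (1 + Cv) * n + 2 * (1 + C4) * n := by
      ring
    have e2 : 4 * (R * (1 + Cv) + (1 + C4) + R * (1 + Cv)) * n =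
        (4 * R * (1 + Cv) * n + 2 * (1 + C4) * n) + (4 * (R * (1 + Cv)) + 2 * (1 + C4)) * n := by
      ring
    rw [e1, e2]
    have : 0 ≤ (4 * (R * (1 + Cv)) + 2 * (1 + C4)) * n := by positivity
    linarith
  rw [abs_le]
  constructor
  · linarith [c1'.1, c2'.1, b2'.1]
  · linarith [c1'.2, c2'.2, b2'.2]

end Pool.Agent.H84.Lor
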