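import Pool.Agent.H84.LorODE
import Pool.Agent.H84.LorExt

/-!
Geodesics of a metric conformal to a model metric: a priori bound on the velocity.

A model is given by a map `u : E → V` into a vector space with a symmetric form `B`, with values
in the negative unit vectors, and tangent maps `j p : E → V` onto the orthogonal complement of
`u p`, with `D u = r j`; the metric is `B (j p a) (j p b)`, of curvature `-r ^ 2`.
-/

namespace Pool.Agent.H84.Lor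

open Set
open scoped ContDiff

set_option maxSynthPendingDepth 3

variable {V : Type*} [NormedAddCommGroup V] [NormedSpace ℝ V]
variable {E : Type*} [NormedAddCommGroup E] [NormedSpace ℝ E]

/-- A model of constant curvature `-r ^ 2`. -/
structure Frame (B : V →L[ℝ] V →L[ℝ] ℝ) (r : ℝ) (u : E → V) (j : E → E →L[ℝ] V) : Prop where
  symm : ∀ ζ ξ, B ζ ξ = B ξ ζ
  nondeg : ∀ ζ, (∀ ξ, B ζ ξ = 0) → ζ = 0
  sig : ∀ a b, B a a = -1 → B b b = -1 → B a b = 0 →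
    ∀ ζ, 0 ≤ B ζ ζ + (B ζ a) ^ 2 + (B ζ b) ^ 2
  hu : ContDiff ℝ ∞ u
  hj : ContDiff ℝ ∞ j
  uu : ∀ p, B (u p) (u p) = -1
  ju : ∀ p a, B (j p a) (u p) = 0
  du : ∀ p a, fderiv ℝ u p a = r • j p a
  djs : ∀ p a b, fderiv ℝ j p a b = fderiv ℝ j p b a
  tan : ∀ p ξ, B ξ (u p) = 0 → ∃ a, j p a = ξ
  lower : ∃ c, 0 < c ∧ ∀ p a, ‖a‖ ≤ c * ‖j p a‖

/-- The conformal metric `ψ h`. -/
noncomputable def confG (B : V →L[ℝ] V →L[ℝ] ℝ) (j : E → E →L[ℝ] V) (ψ : E → ℝ) (p : E) :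
    E →L[ℝ] E →L[ℝ] ℝ :=
  ψ p • B.bilinearComp (j p) (j p)

@[simp] theorem confG_apply (B : V →L[ℝ] V →L[ℝ] ℝ) (j : E → E →L[ℝ] V) (ψ : E → ℝ) (p a b : E) :
    confG B j ψ p a b = ψ p * B (j p a) (j p b) := by
  simp [confG]

theorem contDiff_confG {n : ℕ∞ω} {B : V →L[ℝ] V →L[ℝ] ℝ} {j : E → E →L[ℝ] V} {ψ : E → ℝ}
    (hj : ContDiff ℝ n j) (hψ : ContDiff ℝ n ψ) : ContDiff ℝ n (confG B j ψ) := by
  unfold confG
  apply hψ.smul
  have h1 : ContDiff ℝ n (fun p => B.comp (j p)) := contDiff_const.clm_comp hj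
  have h2 : ContDiff ℝ n (fun p => (B.comp (j p)).flip) :=
    (ContinuousLinearMap.flipₗᵢ ℝ E V ℝ).contDiff.comp h1
  have h3 : ContDiff ℝ n (fun p => (B.comp (j p)).flip.comp (j p)) := h2.clm_comp hj
  exact (ContinuousLinearMap.flipₗᵢ ℝ E E ℝ).contDiff.comp h3

namespace Frame

variable {B : V →L[ℝ] V →L[ℝ] ℝ} {r : ℝ} {u : E → V} {j : E → E →L[ℝ] V}

theorem inj (h : Frame B r u j) {p a : E} (ha : j p a = 0) : a = 0 := by
  obtain ⟨c, hc, hl⟩ := h.lower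
  have := hl p a
  rw [ha, norm_zero, mul_zero] at this
  exact norm_le_zero_iff.1 this

/-- A vector orthogonal to `u p` and to the image of `j p` vanishes. -/
theorem eq_zero (h : Frame B r u j) {p : E} {ζ : V} (h1 : B ζ (u p) = 0)
    (h2 : ∀ b, B ζ (j p b) = 0) : ζ = 0 := by
  apply h.nondeg
  intro ξ
  have h3 : B (ξ + (B ξ (u p)) • u p) (u p) = 0 := by
    simp only [map_add, map_smul, add_apply, smul_apply, smul_eq_mul]
    rw [h.uu]
    ring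
  obtain ⟨b, hb⟩ := h.tan p _ h3
  have h4 := h2 b
  rw [hb] at h4
  simp only [map_add, map_smul, smul_eq_mul] at h4
  rw [h1] at h4
  linarith

theorem confG_nondeg (h : Frame B r u j) {ψ : E → ℝ} (hψ : ∀ p, 0 < ψ p) (p a : E)
    (ha : ∀ b, confG B j ψ p a b = 0) : a = 0 := by
  apply h.inj (p := p)
  apply h.eq_zero (h.ju p a)
  intro b
  have := ha b
  rw [confG_apply] at this
  rcases mul_eq_zero.1 this with h1 | h1
  · exact absurd h1 (hψ p).ne'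
  · exact h1

theorem fderiv_confG (h : Frame B r u j) {ψ : E → ℝ} (hψ : ContDiff ℝ ∞ ψ) (p a b c : E) :
    fderiv ℝ (confG B j ψ) p c a b = fderiv ℝ ψ p c * B (j p a) (j p b) +
      ψ p * (B (fderiv ℝ j p c a) (j p b) + B (j p a) (fderiv ℝ j p c b)) := by
  have hd : DifferentiableAt ℝ (confG B j ψ) p :=
    (contDiff_confG h.hj hψ).differentiable (by norm_num) p
  have h1 : HasFDerivAt (fun q => confG B j ψ q a b)
      ((ContinuousLinearMap.apply ℝ ℝ b).comp ((ContinuousLinearMap.apply ℝ (E →L[ℝ] ℝ) a).comp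
        (fderiv ℝ (confG B j ψ) p))) p := by
    have h2 := (hd.hasFDerivAt.clm_apply (hasFDerivAt_const a p)).clm_apply (hasFDerivAt_const b p)
    refine h2.congr_fderiv ?_
    ext c
    simp
  have hjd : HasFDerivAt j (fderiv ℝ j p) p := (h.hj.differentiable (by norm_num) p).hasFDerivAt
  have hja : HasFDerivAt (fun q => j q a) ((ContinuousLinearMap.apply ℝ V a).comp (fderiv ℝ j p)) p := by
    have h2 := hjd.clm_apply (hasFDerivAt_const a p)
    refine h2.congr_fderiv ?_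
    ext c
    simp
  have hjb : HasFDerivAt (fun q => j q b) ((ContinuousLinearMap.apply ℝ V b).comp (fderiv ℝ j p)) p := by
    have h2 := hjd.clm_apply (hasFDerivAt_const b p)
    refine h2.congr_fderiv ?_
    ext c
    simp
  have hψd : HasFDerivAt ψ (fderiv ℝ ψ p) p := (hψ.differentiable (by norm_num) p).hasFDerivAt
  have hB : HasFDerivAt (fun q => B (j q a)) (B.comp ((ContinuousLinearMap.apply ℝ V a).comp
      (fderiv ℝ j p))) p := B.hasFDerivAt.comp p hja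
  have h3 := hψd.mul (hB.clm_apply hjb)
  have h5 := h1.unique (h3.congr_of_eventuallyEq (Filter.Eventually.of_forall fun q => by simp))
  have h6 := DFunLike.congr_fun h5 c
  simp at h6
  rw [h6]
  ring

theorem fderiv_ju (h : Frame B r u j) (p b c : E) :
    B (fderiv ℝ j p c b) (u p) = -(r * B (j p b) (j p c)) := by
  have hjd : HasFDerivAt j (fderiv ℝ j p) p := (h.hj.differentiable (by norm_num) p).hasFDerivAt
  have hud : HasFDerivAt u (fderiv ℝ u p) p := (h.hu.differentiable (by norm_num) p).hasFDerivAt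
  have hjb : HasFDerivAt (fun q => j q b) ((ContinuousLinearMap.apply ℝ V b).comp (fderiv ℝ j p)) p := by
    have h2 := hjd.clm_apply (hasFDerivAt_const b p)
    refine h2.congr_fderiv ?_
    ext c
    simp
  have hB : HasFDerivAt (fun q => B (j q b)) (B.comp ((ContinuousLinearMap.apply ℝ V b).comp
      (fderiv ℝ j p))) p := B.hasFDerivAt.comp p hjb
  have h3 := hB.clm_apply hud
  have h4 : HasFDerivAt (fun q => B (j q b) (u q)) (0 : E →L[ℝ] ℝ) p := by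
    have : (fun q => B (j q b) (u q)) = fun _ => (0 : ℝ) := funext fun q => h.ju q b
    rw [this]
    exact hasFDerivAt_const _ _
  have h6 := DFunLike.congr_fun (h3.unique h4) c
  simp at h6
  rw [h.du] at h6
  simp only [map_smul, smul_eq_mul] at h6
  linarith

end Frame

/-- The squared norm is controlled by the positive form. -/
theorem NegPair.norm_le [FiniteDimensional ℝ V] {B : V →L[ℝ] V →L[ℝ] ℝ}
    (hnd : ∀ ζ, (∀ ξ, B ζ ξ = 0) → ζ = 0) {u S : V} (h : NegPair B u S) :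
    ∃ K : ℝ, 0 ≤ K ∧ ∀ ζ, ‖ζ‖ ^ 2 ≤ K * Nf B u S ζ := by
  -- upper bound of the form
  have hup : ∃ M : ℝ, 0 ≤ M ∧ ∀ ξ, Nf B u S ξ ≤ M * ‖ξ‖ ^ 2 := by
    refine ⟨‖B‖ + 2 * (‖B‖ * ‖u‖) ^ 2 + 2 * (‖B‖ * ‖S‖) ^ 2, by positivity, fun ξ => ?_⟩
    have h1 : B ξ ξ ≤ ‖B‖ * ‖ξ‖ * ‖ξ‖ := (le_abs_self _).trans (B.le_opNorm₂ ξ ξ)
    have h2 : (B ξ u) ^ 2 ≤ (‖B‖ * ‖ξ‖ * ‖u‖) ^ 2 :=
      sq_le_sq' (by linarith [(abs_le.1 (B.le_opNorm₂ ξ u)).1]) (abs_le.1 (B.le_opNorm₂ ξ u)).2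
    have h3 : (B ξ S) ^ 2 ≤ (‖B‖ * ‖ξ‖ * ‖S‖) ^ 2 :=
      sq_le_sq' (by linarith [(abs_le.1 (B.le_opNorm₂ ξ S)).1]) (abs_le.1 (B.le_opNorm₂ ξ S)).2
    unfold Nf
    nlinarith
  obtain ⟨M, hM, hup⟩ := hup
  -- lower bound of the form
  obtain ⟨c, hc, hanti⟩ := LinearMap.exists_antilipschitzWith (B : V →ₗ[ℝ] (V →L[ℝ] ℝ)) (by
    rw [LinearMap.ker_eq_bot']
    intro ζ hζ
    apply hnd
    intro ξ
    have : B ζ = 0 := hζ
    rw [this]; rfl)
  refine ⟨(c : ℝ) ^ 2 * M, by positivity, fun ζ => ?_⟩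
  have h1 : ‖ζ‖ ≤ c * ‖B ζ‖ := by
    have := hanti.le_mul_dist ζ 0
    simpa using this
  have hn := h.nonneg ζ
  have h2 : ‖B ζ‖ ≤ Real.sqrt (M * Nf B u S ζ) := by
    apply ContinuousLinearMap.opNorm_le_bound _ (Real.sqrt_nonneg _)
    intro ξ
    rw [Real.norm_eq_abs]
    have h3 := h.cs ζ ξ
    apply abs_le_of_sq_le_sq _ (by positivity)
    rw [mul_pow, Real.sq_sqrt (by positivity)]
    calc (B ζ ξ) ^ 2 ≤ Nf B u S ζ * Nf B u S ξ := h3
      _ ≤ Nf B u S ζ * (M * ‖ξ‖ ^ 2) := mul_le_mul_of_nonneg_left (hup ξ) hn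
      _ = M * Nf B u S ζ * ‖ξ‖ ^ 2 := by ring
  have h3 : ‖ζ‖ ^ 2 ≤ (c * Real.sqrt (M * Nf B u S ζ)) ^ 2 := by
    apply pow_le_pow_left₀ (norm_nonneg _)
    exact h1.trans (mul_le_mul_of_nonneg_left h2 (NNReal.coe_nonneg c))
  rw [mul_pow, Real.sq_sqrt (by positivity)] at h3
  calc ‖ζ‖ ^ 2 ≤ (c : ℝ) ^ 2 * (M * Nf B u S ζ) := h3
    _ = (c : ℝ) ^ 2 * M * Nf B u S ζ := by ring

/-- A timelike unit field `T` adapted to a compact quotient, with the bounds coming from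
compactness. -/
structure GoodField (B : V →L[ℝ] V →L[ℝ] ℝ) (r : ℝ) (u : E → V) (j : E → E →L[ℝ] V) (ψ : E → ℝ)
    (T : E → V) (C2 Cψ m₀ M₀ : ℝ) : Prop where
  hT : ContDiff ℝ 1 T
  TT : ∀ p, B (T p) (T p) = -1
  Tu : ∀ p, B (T p) (u p) = 0
  hΘ : ∀ p a, Nf B (u p) (T p) (fderiv ℝ T p a - (r * B (T p) (j p a)) • u p) ≤
    C2 * Nf B (u p) (T p) (j p a)
  hdψ : ∀ p a, (fderiv ℝ ψ p a) ^ 2 ≤ Cψ * Nf B (u p) (T p) (j p a)
  hC2 : 0 ≤ C2
  hCψ : 0 ≤ Cψ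
  hm₀ : 0 < m₀
  hψm : ∀ p, m₀ ≤ ψ p
  hψM : ∀ p, ψ p ≤ M₀

/-- The bound of the force. -/
theorem force_bound {B : V →L[ℝ] V →L[ℝ] ℝ} {u T F : V} (h : NegPair B u T) {β : ℝ}
    (hFu : B F u = 0) (h1 : (B F F) ^ 2 ≤ β ^ 2 * Nf B u T F)
    (h2 : (B F T) ^ 2 ≤ β ^ 2) : Nf B u T F ≤ 4 * β ^ 2 := by
  have hn := h.nonneg F
  have hN : Nf B u T F = B F F + 2 * (B F T) ^ 2 := by unfold Nf; rw [hFu]; ring
  by_contra hcon
  push Not at hcon
  have h3 : Nf B u T F - 2 * β ^ 2 ≤ B F F := by rw [hN]; linarith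
  have h4 : Nf B u T F / 2 < B F F := by linarith
  have h5 : 0 ≤ Nf B u T F / 2 := by linarith
  have h6 : (Nf B u T F / 2) ^ 2 < (B F F) ^ 2 := by
    apply pow_lt_pow_left₀ h4 h5 (by norm_num)
  have h7 : (Nf B u T F / 2) ^ 2 < β ^ 2 * Nf B u T F := h6.trans_le h1
  have h8 : Nf B u T F * (Nf B u T F - 4 * β ^ 2) < 0 := by nlinarith
  have h9 : 0 ≤ Nf B u T F * (Nf B u T F - 4 * β ^ 2) := mul_nonneg hn (by linarith)
  linarith

end Pool.Agent.H84.Lor
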