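import Pool.Agent.H84.LorTraj

/-!
The a priori bound for the geodesics of a conformal metric.
-/

namespace Pool.Agent.H84.Lor

open Set
open scoped ContDiff

set_option maxSynthPendingDepth 3

variable {V : Type*} [NormedAddCommGroup V] [NormedSpace ℝ V]
variable {E : Type*} [NormedAddCommGroup E] [NormedSpace ℝ E]
variable {B : V →L[ℝ] V →L[ℝ] ℝ} {r : ℝ} {u : E → V} {j : E → E →L[ℝ] V} {ψ : E → ℝ}

/-- The derivative of the momentum `ψ j γ'`. -/
noncomputable def momD (j : E → E →L[ℝ] V) (ψ : E → ℝ) (x w a : E) : V :=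
  (fderiv ℝ ψ x w) • j x w + ψ x • (fderiv ℝ j x w w + j x a)

theorem momD_j (h : Frame B r u j) (hψ : ContDiff ℝ ∞ ψ) {x w a : E}
    (hs : ∀ e, fderiv ℝ (confG B j ψ) x w w e + confG B j ψ x a e =
      1 / 2 * fderiv ℝ (confG B j ψ) x e w w) (b : E) :
    B (momD j ψ x w a) (j x b) = 1 / 2 * fderiv ℝ ψ x b * B (j x w) (j x w) := by
  have h1 := hs b
  rw [h.fderiv_confG hψ, h.fderiv_confG hψ, confG_apply, h.djs x b w] at h1
  unfold momD
  simp only [map_add, map_smul, add_apply, smul_apply, smul_eq_mul]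
  have h2 : B (fderiv ℝ j x w b) (j x w) = B (j x w) (fderiv ℝ j x w b) := h.symm _ _
  rw [h2] at h1
  linarith

theorem momD_u (h : Frame B r u j) (x w a : E) :
    B (momD j ψ x w a) (u x) = -(r * ψ x * B (j x w) (j x w)) := by
  unfold momD
  simp only [map_add, map_smul, add_apply, smul_apply, smul_eq_mul]
  rw [h.ju, h.ju, h.fderiv_ju]
  ring

theorem hasDerivAt_mom (h : Frame B r u j) (hψ : ContDiff ℝ ∞ ψ) {γ γ' : ℝ → E} {a : E} {t : ℝ}
    (h1 : HasDerivAt γ (γ' t) t) (h2 : HasDerivAt γ' a t) :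
    HasDerivAt (fun s => ψ (γ s) • j (γ s) (γ' s)) (momD j ψ (γ t) (γ' t) a) t := by
  have hψd : HasDerivAt (fun s => ψ (γ s)) (fderiv ℝ ψ (γ t) (γ' t)) t :=
    (hψ.differentiable (by norm_num) (γ t)).hasFDerivAt.comp_hasDerivAt t h1
  have hjd : HasDerivAt (fun s => j (γ s)) (fderiv ℝ j (γ t) (γ' t)) t :=
    (h.hj.differentiable (by norm_num) (γ t)).hasFDerivAt.comp_hasDerivAt t h1
  have h3 := hψd.smul (hjd.clm_apply h2)
  refine h3.congr_deriv ?_
  unfold momD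
  abel

/-- Conservation of energy. -/
theorem energy_const [FiniteDimensional ℝ E] (h : Frame B r u j) (hψ : ContDiff ℝ ∞ ψ)
    (hpos : ∀ p, 0 < ψ p) {γ γ' : ℝ → E} {I : Set ℝ} (hI : I.OrdConnected)
    (hγ : ∀ t ∈ I, HasDerivAt (fun s => (γ s, γ' s)) (geoField (confG B j ψ) (γ t, γ' t)) t)
    {s t : ℝ} (hs : s ∈ I) (ht : t ∈ I) :
    confG B j ψ (γ s) (γ' s) (γ' s) = confG B j ψ (γ t) (γ' t) (γ' t) := by
  have hG : ContDiff ℝ 2 (confG B j ψ) := (contDiff_confG h.hj hψ).of_le (by norm_cast)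
  have hd : ∀ x ∈ I, HasDerivAt (fun s => confG B j ψ (γ s) (γ' s) (γ' s)) 0 x := by
    intro x hx
    have h1 : HasDerivAt γ (γ' x) x := (hγ x hx).fst
    have h2 : HasDerivAt γ' (geoField (confG B j ψ) (γ x, γ' x)).2 x := (hγ x hx).snd
    have h3 : HasDerivAt (fun s => confG B j ψ (γ s)) (fderiv ℝ (confG B j ψ) (γ x) (γ' x)) x :=
      ((hG.differentiable (by norm_num)) (γ x)).hasFDerivAt.comp_hasDerivAt x h1
    have h4 := (h3.clm_apply h2).clm_apply h2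
    refine h4.congr_deriv ?_
    have hspec := (geoField_spec (h.confG_nondeg hpos) (γ x) (γ' x)
      (geoField (confG B j ψ) (γ x, γ' x)).2).1 rfl (γ' x)
    have hsymm : confG B j ψ (γ x) (γ' x) (geoField (confG B j ψ) (γ x, γ' x)).2 =
        confG B j ψ (γ x) (geoField (confG B j ψ) (γ x, γ' x)).2 (γ' x) := by
      rw [confG_apply, confG_apply, h.symm]
    simp only [add_apply]
    rw [hsymm]
    linarith
  have hb := growth_of_deriv (C := 0) hI (f := fun s => confG B j ψ (γ s) (γ' s) (γ' s))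
    (f' := fun _ => 0) hd (fun x _ => by simp) hs ht
  have hb' := growth_of_deriv (C := 0) hI (f := fun s => confG B j ψ (γ s) (γ' s) (γ' s))
    (f' := fun _ => 0) hd (fun x _ => by simp) ht hs
  simp only [zero_mul, Real.exp_zero, one_mul] at hb hb'
  exact le_antisymm hb hb'

theorem traj_bound [FiniteDimensional ℝ E] [FiniteDimensional ℝ V] (h : Frame B r u j)
    (hψ : ContDiff ℝ ∞ ψ) {T : E → V} {C2 Cψ m₀ M₀ : ℝ}
    (hg : GoodField B r u j ψ T C2 Cψ m₀ M₀) (x₀ v₀ : E) (T₀ : ℝ) :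
    ∃ K : ℝ, ∀ (I : Set ℝ) (γ γ' : ℝ → E), I.OrdConnected →
      (0 : ℝ) ∈ I → γ 0 = x₀ → γ' 0 = v₀ → (∀ t ∈ I,
        HasDerivAt (fun s => (γ s, γ' s)) (geoField (confG B j ψ) (γ t, γ' t)) t) →
      ∀ t ∈ I, |t| ≤ T₀ → ‖γ' t‖ ≤ K := by
  have hpos : ∀ p, 0 < ψ p := fun p => hg.hm₀.trans_le (hg.hψm p)
  have hM₀ : 0 ≤ M₀ := (hpos 0).le.trans (hg.hψM 0)
  have hm₀ := hg.hm₀
  obtain ⟨E₀, hE₀⟩ : ∃ E₀, E₀ = |confG B j ψ x₀ v₀ v₀| := ⟨_, rfl⟩
  have hE₀0 : 0 ≤ E₀ := by rw [hE₀]; exact abs_nonneg _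
  obtain ⟨k, Cv, C, hk, hkC, hCv, hC, hgrow⟩ := boost_growth (V := V)
    (4 * ((1 / 2 * (E₀ / m₀)) ^ 2 * Cψ)) (C2 / m₀ ^ 2) (M₀ * E₀) (|r| / m₀)
    (by have := hg.hCψ; positivity) (by have := hg.hC2; positivity) (by positivity) (by positivity)
  have hpair : ∀ p, NegPair B (u p) (T p) := fun p =>
    ⟨h.symm, h.uu p, hg.TT p, by rw [h.symm]; exact hg.Tu p,
      h.sig _ _ (h.uu p) (hg.TT p) (by rw [h.symm]; exact hg.Tu p)⟩
  -- the lower bound at time zero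
  have hEn0 : B (ψ x₀ • j x₀ v₀) (ψ x₀ • j x₀ v₀) = ψ x₀ * confG B j ψ x₀ v₀ v₀ := by
    simp only [map_smul, smul_apply, smul_eq_mul, confG_apply]
  have he0 : |B (ψ x₀ • j x₀ v₀) (ψ x₀ • j x₀ v₀)| ≤ M₀ * E₀ := by
    rw [hEn0, abs_mul, abs_of_pos (hpos x₀), ← hE₀]
    exact mul_le_mul_of_nonneg_right (hg.hψM x₀) hE₀0
  have hpair0 : NegPair B (u x₀) (bT B k (T x₀) (ψ x₀ • j x₀ v₀)) :=
    (hpair x₀).bT (by positivity) hk hkC he0 (by
      simp only [map_smul, smul_apply, smul_eq_mul]; rw [h.ju, mul_zero])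
  obtain ⟨K₀, hK₀, hlow⟩ := hpair0.norm_le h.nondeg
  obtain ⟨c, hc, hcl⟩ := h.lower
  refine ⟨c * (1 / m₀) * Real.sqrt (K₀ * (Real.exp (C * T₀) * Cv)), ?_⟩
  intro I γ γ' hI h0I hγ0 hγ'0 hγ t ht htT
  have hEn : ∀ s ∈ I, confG B j ψ (γ s) (γ' s) (γ' s) = confG B j ψ x₀ v₀ v₀ := by
    intro s hs
    rw [energy_const h hψ hpos hI hγ hs h0I, hγ0, hγ'0]
  have hS : ∀ s ∈ I, |B (j (γ s) (γ' s)) (j (γ s) (γ' s))| ≤ E₀ / m₀ := by
    intro s hs
    have h1 := hEn s hs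
    rw [confG_apply] at h1
    rw [le_div_iff₀ hm₀, hE₀, ← h1, abs_mul, abs_of_pos (hpos _), mul_comm]
    exact mul_le_mul_of_nonneg_right (hg.hψm _) (abs_nonneg _)
  have hdata : BoostData B (4 * ((1 / 2 * (E₀ / m₀)) ^ 2 * Cψ)) (C2 / m₀ ^ 2) (M₀ * E₀)
      (|r| / m₀) I (fun s => u (γ s)) (fun s => T (γ s)) (fun s => ψ (γ s) • j (γ s) (γ' s))
      (fun s => momD j ψ (γ s) (γ' s) (geoField (confG B j ψ) (γ s, γ' s)).2 -
        (r / ψ (γ s) * B (ψ (γ s) • j (γ s) (γ' s)) (ψ (γ s) • j (γ s) (γ' s))) • u (γ s))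
      (fun s => fderiv ℝ T (γ s) (γ' s) - (r * B (T (γ s)) (j (γ s) (γ' s))) • u (γ s))
      (fun s => r / ψ (γ s)) := by
    have hd1 : ∀ s ∈ I, HasDerivAt γ (γ' s) s := fun s hs => (hγ s hs).fst
    have hd2 : ∀ s ∈ I, HasDerivAt γ' (geoField (confG B j ψ) (γ s, γ' s)).2 s :=
      fun s hs => (hγ s hs).snd
    have hTd : ∀ p, HasFDerivAt T (fderiv ℝ T p) p := fun p =>
      (hg.hT.differentiable (by norm_num) p).hasFDerivAt
    have hTuD : ∀ p a, B (fderiv ℝ T p a) (u p) = -(r * B (T p) (j p a)) := by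
      intro p a
      have hud : HasFDerivAt u (fderiv ℝ u p) p :=
        (h.hu.differentiable (by norm_num) p).hasFDerivAt
      have hB : HasFDerivAt (fun q => B (T q)) (B.comp (fderiv ℝ T p)) p :=
        B.hasFDerivAt.comp p (hTd p)
      have h3 := hB.clm_apply hud
      have h4 : HasFDerivAt (fun q => B (T q) (u q)) (0 : E →L[ℝ] ℝ) p := by
        have : (fun q => B (T q) (u q)) = fun _ => (0 : ℝ) := funext fun q => hg.Tu q
        rw [this]
        exact hasFDerivAt_const _ _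
      have h6 := DFunLike.congr_fun (h3.unique h4) a
      simp at h6
      rw [h.du] at h6
      simp only [map_smul, smul_eq_mul] at h6
      linarith
    have hTTD : ∀ p a, B (fderiv ℝ T p a) (T p) = 0 := by
      intro p a
      have hB : HasFDerivAt (fun q => B (T q)) (B.comp (fderiv ℝ T p)) p :=
        B.hasFDerivAt.comp p (hTd p)
      have h3 := hB.clm_apply (hTd p)
      have h4 : HasFDerivAt (fun q => B (T q) (T q)) (0 : E →L[ℝ] ℝ) p := by
        have : (fun q => B (T q) (T q)) = fun _ => (-1 : ℝ) := funext fun q => hg.TT q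
        rw [this]
        exact hasFDerivAt_const _ _
      have h6 := DFunLike.congr_fun (h3.unique h4) a
      simp at h6
      rw [h.symm (T p)] at h6
      linarith
    have hspec : ∀ s, ∀ e, fderiv ℝ (confG B j ψ) (γ s) (γ' s) (γ' s) e +
        confG B j ψ (γ s) (geoField (confG B j ψ) (γ s, γ' s)).2 e =
        1 / 2 * fderiv ℝ (confG B j ψ) (γ s) e (γ' s) (γ' s) := fun s =>
      (geoField_spec (h.confG_nondeg hpos) (γ s) (γ' s)
        (geoField (confG B j ψ) (γ s, γ' s)).2).1 rfl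
    have hFj : ∀ s b, B (momD j ψ (γ s) (γ' s) (geoField (confG B j ψ) (γ s, γ' s)).2 -
        (r / ψ (γ s) * B (ψ (γ s) • j (γ s) (γ' s)) (ψ (γ s) • j (γ s) (γ' s))) • u (γ s))
        (j (γ s) b) = 1 / 2 * fderiv ℝ ψ (γ s) b * B (j (γ s) (γ' s)) (j (γ s) (γ' s)) := by
      intro s b
      simp only [map_sub, sub_apply, map_smul, smul_apply, smul_eq_mul]
      rw [momD_j h hψ (hspec s) b, h.symm (u (γ s)), h.ju]
      ring
    have hFu : ∀ s, B (momD j ψ (γ s) (γ' s) (geoField (confG B j ψ) (γ s, γ' s)).2 -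
        (r / ψ (γ s) * B (ψ (γ s) • j (γ s) (γ' s)) (ψ (γ s) • j (γ s) (γ' s))) • u (γ s))
        (u (γ s)) = 0 := by
      intro s
      simp only [map_sub, sub_apply, map_smul, smul_apply, smul_eq_mul]
      rw [momD_u h, h.uu]
      have := (hpos (γ s)).ne'
      field_simp
      ring
    refine ⟨fun s _ => hpair _, ?_, fun s _ => hFu s, ?_, ?_, ?_, ?_, ?_, ?_, ?_, ?_, ?_⟩
    · intro s _
      simp only [map_smul, smul_apply, smul_eq_mul]
      rw [h.ju, mul_zero]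
    · intro s _
      simp only [map_sub, sub_apply, map_smul, smul_apply, smul_eq_mul]
      rw [hTuD, h.uu]
      ring
    · intro s _
      simp only [map_sub, sub_apply, map_smul, smul_apply, smul_eq_mul]
      rw [hTTD, h.symm (u (γ s)), hg.Tu]
      ring
    · intro s hs
      have h1 : B (ψ (γ s) • j (γ s) (γ' s)) (ψ (γ s) • j (γ s) (γ' s)) =
          ψ (γ s) * confG B j ψ (γ s) (γ' s) (γ' s) := by
        simp only [map_smul, smul_apply, smul_eq_mul, confG_apply]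
      rw [h1, hEn s hs, abs_mul, abs_of_pos (hpos _), ← hE₀]
      exact mul_le_mul_of_nonneg_right (hg.hψM _) hE₀0
    · -- the force
      intro s hs
      obtain ⟨F, hF⟩ : ∃ F, F = momD j ψ (γ s) (γ' s) (geoField (confG B j ψ) (γ s, γ' s)).2 -
        (r / ψ (γ s) * B (ψ (γ s) • j (γ s) (γ' s)) (ψ (γ s) • j (γ s) (γ' s))) • u (γ s) :=
        ⟨_, rfl⟩
      have hFj' := hFj s
      have hFu' := hFu s
      rw [← hF] at hFj' hFu' ⊢
      have hSs := hS s hs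
      obtain ⟨S, hSdef⟩ : ∃ S, S = B (j (γ s) (γ' s)) (j (γ s) (γ' s)) := ⟨_, rfl⟩
      rw [← hSdef] at hSs hFj'
      have hS2 : S ^ 2 ≤ (E₀ / m₀) ^ 2 := sq_le_sq' (abs_le.1 hSs).1 (abs_le.1 hSs).2
      have hbound : ∀ b, (B F (j (γ s) b)) ^ 2 ≤ (1 / 2 * (E₀ / m₀)) ^ 2 * Cψ *
          Nf B (u (γ s)) (T (γ s)) (j (γ s) b) := by
        intro b
        rw [hFj' b]
        have h1 := hg.hdψ (γ s) b
        have h2 : 0 ≤ Cψ * Nf B (u (γ s)) (T (γ s)) (j (γ s) b) :=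
          mul_nonneg hg.hCψ ((hpair _).nonneg _)
        calc (1 / 2 * fderiv ℝ ψ (γ s) b * S) ^ 2 =
            (1 / 2) ^ 2 * S ^ 2 * (fderiv ℝ ψ (γ s) b) ^ 2 := by ring
          _ ≤ (1 / 2) ^ 2 * (E₀ / m₀) ^ 2 * (Cψ * Nf B (u (γ s)) (T (γ s)) (j (γ s) b)) := by
              apply mul_le_mul _ h1 (sq_nonneg _) (by positivity)
              exact mul_le_mul_of_nonneg_left hS2 (by positivity)
          _ = (1 / 2 * (E₀ / m₀)) ^ 2 * Cψ * Nf B (u (γ s)) (T (γ s)) (j (γ s) b) := by ring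
      obtain ⟨f, hf⟩ := h.tan (γ s) F hFu'
      obtain ⟨τ, hτ⟩ := h.tan (γ s) (T (γ s)) (hg.Tu _)
      have hb1 := hbound f
      have hb2 := hbound τ
      rw [hf] at hb1
      rw [hτ] at hb2
      have hNT : Nf B (u (γ s)) (T (γ s)) (T (γ s)) = 1 := by
        unfold Nf
        rw [hg.TT, hg.Tu]
        norm_num
      rw [hNT, mul_one] at hb2
      have hβ : 0 ≤ (1 / 2 * (E₀ / m₀)) ^ 2 * Cψ := by have := hg.hCψ; positivity
      have hsq : (Real.sqrt ((1 / 2 * (E₀ / m₀)) ^ 2 * Cψ)) ^ 2 =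
          (1 / 2 * (E₀ / m₀)) ^ 2 * Cψ := Real.sq_sqrt hβ
      have := force_bound (hpair (γ s)) (β := Real.sqrt ((1 / 2 * (E₀ / m₀)) ^ 2 * Cψ)) hFu'
        (by rw [hsq]; exact hb1) (by rw [hsq]; exact hb2)
      rw [hsq] at this
      exact this
    · -- the derivative of the field
      intro s _
      have h1 := hg.hΘ (γ s) (γ' s)
      refine h1.trans ?_
      have h2 : Nf B (u (γ s)) (T (γ s)) (ψ (γ s) • j (γ s) (γ' s)) =
          ψ (γ s) ^ 2 * Nf B (u (γ s)) (T (γ s)) (j (γ s) (γ' s)) := by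
        unfold Nf
        simp only [map_smul, smul_apply, smul_eq_mul]
        ring
      rw [h2]
      have hn := (hpair (γ s)).nonneg (j (γ s) (γ' s))
      have h3 : m₀ ^ 2 ≤ ψ (γ s) ^ 2 := pow_le_pow_left₀ hm₀.le (hg.hψm _) 2
      have h4 : m₀ ^ 2 * Nf B (u (γ s)) (T (γ s)) (j (γ s) (γ' s)) ≤
          ψ (γ s) ^ 2 * Nf B (u (γ s)) (T (γ s)) (j (γ s) (γ' s)) :=
        mul_le_mul_of_nonneg_right h3 hn
      have h5 : C2 * Nf B (u (γ s)) (T (γ s)) (j (γ s) (γ' s)) =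
          C2 / m₀ ^ 2 * (m₀ ^ 2 * Nf B (u (γ s)) (T (γ s)) (j (γ s) (γ' s))) := by
        field_simp
      rw [h5]
      exact mul_le_mul_of_nonneg_left h4 (by have := hg.hC2; positivity)
    · intro s _
      rw [abs_div, abs_of_pos (hpos _)]
      exact div_le_div_of_nonneg_left (abs_nonneg _) hm₀ (hg.hψm _)
    · intro s hs
      have h1 : HasDerivAt (fun s => u (γ s)) (fderiv ℝ u (γ s) (γ' s)) s :=
        (h.hu.differentiable (by norm_num) (γ s)).hasFDerivAt.comp_hasDerivAt s (hd1 s hs)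
      refine h1.congr_deriv ?_
      rw [h.du, smul_smul]
      congr 1
      have := (hpos (γ s)).ne'
      field_simp
    · intro s hs
      exact (hasDerivAt_mom h hψ (hd1 s hs) (hd2 s hs)).congr_deriv (sub_add_cancel _ _).symm
    · intro s hs
      have h1 : HasDerivAt (fun s => T (γ s)) (fderiv ℝ T (γ s) (γ' s)) s :=
        (hTd (γ s)).comp_hasDerivAt s (hd1 s hs)
      refine h1.congr_deriv ?_
      simp only [map_smul, smul_apply, smul_eq_mul]
      have h2 : r / ψ (γ s) * (ψ (γ s) * B (j (γ s) (γ' s)) (T (γ s))) =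
          r * B (T (γ s)) (j (γ s) (γ' s)) := by
        rw [h.symm (T (γ s))]
        have := (hpos (γ s)).ne'
        field_simp
      rw [h2]
      abel
  obtain ⟨-, hvb, hgr⟩ := hgrow B I _ _ _ _ _ _ hI hdata
  have h1 := hgr 0 h0I t ht (ψ (γ t) • j (γ t) (γ' t))
  have h2 := hvb t ht
  simp only [hγ0, hγ'0] at h1
  have h3 : Real.exp (C * |0 - t|) ≤ Real.exp (C * T₀) := by
    apply Real.exp_le_exp.2
    rw [zero_sub, abs_neg]
    exact mul_le_mul_of_nonneg_left htT hC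
  have h4 : Nf B (u x₀) (bT B k (T x₀) (ψ x₀ • j x₀ v₀)) (ψ (γ t) • j (γ t) (γ' t)) ≤
      Real.exp (C * T₀) * Cv := by
    refine h1.trans ?_
    exact mul_le_mul h3 h2 ((hdata.pair t ht).bT (by positivity) hk hkC (hdata.e3 t ht)
      (hdata.vu t ht) |>.nonneg _) (Real.exp_pos _).le
  have h5 : ‖ψ (γ t) • j (γ t) (γ' t)‖ ≤ Real.sqrt (K₀ * (Real.exp (C * T₀) * Cv)) := by
    apply Real.le_sqrt_of_sq_le
    exact (hlow _).trans (mul_le_mul_of_nonneg_left h4 hK₀)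
  rw [norm_smul, Real.norm_eq_abs, abs_of_pos (hpos _)] at h5
  have h6 : m₀ * ‖j (γ t) (γ' t)‖ ≤ Real.sqrt (K₀ * (Real.exp (C * T₀) * Cv)) :=
    (mul_le_mul_of_nonneg_right (hg.hψm _) (norm_nonneg _)).trans h5
  have h7 : ‖j (γ t) (γ' t)‖ ≤ 1 / m₀ * Real.sqrt (K₀ * (Real.exp (C * T₀) * Cv)) := by
    rw [one_div, ← div_eq_inv_mul, le_div_iff₀ hm₀, mul_comm]
    exact h6
  calc ‖γ' t‖ ≤ c * ‖j (γ t) (γ' t)‖ := hcl _ _
    _ ≤ c * (1 / m₀ * Real.sqrt (K₀ * (Real.exp (C * T₀) * Cv))) :=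
        mul_le_mul_of_nonneg_left h7 hc.le
    _ = c * (1 / m₀) * Real.sqrt (K₀ * (Real.exp (C * T₀) * Cv)) := by ring

end Pool.Agent.H84.Lor
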